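import Mathlib

/-! Sums over families of intervals, and small combinatorial lemmas. -/

set_option autoImplicit false

namespace Pool.Agent.Lib.MP_173a7e_an.C2

open Set Filter Topology

/-- A gap `(a, b)` inside a cell `[p, q]`, not longer than the two sides. -/
def Thin (p a b q : ℝ) : Prop := p < a ∧ a < b ∧ b < q ∧ b - a ≤ a - p ∧ b - a ≤ q - b

/-- Earlier cells, translated by integers, miss later cells or lie in one of their sides. -/
def Lam (n : ℕ) (p a b q : ℕ → ℝ) : Prop :=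
  ∀ i j, i < j → j < n → ∀ m : ℤ, q i + m ≤ p j ∨ q j ≤ p i + m ∨
    (p j ≤ p i + m ∧ q i + m ≤ a j) ∨ (b j ≤ p i + m ∧ q i + m ≤ q j)

theorem disj_sum {ι : Type} (s : Finset ι) (a l : ι → ℝ) (h0 : ∀ i ∈ s, 0 ≤ l i ∧ l i ≤ 1)
    (h : ∀ i ∈ s, ∀ j ∈ s, i ≠ j → ∀ (m : ℤ) (u : ℝ), a i ≤ u → u < a i + l i →
      a j + m ≤ u → u < a j + m + l j → False) : ∑ i ∈ s, l i ≤ 2 := by
  have hd : PairwiseDisjoint (↑s : Set ι)
      (fun i => Ico (Int.fract (a i)) (Int.fract (a i) + l i)) := by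
    intro i hi j hj hij
    rw [Function.onFun, Set.disjoint_left]
    intro u h1 h2
    simp only [Int.fract, mem_Ico] at h1 h2
    refine h i hi j hj hij (⌊a i⌋ - ⌊a j⌋) (u + ⌊a i⌋) ?_ ?_ ?_ ?_ <;> push_cast <;>
      linarith [h1.1, h1.2, h2.1, h2.2]
  have h1 := MeasureTheory.measure_biUnion_finset (μ := MeasureTheory.volume) hd
    (fun v _ => measurableSet_Ico)
  have h2 : (⋃ i ∈ s, Ico (Int.fract (a i)) (Int.fract (a i) + l i)) ⊆ Ico 0 2 := by
    intro u hu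
    simp only [mem_iUnion] at hu
    obtain ⟨i, hi, hu⟩ := hu
    exact ⟨(Int.fract_nonneg _).trans hu.1,
      by linarith [hu.2, Int.fract_lt_one (a i), (h0 i hi).2]⟩
  have h3 := MeasureTheory.measure_mono (μ := MeasureTheory.volume) h2
  rw [h1] at h3
  simp only [Real.volume_Ico, add_sub_cancel_left] at h3
  rw [← ENNReal.ofReal_sum_of_nonneg (fun i hi => (h0 i hi).1),
    ENNReal.ofReal_le_ofReal_iff (by norm_num)] at h3
  simpa using h3

/-- Disjoint intervals inside an interval. -/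
theorem sum_in {ι : Type} (s : Finset ι) (a b : ι → ℝ) {u v : ℝ} (huv : u ≤ v)
    (h0 : ∀ i ∈ s, u ≤ a i ∧ a i ≤ b i ∧ b i ≤ v)
    (h : ∀ i ∈ s, ∀ j ∈ s, i ≠ j → b i ≤ a j ∨ b j ≤ a i) : ∑ i ∈ s, (b i - a i) ≤ v - u := by
  have hd : PairwiseDisjoint (↑s : Set ι) (fun i => Ico (a i) (b i)) := by
    intro i hi j hj hij
    rw [Function.onFun, Set.disjoint_left]
    intro x h1 h2
    rcases h i hi j hj hij with h3 | h3
    · linarith [h1.2, h2.1]
    · linarith [h1.1, h2.2]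
  have h1 := MeasureTheory.measure_biUnion_finset (μ := MeasureTheory.volume) hd
    (fun v _ => measurableSet_Ico)
  have h2 : (⋃ i ∈ s, Ico (a i) (b i)) ⊆ Ico u v := by
    intro x hx
    simp only [mem_iUnion] at hx
    obtain ⟨i, hi, hx⟩ := hx
    exact ⟨(h0 i hi).1.trans hx.1, hx.2.trans_le (h0 i hi).2.2⟩
  have h3 := MeasureTheory.measure_mono (μ := MeasureTheory.volume) h2
  rw [h1] at h3
  simp only [Real.volume_Ico] at h3
  rw [← ENNReal.ofReal_sum_of_nonneg (fun i hi => sub_nonneg.2 (h0 i hi).2.1),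
    ENNReal.ofReal_le_ofReal_iff (sub_nonneg.2 huv)] at h3
  exact h3

/-- Cutting off a final stretch of prescribed mass. -/
theorem cut (c : ℕ → ℝ) {k : ℕ} (h : ∀ t < k, 0 ≤ c t ∧ c t ≤ 1) {X : ℝ} (hX : 0 ≤ X)
    (hk : X ≤ ∑ t ∈ Finset.range k, c t) :
    ∃ k' ≤ k, X ≤ ∑ t ∈ Finset.Ico k' k, c t ∧ ∑ t ∈ Finset.Ico k' k, c t ≤ X + 1 := by
  induction k generalizing X with
  | zero =>
    refine ⟨0, le_rfl, ?_, ?_⟩
    · simpa using hk
    · simp only [Finset.Ico_self, Finset.sum_empty]; linarith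
  | succ k ih =>
    have hck := h k (Nat.lt_succ_self k)
    by_cases hc : X ≤ c k
    · refine ⟨k, Nat.le_succ k, ?_, ?_⟩
      · rw [Finset.sum_Ico_succ_top le_rfl]; simpa using hc
      · rw [Finset.sum_Ico_succ_top le_rfl]
        simp only [Finset.Ico_self, Finset.sum_empty]; linarith [hck.2]
    · rw [Finset.sum_range_succ] at hk
      obtain ⟨k', h1, h2, h3⟩ := ih (fun t ht => h t (Nat.lt_succ_of_lt ht)) (X := X - c k)
        (by linarith [not_le.1 hc]) (by linarith)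
      refine ⟨k', h1.trans (Nat.le_succ k), ?_, ?_⟩
      · rw [Finset.sum_Ico_succ_top h1]; linarith
      · rw [Finset.sum_Ico_succ_top h1]; linarith

open Classical in
/-- Some element of a nested family covers much more than its own weight. -/
theorem cover (P : Finset ℕ) (w : ℕ → ℝ) (N : ℕ → ℕ → Prop) (hw : ∀ i ∈ P, 0 ≤ w i)
    (hN : ∀ i j, N i j → i < j) (ht : ∀ i ∈ P, ∀ j ∈ P, ∀ k ∈ P, N i j → N j k → N i k) {D : ℝ}
    (hD : 0 ≤ D) (h2 : ∀ Q ⊆ P, (∀ i ∈ Q, ∀ j ∈ Q, ¬ N i j) → ∑ i ∈ Q, w i ≤ 2)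
    (h3 : 2 * (1 + D) < ∑ i ∈ P, w i) :
    ∃ j ∈ P, D * w j < ∑ i ∈ P.filter (fun i => N i j), w i := by
  by_contra hcon
  have hle : ∀ j ∈ P, ∑ i ∈ P.filter (fun i => N i j), w i ≤ D * w j := fun j hj =>
    not_lt.1 fun hh => hcon ⟨j, hj, hh⟩
  obtain ⟨M, hM⟩ : ∃ M : Finset ℕ, M = P.filter (fun j => ∀ k ∈ P, ¬ N j k) := ⟨_, rfl⟩
  have hMm : ∀ j, j ∈ M ↔ j ∈ P ∧ ∀ k ∈ P, ¬ N j k := by
    intro j; rw [hM, Finset.mem_filter]
  have hMP : M ⊆ P := fun j hj => ((hMm j).1 hj).1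
  have hM2 : ∑ i ∈ M, w i ≤ 2 := h2 M hMP fun i hi j hj => ((hMm i).1 hi).2 j (hMP hj)
  have hex : ∀ i ∈ P \ M, ∃ j ∈ M, N i j := by
    intro i hi
    obtain ⟨hiP, hiM⟩ := Finset.mem_sdiff.1 hi
    have hne : (P.filter (fun k => N i k)).Nonempty := by
      by_contra hh
      refine hiM ((hMm i).2 ⟨hiP, fun k hk hik => hh ⟨k, Finset.mem_filter.2 ⟨hk, hik⟩⟩⟩)
    obtain ⟨hj1, hj2⟩ := Finset.mem_filter.1 (Finset.max'_mem _ hne)
    refine ⟨_, (hMm _).2 ⟨hj1, fun k hk hjk => ?_⟩, hj2⟩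
    have h4 := Finset.le_max' (P.filter (fun k => N i k)) k
      (Finset.mem_filter.2 ⟨hk, ht i hiP _ hj1 k hk hj2 hjk⟩)
    exact absurd (hN _ _ hjk) (not_lt.2 h4)
  have h5 : ∑ i ∈ P \ M, w i ≤ ∑ i ∈ P \ M, ∑ j ∈ M, (if N i j then w i else 0) := by
    refine Finset.sum_le_sum fun i hi => ?_
    obtain ⟨j, hj, hij⟩ := hex i hi
    have hwi := hw i (Finset.mem_sdiff.1 hi).1
    have h6 := Finset.single_le_sum (f := fun j => if N i j then w i else 0) (s := M)
      (fun k _ => by split_ifs; exacts [hwi, le_rfl]) hj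
    simpa only [if_pos hij] using h6
  have h7 : ∑ i ∈ P \ M, ∑ j ∈ M, (if N i j then w i else 0) ≤
      ∑ i ∈ P, ∑ j ∈ M, (if N i j then w i else 0) :=
    Finset.sum_le_sum_of_subset_of_nonneg Finset.sdiff_subset fun i hi _ =>
      Finset.sum_nonneg fun j _ => by split_ifs; exacts [hw i hi, le_rfl]
  rw [Finset.sum_comm] at h7
  have h8 : ∑ j ∈ M, ∑ i ∈ P, (if N i j then w i else 0) ≤ ∑ j ∈ M, D * w j := by
    refine Finset.sum_le_sum fun j hj => ?_
    rw [← Finset.sum_filter]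
    exact hle j (hMP hj)
  rw [← Finset.mul_sum] at h8
  have h9 := Finset.sum_sdiff (f := w) hMP
  have h10 := mul_le_mul_of_nonneg_left hM2 hD
  have h11 : ∑ i ∈ P \ M, w i ≤ D * 2 := by
    refine h5.trans (le_trans ?_ (h8.trans h10))
    rw [Finset.sum_comm (s := M) (t := P)]
    exact Finset.sum_le_sum_of_subset_of_nonneg Finset.sdiff_subset fun i hi _ =>
      Finset.sum_nonneg fun j _ => by split_ifs; exacts [hw i hi, le_rfl]
  linarith

/-- If every stretch of mass `μ` gains `c`, the total gain is proportional to the mass. -/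
theorem blocks (m g : ℕ → ℝ) (n : ℕ) (hm : ∀ t < n, 0 ≤ m t ∧ m t ≤ 1) (hg : ∀ t < n, 0 ≤ g t)
    {μ c : ℝ} (hμ : 0 < μ) (hc : 0 ≤ c)
    (H : ∀ i k, i ≤ k → k ≤ n → μ ≤ ∑ t ∈ Finset.Ico i k, m t → c ≤ ∑ t ∈ Finset.Ico i k, g t) :
    c * ((∑ t ∈ Finset.range n, m t) / (μ + 1) - 1) ≤ ∑ t ∈ Finset.range n, g t := by
  induction n using Nat.strong_induction_on with
  | _ n ih =>
    have hG : 0 ≤ ∑ t ∈ Finset.range n, g t :=
      Finset.sum_nonneg fun t ht => hg t (Finset.mem_range.1 ht)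
    have hμ1 : 0 < μ + 1 := by linarith
    by_cases hS : μ ≤ ∑ t ∈ Finset.range n, m t
    · obtain ⟨k, h1, h2, h3⟩ := cut m hm hμ.le hS
      have hkn : k < n := by
        refine lt_of_le_of_ne h1 fun hh => ?_
        rw [hh] at h2
        simp only [Finset.Ico_self, Finset.sum_empty] at h2
        linarith
      have h4 := ih k hkn (fun t ht => hm t (ht.trans hkn)) (fun t ht => hg t (ht.trans hkn))
        (fun i j hij hj => H i j hij (hj.trans h1))
      have h5 := H k n h1 le_rfl h2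
      have h6 := Finset.sum_range_add_sum_Ico m h1
      have h7 := Finset.sum_range_add_sum_Ico g h1
      have h8 : (∑ t ∈ Finset.range n, m t) / (μ + 1) - 1 ≤
          (∑ t ∈ Finset.range k, m t) / (μ + 1) := by
        rw [sub_le_iff_le_add, div_add_one hμ1.ne']
        exact div_le_div_of_nonneg_right (by linarith) hμ1.le
      have h9 := mul_le_mul_of_nonneg_left h8 hc
      rw [mul_sub, mul_one] at h4
      linarith
    · have h8 : (∑ t ∈ Finset.range n, m t) / (μ + 1) - 1 ≤ 0 := by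
        rw [sub_nonpos, div_le_one hμ1]; linarith [not_le.1 hS]
      exact (mul_nonpos_of_nonneg_of_nonpos hc h8).trans hG

theorem exp_half : Real.exp (1 / 2) ≤ 2 := by
  have := Real.exp_bound_div_one_sub_of_interval (x := 1 / 2) (by norm_num) (by norm_num)
  norm_num at this ⊢; exact this

end Pool.Agent.Lib.MP_173a7e_an.C2
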