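import Pool.Agent.Lib.MP_173a7e_an.Gap
import Pool.Agent.Lib.MP_173a7e_an.C2.Int

/-! Cross-ratio calculus for actions of class `C²`, generators and paths. -/

set_option autoImplicit false
set_option linter.unusedSectionVars false
set_option linter.unusedVariables false

namespace Pool.Agent.Lib.MP_173a7e_an.C2

section

open Set Filter Topology

variable {G : Type} [Group G] [MulAction G ℝ]

/-- The difference quotient, equal to the derivative on the diagonal. -/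
noncomputable def sl (g : G) (p t : ℝ) : ℝ := dslope (fun y : ℝ => g • y) p t

/-- The second derivative. -/
noncomputable def DD (g : G) (x : ℝ) : ℝ := deriv (D g) x

/-- Half of the nonlinearity. -/
noncomputable def Nl (g : G) (x : ℝ) : ℝ := DD g x / (2 * D g x)

/-- Logarithm of the difference quotient. -/
noncomputable def Fl (g : G) (p t : ℝ) : ℝ := Real.log (sl g p t)

/-- Logarithmic cross-ratio distortion. -/
noncomputable def Xr (g : G) (p p' t1 t2 : ℝ) : ℝ := Fl g p t2 - Fl g p t1 - Fl g p' t2 + Fl g p' t1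

theorem sl_same (g : G) (p : ℝ) : sl g p p = D g p := by
  unfold sl D; rw [dslope_same]

theorem sl_ne (g : G) {p t : ℝ} (h : t ≠ p) : sl g p t = (g • t - g • p) / (t - p) := by
  unfold sl; rw [dslope_of_ne _ h, slope_def_field]

theorem sl_symm (g : G) (p t : ℝ) : sl g p t = sl g t p := by
  by_cases h : t = p
  · rw [h]
  · rw [sl_ne g h, sl_ne g (Ne.symm h), ← neg_sub (g • p), ← neg_sub p, neg_div_neg_eq]

theorem Fl_symm (g : G) (p t : ℝ) : Fl g p t = Fl g t p := by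
  unfold Fl; rw [sl_symm]

variable [SmoothAct G]

theorem sl_pos (g : G) (p t : ℝ) : 0 < sl g p t := by
  rcases lt_trichotomy t p with h | h | h
  · rw [sl_ne g h.ne]
    exact div_pos_of_neg_of_neg (sub_neg.2 ((act_lt g).2 h)) (sub_neg.2 h)
  · rw [h, sl_same]; exact D_pos g p
  · rw [sl_ne g h.ne']
    exact div_pos (sub_pos.2 ((act_lt g).2 h)) (sub_pos.2 h)

theorem exp_Fl (g : G) (p t : ℝ) : Real.exp (Fl g p t) = sl g p t := Real.exp_log (sl_pos g p t)

omit [SmoothAct G] in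
theorem act_ne (g : G) {p t : ℝ} (h : t ≠ p) : g • t ≠ g • p := fun e =>
  h (MulAction.injective g e)

theorem sl_mul (g h : G) (p t : ℝ) : sl (g * h) p t = sl g (h • p) (h • t) * sl h p t := by
  by_cases e : t = p
  · rw [e, sl_same, sl_same, sl_same, D_mul]
  · have e' := act_ne h e
    rw [sl_ne _ e, sl_ne _ e, sl_ne _ e', mul_smul, mul_smul]
    field_simp [sub_ne_zero.2 e, sub_ne_zero.2 e']

theorem Fl_mul (g h : G) (p t : ℝ) : Fl (g * h) p t = Fl g (h • p) (h • t) + Fl h p t := by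
  unfold Fl; rw [sl_mul, Real.log_mul (sl_pos _ _ _).ne' (sl_pos _ _ _).ne']

theorem Xr_mul (g h : G) (p p' t1 t2 : ℝ) :
    Xr (g * h) p p' t1 t2 = Xr g (h • p) (h • p') (h • t1) (h • t2) + Xr h p p' t1 t2 := by
  unfold Xr; simp only [Fl_mul]; ring

theorem exp_Xr (g : G) (p p' t1 t2 : ℝ) :
    Real.exp (Xr g p p' t1 t2) = sl g p t2 * sl g p' t1 / (sl g p t1 * sl g p' t2) := by
  unfold Xr
  rw [Real.exp_add, Real.exp_sub, Real.exp_sub]
  simp only [exp_Fl]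
  have := sl_pos g p t1
  have := sl_pos g p' t2
  field_simp

theorem cont_sl (g : G) (p : ℝ) : Continuous (sl g p) := by
  rw [continuous_iff_continuousAt]
  intro t
  by_cases h : t = p
  · subst h; exact continuousAt_dslope_same.2 (diffAt g t)
  · exact (continuousAt_dslope_of_ne h).2 (cont_smul g).continuousAt

theorem cont_Fl (g : G) (p : ℝ) : Continuous (Fl g p) :=
  (cont_sl g p).log fun t => (sl_pos g p t).ne'

theorem hasD_Fl (g : G) {p t : ℝ} (h : t ≠ p) :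
    HasDerivAt (Fl g p) (D g t / (g • t - g • p) - 1 / (t - p)) t := by
  have h1 : t - p ≠ 0 := sub_ne_zero.2 h
  have h2 : g • t - g • p ≠ 0 := sub_ne_zero.2 (act_ne g h)
  have a : HasDerivAt (fun u => Real.log (g • u - g • p) - Real.log (u - p))
      (D g t / (g • t - g • p) - 1 / (t - p)) t :=
    (((hasD g t).sub_const _).log h2).sub (((hasDerivAt_id t).sub_const p).log h1)
  refine a.congr_of_eventuallyEq ?_
  filter_upwards [isOpen_ne.mem_nhds h] with u hu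
  unfold Fl
  rw [sl_ne g hu, Real.log_div (sub_ne_zero.2 (act_ne g hu)) (sub_ne_zero.2 hu)]

theorem hasD_D (g : G) (x : ℝ) : HasDerivAt (D g) (DD g x) x :=
  (((contDiff_D g).differentiable (by norm_num)) x).hasDerivAt

theorem cont_DD (g : G) : Continuous (DD g) := (contDiff_D g).continuous_deriv le_rfl

theorem DD_int (g : G) (x : ℝ) (n : ℤ) : DD g (x + n) = DD g x := by
  have : (fun y => D g (y + n)) = D g := funext fun y => D_int g y n
  unfold DD
  rw [← deriv_comp_add_const (D g) (n : ℝ) x, this]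

theorem mvtD (g : G) (a b : ℝ) : ∃ u ∈ uIcc a b, D g b - D g a = DD g u * (b - a) := by
  rcases lt_trichotomy a b with h | h | h
  · obtain ⟨c, hc, hc'⟩ := exists_hasDerivAt_eq_slope (D g) (DD g) h
      (cont_D g).continuousOn (fun x _ => hasD_D g x)
    refine ⟨c, ?_, ?_⟩
    · rw [uIcc_of_le h.le]; exact Ioo_subset_Icc_self hc
    · rw [hc']; field_simp [(sub_pos.2 h).ne']
  · subst h; exact ⟨a, left_mem_uIcc, by simp⟩
  · obtain ⟨c, hc, hc'⟩ := exists_hasDerivAt_eq_slope (D g) (DD g) h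
      (cont_D g).continuousOn (fun x _ => hasD_D g x)
    refine ⟨c, ?_, ?_⟩
    · rw [uIcc_of_ge h.le]; exact Ioo_subset_Icc_self hc
    · rw [hc']; field_simp [(sub_pos.2 h).ne']; ring

theorem taylor2 (g : G) {p t : ℝ} (h : p ≠ t) :
    ∃ ξ ∈ uIcc p t, D g t * (t - p) - (g • t - g • p) = DD g ξ / 2 * (t - p) ^ 2 := by
  have d1 : ∀ u, HasDerivAt (fun u => D g t * (t - u) - (g • t - g • u)) (D g u - D g t) u := by
    intro u
    have := (((hasDerivAt_id u).const_sub t).const_mul (D g t)).sub ((hasD g u).const_sub (g • t))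
    exact this.congr_deriv (by ring)
  have d2 : ∀ u, HasDerivAt (fun u => (t - u) ^ 2) (-2 * (t - u)) u := by
    intro u
    have := ((hasDerivAt_id u).const_sub t).pow 2
    exact this.congr_deriv (by simp)
  have key : ∃ c ∈ uIcc p t, c ≠ t ∧ (t - p) ^ 2 * (D g c - D g t) =
      (D g t * (t - p) - (g • t - g • p)) * (-2 * (t - c)) := by
    rcases lt_or_gt_of_ne h with h' | h'
    · obtain ⟨c, hc, e⟩ := exists_ratio_hasDerivAt_eq_ratio_slope _ _ h'
        (fun u _ => (d1 u).continuousAt.continuousWithinAt) (fun u _ => d1 u) _ _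
        (fun u _ => (d2 u).continuousAt.continuousWithinAt) (fun u _ => d2 u)
      refine ⟨c, by rw [uIcc_of_le h'.le]; exact Ioo_subset_Icc_self hc, hc.2.ne, ?_⟩
      simp only [sub_self, mul_zero] at e
      linarith
    · obtain ⟨c, hc, e⟩ := exists_ratio_hasDerivAt_eq_ratio_slope _ _ h'
        (fun u _ => (d1 u).continuousAt.continuousWithinAt) (fun u _ => d1 u) _ _
        (fun u _ => (d2 u).continuousAt.continuousWithinAt) (fun u _ => d2 u)
      refine ⟨c, by rw [uIcc_of_ge h'.le]; exact Ioo_subset_Icc_self hc, hc.1.ne', ?_⟩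
      simp only [sub_self, mul_zero] at e
      linarith
  obtain ⟨c, hc, hct, e⟩ := key
  obtain ⟨ξ, hξ, e2⟩ := mvtD g c t
  refine ⟨ξ, uIcc_subset_uIcc hc right_mem_uIcc hξ, ?_⟩
  have h3 : t - c ≠ 0 := sub_ne_zero.2 (Ne.symm hct)
  apply mul_right_cancel₀ h3
  have : D g c - D g t = -(DD g ξ * (t - c)) := by linarith
  rw [this] at e
  linarith
theorem Nl_bdd (g : G) : ∃ C, 0 ≤ C ∧ ∀ x, |Nl g x| ≤ C :=
  per_bdd _ ((cont_DD g).div (continuous_const.mul (cont_D g))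
    (fun x => mul_ne_zero two_ne_zero (D_pos g x).ne')) (fun x n => by
      unfold Nl; simp only [DD_int, D_int])

/-- The quantity that controls cross ratios. -/
noncomputable def key (g : G) (p t : ℝ) : ℝ := D g t / (g • t - g • p) - 1 / (t - p) - Nl g t

theorem key_le (g : G) : ∃ L, 0 ≤ L ∧ ∀ p t e : ℝ, p ≠ t →
    (∀ ξ, |ξ - t| ≤ |t - p| → |DD g ξ - DD g t| ≤ e) → |key g p t| ≤ L * (e + |t - p|) := by
  obtain ⟨M, M0, hM⟩ := per_bdd _ (cont_DD g) (DD_int g)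
  obtain ⟨L, L0, hL⟩ := per_bdd (fun x => (D g x)⁻¹) ((cont_D g).inv₀ fun x => (D_pos g x).ne')
    (fun x n => by simp only [D_int])
  have hL' : ∀ x, (D g x)⁻¹ ≤ L := fun x => le_trans (le_abs_self _) (hL x)
  refine ⟨L + M * M * L * L, by positivity, fun p t e hpt he => ?_⟩
  obtain ⟨ξ, hξ, e1⟩ := taylor2 g hpt
  obtain ⟨ζ, hζ, e2⟩ := mvt g p t
  obtain ⟨υ, -, e3⟩ := mvtD g ζ t
  have n1 : t - p ≠ 0 := sub_ne_zero.2 (Ne.symm hpt)
  have p1 := D_pos g ζ
  have p2 := D_pos g t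
  have e4 : key g p t = (DD g ξ - DD g t) * (D g ζ)⁻¹ / 2 +
        DD g t * (DD g υ * (t - ζ)) * (D g ζ)⁻¹ * (D g t)⁻¹ / 2 := by
    have : D g t / (g • t - g • p) - 1 / (t - p) = DD g ξ / (2 * D g ζ) := by
      rw [e2] at e1 ⊢
      field_simp
      apply mul_right_cancel₀ n1
      linarith
    rw [key, this, ← e3]
    unfold Nl
    field_simp
    ring
  have r0 : 0 ≤ |t - p| := abs_nonneg _
  have b1 : |ξ - t| ≤ |t - p| := by
    rw [abs_sub_comm ξ t]; exact abs_sub_right_of_mem_uIcc hξ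
  have b2 : |t - ζ| ≤ |t - p| := abs_sub_right_of_mem_uIcc hζ
  have b3 := he ξ b1
  have e0 : 0 ≤ e := (abs_nonneg _).trans b3
  have i1 := inv_pos.2 p1
  have i2 := inv_pos.2 p2
  rw [e4]
  refine (abs_add_le _ _).trans ?_
  rw [abs_div, abs_div, abs_mul, abs_mul, abs_mul, abs_mul, abs_mul, abs_of_pos i1, abs_of_pos i2,
    abs_two]
  have c1 : |DD g ξ - DD g t| * (D g ζ)⁻¹ ≤ e * L := mul_le_mul b3 (hL' _) i1.le e0
  have c2 : |DD g t| * (|DD g υ| * |t - ζ|) * (D g ζ)⁻¹ * (D g t)⁻¹ ≤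
      M * (M * |t - p|) * L * L := by
    gcongr
    · exact hM _
    · exact hM _
    · exact hL' _
    · exact hL' _
  have c3 : 0 ≤ |DD g ξ - DD g t| * (D g ζ)⁻¹ := by positivity
  have c4 : 0 ≤ |DD g t| * (|DD g υ| * |t - ζ|) * (D g ζ)⁻¹ * (D g t)⁻¹ := by positivity
  have c5 : 0 ≤ L * |t - p| := by positivity
  have c6 : 0 ≤ M * M * L * L * e := by positivity
  nlinarith

theorem DD_unif (g : G) {e : ℝ} (he : 0 < e) :
    ∃ ρ > 0, ∀ x y : ℝ, |x - y| ≤ ρ → |DD g x - DD g y| ≤ e := by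
  have h := (isCompact_Icc (a := (-1 : ℝ)) (b := 2)).uniformContinuousOn_of_continuous
    (cont_DD g).continuousOn
  obtain ⟨ρ, r0, hρ⟩ := Metric.uniformContinuousOn_iff_le.1 h e he
  refine ⟨min ρ 1, lt_min r0 one_pos, fun x y hxy => ?_⟩
  have a1 := abs_le.1 (hxy.trans (min_le_right _ _))
  have f1 := Int.fract_nonneg y
  have f2 := Int.fract_lt_one y
  have f3 := Int.fract_add_floor y
  have := hρ (x - ⌊y⌋) ⟨by linarith [a1.1], by linarith [a1.2]⟩ (y - ⌊y⌋)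
    ⟨by linarith, by linarith⟩ (by
      rw [Real.dist_eq, sub_sub_sub_cancel_right]; exact hxy.trans (min_le_left _ _))
  rw [Real.dist_eq, ← DD_int g (x - ⌊y⌋) ⌊y⌋, ← DD_int g (y - ⌊y⌋) ⌊y⌋, sub_add_cancel,
    sub_add_cancel] at this
  exact this

theorem key_small (g : G) {σ : ℝ} (hσ : 0 < σ) :
    ∃ ρ > 0, ∀ p t : ℝ, p ≠ t → |t - p| ≤ ρ → |key g p t| ≤ σ := by
  obtain ⟨L, L0, hL⟩ := key_le g
  have e0 : 0 < σ / (2 * (L + 1)) := by positivity
  obtain ⟨ρ, r0, hρ⟩ := DD_unif g e0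
  refine ⟨min ρ (σ / (2 * (L + 1))), lt_min r0 e0, fun p t h1 h2 => ?_⟩
  refine (hL p t _ h1 fun ξ hξ => hρ _ _ (hξ.trans (h2.trans (min_le_left _ _)))).trans ?_
  have a := h2.trans (min_le_right _ _)
  calc L * (σ / (2 * (L + 1)) + |t - p|) ≤ (L + 1) * (σ / (2 * (L + 1)) + σ / (2 * (L + 1))) := by
        gcongr; linarith
    _ = σ := by field_simp; ring

theorem key_bdd (g : G) : ∃ C, ∀ p t : ℝ, p ≠ t → |t - p| ≤ 1 → |key g p t| ≤ C := by
  obtain ⟨L, L0, hL⟩ := key_le g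
  obtain ⟨M, M0, hM⟩ := per_bdd _ (cont_DD g) (DD_int g)
  refine ⟨L * (2 * M + 1), fun p t h1 h2 => (hL p t (2 * M) h1 fun ξ _ => ?_).trans (by gcongr)⟩
  linarith [abs_sub (DD g ξ) (DD g t), hM ξ, hM t]

theorem Xr_one (p p' t1 t2 : ℝ) : Xr (1 : G) p p' t1 t2 = 0 := by
  have := Xr_mul (1 : G) 1 p p' t1 t2
  simp only [mul_one, one_smul] at this
  linarith

theorem sl_int (g : G) (p t : ℝ) (n : ℤ) : sl g (p + n) (t + n) = sl g p t := by
  by_cases h : t = p
  · rw [h, sl_same, sl_same, D_int]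
  · rw [sl_ne g h, sl_ne g (fun e => h (add_right_cancel e)), act_int, act_int,
      add_sub_add_right_eq_sub, add_sub_add_right_eq_sub]

theorem Xr_int (g : G) (p p' t1 t2 : ℝ) (n : ℤ) :
    Xr g (p + n) (p' + n) (t1 + n) (t2 + n) = Xr g p p' t1 t2 := by
  simp only [Xr, Fl, sl_int]

theorem cross (g : G) {p a b q : ℝ} (h1 : p < a) (h2 : a < b) (h3 : b < q) :
    (g • b - g • a) * (g • q - g • p) * ((a - p) * (q - b)) =
      Real.exp (Xr g a q p b) * ((b - a) * (q - p)) * ((g • a - g • p) * (g • q - g • b)) := by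
  have e1 := sub_ne_zero.2 ((act_lt g).2 h1).ne
  have e3 := sub_ne_zero.2 ((act_lt g).2 h3).ne
  have e4 := sub_ne_zero.2 h1.ne
  have e5 := sub_ne_zero.2 h2.ne'
  have e6 := sub_ne_zero.2 h3.ne
  have e7 := sub_ne_zero.2 (h1.trans (h2.trans h3)).ne
  rw [exp_Xr, sl_ne g h2.ne', sl_ne g (h1.trans (h2.trans h3)).ne, sl_ne g h1.ne, sl_ne g h3.ne]
  field_simp
  ring

theorem act_le_one (g : G) {a b : ℝ} (h : b ≤ a + 1) : g • b ≤ g • a + 1 := by
  rw [← SmoothAct.per]; exact (act_le g).2 h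

/-- Admissible positions of four points in an interval. -/
def Ord4 (lo hi p p' t1 t2 : ℝ) : Prop :=
  lo ≤ p ∧ p ≤ hi ∧ lo ≤ p' ∧ p' ≤ hi ∧ lo ≤ t1 ∧ t1 ≤ t2 ∧ t2 ≤ hi ∧ (p ≤ t1 ∨ t2 ≤ p) ∧
    (p' ≤ t1 ∨ t2 ≤ p')

theorem Ord4.act {lo hi p p' t1 t2 : ℝ} (h : Ord4 lo hi p p' t1 t2) (g : G) :
    Ord4 (g • lo) (g • hi) (g • p) (g • p') (g • t1) (g • t2) := by
  simpa only [Ord4, act_le] using h

/-- The key quantity of `s` is at most `σ` at scale `ρ`. -/
def Ky (s : G) (σ ρ : ℝ) : Prop := ∀ p t : ℝ, p ≠ t → |t - p| ≤ ρ → |key s p t| ≤ σ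

theorem Ky.cr {s : G} {σ ρ : ℝ} (hs : Ky s σ ρ) {lo hi p p' t1 t2 : ℝ}
    (h : Ord4 lo hi p p' t1 t2) (hl : hi - lo ≤ ρ) : |Xr s p p' t1 t2| ≤ 2 * σ * (t2 - t1) := by
  obtain ⟨a1, a2, a3, a4, a5, a6, a7, a8, a9⟩ := h
  rcases a6.eq_or_lt with e | e
  · subst e; unfold Xr; simp
  · obtain ⟨c, hc, e2⟩ := exists_hasDerivAt_eq_slope (fun t => Fl s p t - Fl s p' t)
      (fun t => (D s t / (s • t - s • p) - 1 / (t - p)) - (D s t / (s • t - s • p') - 1 / (t - p')))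
      e ((cont_Fl s p).sub (cont_Fl s p')).continuousOn (fun t ht =>
        (hasD_Fl s (by rcases a8 with a | a <;> intro b <;> linarith [ht.1, ht.2])).sub
          (hasD_Fl s (by rcases a9 with a | a <;> intro b <;> linarith [ht.1, ht.2])))
    have bd : ∀ q, lo ≤ q → q ≤ hi → (q ≤ t1 ∨ t2 ≤ q) → |key s q c| ≤ σ := by
      intro q b1 b2 b3
      have b4 : |c - q| ≤ hi - lo := by rw [abs_le]; constructor <;> linarith [hc.1, hc.2]
      exact hs q c (by rcases b3 with a | a <;> intro b <;> linarith [hc.1, hc.2]) (b4.trans hl)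
    have b1 := bd p a1 a2 a8
    have b2 := bd p' a3 a4 a9
    have e3 : Xr s p p' t1 t2 = (key s p c - key s p' c) * (t2 - t1) := by
      rw [eq_div_iff (sub_pos.2 e).ne'] at e2
      unfold Xr key; linarith
    rw [e3, abs_mul, abs_of_pos (sub_pos.2 e)]
    refine mul_le_mul_of_nonneg_right ((abs_sub _ _).trans ?_) (sub_pos.2 e).le
    linarith

end

section

open Set Filter Topology
open scoped Pointwise

variable {G : Type} [Group G]

variable [MulAction G ℝ]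

/-- A finite symmetric generating set with uniform second order bounds. -/
structure Gen (G : Type) [Group G] [MulAction G ℝ] where
  S : Finset G
  one_mem : 1 ∈ S
  inv : ∀ s ∈ S, s⁻¹ ∈ S
  gen : ∀ g : G, ∃ n : ℕ, g ∈ (S : Set G) ^ n
  C : ℝ
  C_pos : 1 ≤ C
  ky : ∀ s ∈ S, Ky s C 1
  ky0 : ∀ σ > 0, ∃ ρ > 0, ρ ≤ 1 ∧ ∀ s ∈ S, Ky s σ ρ
  Nb : ∀ s ∈ S, ∀ x, |Nl s x| ≤ C
  lip : ∀ s ∈ S, GLip C s
  Dle : ∀ s ∈ S, ∀ x, D s x ≤ C

/-- Every interval meeting the Cantor set contains a gap that can be made long. -/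
def Exp (A : Cantor G) (δ : ℝ) : Prop :=
  ∀ u v : ℝ, (∃ w ∈ A.Λ, u < w ∧ w < v) →
    ∃ p ∈ LE A.Λ, u < p ∧ nxt A.Λ p < v ∧ ∃ g : G, δ ≤ A.len (g • p)

/-- Every interval with end points in the Cantor set contains a gap of cross ratio at least `c`. -/
def Thick (A : Cantor G) (c : ℝ) : Prop :=
  ∀ p ∈ A.Λ, ∀ q ∈ A.Λ, (∃ w ∈ A.Λ, p < w ∧ w < q) → q ≤ p + 1 →
    ∃ j ∈ LE A.Λ, p ≤ j ∧ nxt A.Λ j ≤ q ∧ c * ((j - p) * (q - nxt A.Λ j)) ≤ A.len j * (q - p)

variable [SmoothAct G]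

theorem exists_gen (S : Finset G) (h1 : 1 ∈ S) (hinv : ∀ s ∈ S, s⁻¹ ∈ S)
    (hgen : ∀ g : G, ∃ n : ℕ, g ∈ (S : Set G) ^ n) : ∃ Γ : Gen G, Γ.S = S := by
  obtain ⟨L, L1, hL⟩ := finite_bounds (S : Set G) S.finite_toSet
  obtain ⟨C, hC⟩ := fin_max (S : Set G) S.finite_toSet (P := fun g (C : ℝ) => L ≤ C ∧
      Ky g C 1 ∧ ∀ x, |Nl g x| ≤ C)
    (fun g κ κ' a b => ⟨b.1.trans a, fun p t c d => (b.2.1 p t c d).trans a,
      fun x => (b.2.2 x).trans a⟩) (fun g hg => by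
      obtain ⟨C1, a⟩ := key_bdd g
      obtain ⟨C2, -, b⟩ := Nl_bdd g
      exact ⟨max L (max C1 C2), le_max_left _ _, fun p t c d => (a p t c d).trans (by simp),
        fun x => (b x).trans (by simp)⟩)
  refine ⟨⟨S, h1, hinv, hgen, C, L1.trans (hC 1 h1).1, fun s hs => (hC s hs).2.1,
    fun σ hσ => ?_, fun s hs => (hC s hs).2.2, fun s hs => (hL s hs).1.mono (hC s hs).1,
    fun s hs x => ((hL s hs).2 x).1.trans (hC s hs).1⟩, rfl⟩
  · obtain ⟨ρ, r0, hρ⟩ := fin_min (S : Set G) S.finite_toSet (P := fun g ρ => Ky g σ ρ)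
      (fun g κ κ' _ b c p t d e => c p t d (e.trans b)) fun g _ => key_small g hσ
    exact ⟨min ρ 1, lt_min r0 one_pos, min_le_right _ _,
      fun s hs p t d e => hρ s hs p t d (e.trans (min_le_left _ _))⟩


end

end Pool.Agent.Lib.MP_173a7e_an.C2
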