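import Pool.Agent.Lib.MP_173a7e_an.C2.Frm

/-! Geometry of one frame and of one step. -/

set_option autoImplicit false
set_option linter.unusedVariables false

namespace Pool.Agent.Lib.MP_173a7e_an.C2

open Set Filter Topology

theorem blkA_lt {Y L W A : ℝ} (hY : 1 < Y) (hL : 0 < L) (hW : 0 < W)
    (H : Y * (A * (L + W)) ≤ L * (W + A)) : A < L := by
  by_contra c
  push Not at c
  have a1 : 0 < A * (L + W) := mul_pos (by linarith) (by linarith)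
  have a2 := mul_lt_mul_of_pos_right hY a1
  have a3 := mul_le_mul_of_nonneg_right c hW.le
  nlinarith

theorem blkA_geo {y L W A : ℝ} (y0 : 0 < y) (y1 : y ≤ 1) (hL : 0 < L) (hW : 0 < W) (hA : 0 ≤ A)
    (H : (1 + y) * (A * (L + W)) ≤ L * (W + A)) :
    A < L ∧ L * y / 2 ≤ L - A ∧ y * A ≤ L ∧ y * A ≤ W := by
  have a0 := blkA_lt (by linarith) hL hW H
  have hT : 0 < L + W := by linarith
  have a1 : y * A * (L + W) ≤ L * W := by nlinarith [mul_nonneg hA hW.le]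
  have a2 : (1 + y) * A ≤ L := le_of_mul_le_mul_right (by nlinarith) hT
  refine ⟨a0, by nlinarith, by nlinarith, le_of_mul_le_mul_right ?_ hT⟩
  nlinarith [mul_pos hW hW]

theorem blkA_max {L R l : ℝ} (hL : 0 < L) (hR : 0 < R) (h1 : l ≤ L) (h2 : l ≤ R) :
    min L R * (L + l + R) ≤ 3 * (L * R) := by
  rcases le_total L R with c | c
  · rw [min_eq_left c]; nlinarith
  · rw [min_eq_right c]; nlinarith

theorem blkA_max' {L R l : ℝ} (hL : 0 < L) (hR : 0 < R) (h1 : 0 ≤ l) :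
    L * R ≤ min L R * (L + l + R) := by
  rcases le_total L R with c | c
  · rw [min_eq_left c]; nlinarith
  · rw [min_eq_right c]; nlinarith

/-- Shrinking the cell, lower bound. -/
theorem blkA_ml {Y E L R L' R' l A : ℝ} (hE : 0 < E) (hL : 0 < L) (hR : 0 < R) (hL' : 0 < L')
    (hRR : R ≤ R') (hl : 0 ≤ l) (hA : 0 ≤ A) (hY : 0 ≤ Y)
    (hg : (L + l + R) * (L' * R') ≤ E * ((L' + l + R') * (L * R)))
    (H : Y * (A * (L' + l + R')) ≤ L' * (R' + l + A)) :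
    Y * (A * (L + l + R)) ≤ E * (L * (R + l + A)) := by
  have hR' : 0 < R' := by linarith
  refine le_of_mul_le_mul_right ?_ (mul_pos hL' hR')
  have a1 := mul_le_mul_of_nonneg_left hg (mul_nonneg hY hA)
  have a2 := mul_le_mul_of_nonneg_left H (show 0 ≤ E * (L * R) by positivity)
  have a3 : (R' + l + A) * R ≤ (R + l + A) * R' := by
    nlinarith [mul_le_mul_of_nonneg_left hRR (add_nonneg hl hA)]
  have a4 := mul_le_mul_of_nonneg_left a3 (show 0 ≤ E * (L * L') by positivity)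
  calc _ = Y * A * ((L + l + R) * (L' * R')) := by ring
    _ ≤ Y * A * (E * ((L' + l + R') * (L * R))) := a1
    _ = E * (L * R) * (Y * (A * (L' + l + R'))) := by ring
    _ ≤ E * (L * R) * (L' * (R' + l + A)) := a2
    _ = E * (L * L') * ((R' + l + A) * R) := by ring
    _ ≤ E * (L * L') * ((R + l + A) * R') := a4
    _ = _ := by ring

/-- Shrinking the cell, upper bound. -/
theorem blkA_mu {Y L W L' W' A : ℝ} (hW : 0 < W) (hLL : L ≤ L') (hWW : W ≤ W') (hA : 0 ≤ A)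
    (hAL : A ≤ L) (hL : 0 < L) (H : L' * (W' + A) ≤ Y * (A * (L' + W'))) :
    L * (W + A) ≤ Y * (A * (L + W)) := by
  have hT : 0 < L' + W' := by linarith
  refine le_of_mul_le_mul_right ?_ hT
  have a2 := mul_le_mul_of_nonneg_right H (show 0 ≤ L + W by linarith)
  have a3 : L * (L' + W) ≤ L' * (L + W) := by nlinarith
  have a4 : (W + A) * (L' + W') ≤ (W' + A) * (L' + W) := by nlinarith
  have a5 : L * (W + A) * (L' + W') ≤ L' * (W' + A) * (L + W) := by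
    calc _ = L * ((W + A) * (L' + W')) := by ring
      _ ≤ L * ((W' + A) * (L' + W)) := mul_le_mul_of_nonneg_left a4 hL.le
      _ = (W' + A) * (L * (L' + W)) := by ring
      _ ≤ (W' + A) * (L' * (L + W)) := mul_le_mul_of_nonneg_left a3 (by linarith)
      _ = _ := by ring
  calc _ ≤ _ := a5
    _ ≤ _ := a2
    _ = _ := by ring

/-- Shrinking the cell, potential. -/
theorem blkA_ph {α β α' β' lam : ℝ} (h0 : 0 < lam) (a0 : 0 ≤ α) (b0 : 0 ≤ β) (a1 : α ≤ α')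
    (b1 : β ≤ β') :
    (α' + lam + β') * ((α + lam) * (β + lam)) ≤ (α + lam + β) * ((α' + lam) * (β' + lam)) := by
  obtain ⟨d, hd, rfl⟩ : ∃ d, 0 ≤ d ∧ α' = α + d := ⟨α' - α, by linarith, by ring⟩
  obtain ⟨e, he, rfl⟩ : ∃ e, 0 ≤ e ∧ β' = β + e := ⟨β' - β, by linarith, by ring⟩
  have : (α + lam + β) * ((α + d + lam) * (β + e + lam)) -
      (α + d + lam + (β + e)) * ((α + lam) * (β + lam)) =
      d * β * (β + lam) + e * α * (α + lam) + d * e * (α + lam + β) := by ring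
  have p : 0 ≤ d * β * (β + lam) + e * α * (α + lam) + d * e * (α + lam + β) := by positivity
  linarith

namespace BD

variable {B : BD} {C σ ζ η ρ : ℝ}

theorem blkA_q (t : ℕ) (x : ℝ) : B.q t - B.γ t x = B.R t + B.l t + (B.a t - B.γ t x) := by
  unfold R l; ring

theorem blkA_A {t : ℕ} {x : ℝ} (h : x ≤ B.a0) : 0 ≤ B.a t - B.γ t x :=
  sub_nonneg.2 ((B.γ t).monotone h)

theorem Ok.ml_anti (h : B.Ok C σ ζ η ρ) {t : ℕ} (ht : t ≤ B.n) {Y Y' x : ℝ} (H : B.ML t Y x)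
    (hY : Y' ≤ Y) : B.ML t Y' x := by
  obtain ⟨p1, p2, p3, -⟩ := h.pos ht
  refine ⟨H.1, le_trans (mul_le_mul_of_nonneg_right hY (mul_nonneg (blkA_A H.1) ?_)) H.2⟩
  rw [T_eq]; linarith

theorem Ok.ml_right (h : B.Ok C σ ζ η ρ) {t : ℕ} (ht : t ≤ B.n) {Y x x' : ℝ} (H : B.ML t Y x)
    (hY : 1 ≤ Y) (h1 : x ≤ x') (h2 : x' ≤ B.a0) : B.ML t Y x' := by
  obtain ⟨p1, p2, p3, -⟩ := h.pos ht
  refine ⟨h2, ?_⟩
  have a := H.2
  have d : 0 ≤ B.γ t x' - B.γ t x := sub_nonneg.2 ((B.γ t).monotone h1)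
  have e : B.L t ≤ Y * B.T t := by rw [T_eq]; nlinarith
  have f := mul_le_mul_of_nonneg_right e d
  nlinarith

theorem Ok.blkA_geo (h : B.Ok C σ ζ η ρ) {t : ℕ} (ht : t ≤ B.n) {y x : ℝ} (y0 : 0 < y)
    (y1 : y ≤ 1) (H : B.ML t (1 + y) x) :
    B.a t - B.γ t x < B.L t ∧ B.L t * y / 2 ≤ B.L t - (B.a t - B.γ t x) ∧
      y * (B.a t - B.γ t x) ≤ B.L t ∧ y * (B.a t - B.γ t x) ≤ B.R t + B.l t := by
  obtain ⟨p1, p2, p3, -⟩ := h.pos ht
  refine C2.blkA_geo y0 y1 p1 (by linarith) (blkA_A H.1) ?_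
  have a := H.2
  rw [blkA_q, T_eq] at a
  linarith [a]

theorem Ok.ml_geo (h : B.Ok C σ ζ η ρ) {t : ℕ} (ht : t ≤ B.n) {y x : ℝ} (y0 : 0 < y) (y1 : y ≤ 1)
    (H : B.ML t (1 + y) x) :
    B.P t < x ∧ B.L t * y / 2 ≤ B.γ t x - B.p t ∧ B.a t - B.γ t x ≤ 2 * B.m t / y := by
  obtain ⟨p1, p2, p3, -⟩ := h.pos ht
  obtain ⟨a1, a2, a3, a4⟩ := h.blkA_geo ht y0 y1 H
  have e : B.L t = B.a t - B.p t := rfl
  refine ⟨(B.γ t).lt_iff_lt.1 (show B.p t < _ by linarith), by linarith, ?_⟩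
  rw [le_div_iff₀ y0]
  have := (h.thin t ht).2
  unfold m
  rcases le_total (B.L t) (B.R t) with c | c
  · rw [min_eq_left c]; linarith
  · rw [min_eq_right c]; linarith

theorem Ok.mu_geo (h : B.Ok C σ ζ η ρ) {t : ℕ} (ht : t ≤ B.n) {Y x : ℝ} (h1 : B.P t ≤ x)
    (h2 : x ≤ B.a0) (H : B.MU t Y x) : B.m t ≤ 3 * Y * (B.a t - B.γ t x) := by
  obtain ⟨p1, p2, p3, -⟩ := h.pos ht
  have a := blkA_max p1 p3 (h.thin t ht).1 (h.thin t ht).2
  have hA := blkA_A (t := t) h2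
  unfold MU at H
  rw [blkA_q, T_eq] at H
  refine le_of_mul_le_mul_right ?_ (show 0 < B.L t + B.l t + B.R t by linarith)
  unfold m
  nlinarith [mul_nonneg p1.le (add_nonneg p2.le hA)]

theorem Ok.ph_geo (h : B.Ok C σ ζ η ρ) {t : ℕ} (ht : t ≤ B.n) {y : ℝ} (y0 : 0 < y) (y1 : y ≤ 1)
    {K : ℝ × ℝ} (H : B.ML t (1 + y) K.1) (h1 : K.1 < K.2) (h2 : K.2 ≤ B.a0) :
    B.ph t K * (y * B.m t / 6) ≤ B.γ t K.2 - B.γ t K.1 ∧
      (B.γ t K.2 - B.γ t K.1) * (y / (4 * B.m t)) ≤ B.ph t K ∧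
      B.γ t K.2 - B.γ t K.1 ≤ B.ph t K := by
  obtain ⟨p1, p2, p3, p4, -, -, -, p8, -⟩ := h.pos ht
  obtain ⟨a1, a2, a3, a4⟩ := h.blkA_geo ht y0 y1 H
  have b1 := blkA_max p1 p3 (h.thin t ht).1 (h.thin t ht).2
  have b2 := blkA_max' p1 p3 p2.le
  have b3 := (h.thin t ht).2
  have hA := blkA_A (t := t) H.1
  have hA2 := blkA_A (t := t) h2
  have l0 : 0 < B.γ t K.2 - B.γ t K.1 := sub_pos.2 ((B.γ t).lt_iff_lt.2 h1)
  have e : B.L t = B.a t - B.p t := rfl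
  have em : min (B.L t) (B.R t) = B.m t := rfl
  rw [em] at b1 b2
  unfold ph
  rw [blkA_q, T_eq]
  have u1 : B.L t * y / 2 ≤ B.γ t K.2 - B.p t := by linarith
  have u2 : B.γ t K.2 - B.p t ≤ B.L t := by linarith
  generalize B.γ t K.2 - B.p t = U at *
  generalize B.γ t K.2 - B.γ t K.1 = lam at *
  generalize B.a t - B.γ t K.1 = A at *
  clear e em
  generalize B.L t = L at *
  generalize B.R t = R at *
  generalize B.l t = l at *
  generalize B.m t = m at *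
  have U0 : 0 < U := lt_of_lt_of_le (by positivity) u1
  have W0 : 0 < R + l + A := by linarith
  have D0 := mul_pos U0 W0
  refine ⟨?_, ?_, ?_⟩
  · rw [div_mul_eq_mul_div, div_le_iff₀ D0, mul_assoc]
    refine mul_le_mul_of_nonneg_left ?_ l0.le
    have c1 : L * y / 2 * R ≤ U * (R + l + A) := mul_le_mul u1 (by linarith) p3.le U0.le
    nlinarith [mul_le_mul_of_nonneg_left b1 y0.le]
  · rw [le_div_iff₀ D0, mul_assoc]
    refine mul_le_mul_of_nonneg_left ?_ l0.le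
    rw [div_mul_eq_mul_div, div_le_iff₀ (by positivity)]
    have c1 : y * (R + l + A) ≤ 4 * R := by nlinarith
    have c2 : U * (y * (R + l + A)) ≤ L * (4 * R) := mul_le_mul u2 c1 (by positivity) p1.le
    nlinarith
  · rw [le_div_iff₀ D0]
    refine mul_le_mul_of_nonneg_left ?_ l0.le
    have c1 : U * (R + l + A) ≤ 1 * (L + l + R) :=
      mul_le_mul (by linarith) (by linarith) W0.le zero_le_one
    linarith

theorem Ok.blkA_cost (h : B.Ok C σ ζ η ρ) {t : ℕ} (ht : t < B.n) {y : ℝ} (y0 : 0 < y) (y1 : y ≤ 1)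
    {d : ℝ} (hd : d ≤ 4 * B.m t / y) : B.g t + 2 * σ * d ≤ B.cost σ y t := by
  have := mul_le_mul_of_nonneg_left hd (show 0 ≤ 2 * σ by linarith [h.σ0])
  have e : 2 * σ * (4 * B.m t / y) = 8 * σ * B.m t / y := by ring
  unfold cost; linarith

/-- The lower bound after shrinking the cell. -/
theorem Ok.blkA_shrink (h : B.Ok C σ ζ η ρ) {t : ℕ} (ht : t < B.n) {y Y x : ℝ} (y0 : 0 < y)
    (y1 : y ≤ 1) (H : B.ML (t + 1) Y x) (hY : (1 + y) * Real.exp (B.cost σ y t) ≤ Y) :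
    B.P t < x ∧ Y * ((B.a (t + 1) - B.γ (t + 1) x) *
        (B.γ (t + 1) (B.Q t) - B.γ (t + 1) (B.P t))) ≤ Real.exp (B.g t) *
      ((B.a (t + 1) - B.γ (t + 1) (B.P t)) * (B.γ (t + 1) (B.Q t) - B.γ (t + 1) x)) := by
  obtain ⟨p1, p2, p3, -⟩ := h.pos (show t + 1 ≤ B.n from ht)
  obtain ⟨o1, o2, o3⟩ := h.ord t ht.le
  obtain ⟨n1, n2⟩ := h.nest t ht
  have m0 := (h.pos ht.le).2.2.2.1
  have hL : 0 < B.a (t + 1) - B.γ (t + 1) (B.P t) := sub_pos.2 ((B.γ _).lt_iff_lt.2 o1)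
  have hR : 0 < B.γ (t + 1) (B.Q t) - B.b (t + 1) := sub_pos.2 ((B.γ _).lt_iff_lt.2 o3)
  have hRR : B.γ (t + 1) (B.Q t) - B.b (t + 1) ≤ B.R (t + 1) :=
    sub_le_sub_right ((B.γ _).monotone n2) _
  have c1 : B.g t ≤ B.cost σ y t := by
    have := h.blkA_cost ht y0 y1 (d := 0) (by positivity)
    linarith
  have c2 := Real.exp_le_exp.2 c1
  have E0 := Real.exp_pos (B.g t)
  have Y0 : Real.exp (B.g t) < Y := by nlinarith [Real.exp_pos (B.cost σ y t)]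
  have hg := h.gain t ht
  have a := H.2
  have el : B.l (t + 1) = B.b (t + 1) - B.a (t + 1) := rfl
  rw [blkA_q, T_eq] at a
  rw [T_eq, show B.γ (t + 1) (B.Q t) - B.γ (t + 1) (B.P t) = (B.a (t + 1) - B.γ (t + 1) (B.P t)) +
    B.l (t + 1) + (B.γ (t + 1) (B.Q t) - B.b (t + 1)) by rw [el]; ring] at hg
  have k := blkA_ml E0 hL hR p1 hRR p2.le (blkA_A H.1) (by linarith) hg a
  constructor
  · have k2 := blkA_lt (Y := Y / Real.exp (B.g t)) (A := B.a (t + 1) - B.γ (t + 1) x)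
      ((one_lt_div E0).2 Y0) hL (add_pos hR p2) (by
        rw [div_mul_eq_mul_div, div_le_iff₀ E0]
        linarith [k])
    exact (B.γ (t + 1)).lt_iff_lt.1 (by linarith)
  · convert k using 3 <;> rw [el] <;> ring

theorem Ok.blkA_min (h : B.Ok C σ ζ η ρ) {t : ℕ} (ht : t ≤ B.n) {y x : ℝ} (y0 : 0 < y) (y1 : y ≤ 1)
    (hx : x ≤ B.a0) : min (B.γ t x - B.γ t (B.P t)) (B.γ t (B.Q t) - B.γ t B.a0) ≤ 4 * B.m t / y := by
  obtain ⟨p1, p2, p3, p4, -⟩ := h.pos ht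
  have a1 : B.γ t x - B.γ t (B.P t) ≤ B.L t := sub_le_sub_right ((B.γ t).monotone hx) _
  have a2 : B.γ t (B.Q t) - B.γ t B.a0 = B.R t + B.l t := by unfold R l q b a; ring
  have a3 := (h.thin t ht).2
  have a4 : 2 * B.m t ≤ 4 * B.m t / y := by rw [le_div_iff₀ y0]; nlinarith
  refine le_trans ?_ a4
  unfold m
  rcases le_total (B.L t) (B.R t) with c | c
  · rw [min_eq_left c]; linarith [min_le_left (B.γ t x - B.γ t (B.P t))
      (B.γ t (B.Q t) - B.γ t B.a0)]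
  · rw [min_eq_right c]; linarith [min_le_right (B.γ t x - B.γ t (B.P t))
      (B.γ t (B.Q t) - B.γ t B.a0)]

theorem Ok.ml_step (h : B.Ok C σ ζ η ρ) {t : ℕ} (ht : t < B.n) {y Y x : ℝ} (y0 : 0 < y)
    (y1 : y ≤ 1) (H : B.ML (t + 1) Y x) (hY : (1 + y) * Real.exp (B.cost σ y t) ≤ Y) :
    B.ML t (Y * Real.exp (-B.cost σ y t)) x := by
  obtain ⟨k1, k2⟩ := h.blkA_shrink ht y0 y1 H hY
  obtain ⟨o1, o2, o3⟩ := h.ord t ht.le
  obtain ⟨p1, p2, p3, -⟩ := h.pos ht.le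
  have hA := blkA_A (t := t) H.1
  have N0 : 0 ≤ B.L t * (B.q t - B.γ t x) := by rw [blkA_q]; positivity
  refine ⟨H.1, ?_⟩
  rcases H.1.eq_or_lt with e | e
  · rw [e] at N0 ⊢
    rw [show B.a t - B.γ t B.a0 = 0 from sub_self _, zero_mul, mul_zero]
    exact N0
  have c := (h.cr t ht _ _ _ _ le_rfl k1.le H.1 (o2.trans o3).le le_rfl).1
  have c1 := Real.exp_le_exp.2 (h.blkA_cost ht y0 y1 (h.blkA_min ht.le y0 y1 H.1))
  rw [Real.exp_add] at c1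
  have X0 : 0 < (B.γ (t + 1) B.a0 - B.γ (t + 1) x) * (B.γ (t + 1) (B.Q t) - B.γ (t + 1) (B.P t)) :=
    mul_pos (sub_pos.2 ((B.γ _).lt_iff_lt.2 e))
      (sub_pos.2 ((B.γ _).lt_iff_lt.2 (o1.trans (o2.trans o3))))
  have X1 : 0 ≤ (B.a t - B.γ t x) * B.T t := mul_nonneg hA (by rw [T_eq]; linarith)
  change _ * ((B.a t - B.γ t x) * B.T t) ≤ _ * (B.L t * (B.q t - B.γ t x) * _) at c
  change Y * ((B.γ (t + 1) B.a0 - _) * _) ≤ _ * ((B.γ (t + 1) B.a0 - _) * _) at k2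
  rw [Real.exp_neg, mul_right_comm, ← div_eq_mul_inv, div_le_iff₀ (Real.exp_pos _)]
  have E0 := Real.exp_pos (B.g t)
  generalize (B.γ (t + 1) B.a0 - B.γ (t + 1) x) * (B.γ (t + 1) (B.Q t) - B.γ (t + 1) (B.P t)) =
    X' at *
  generalize (B.γ (t + 1) B.a0 - B.γ (t + 1) (B.P t)) * (B.γ (t + 1) (B.Q t) - B.γ (t + 1) x) =
    N' at *
  generalize (B.a t - B.γ t x) * B.T t = X at *
  generalize B.L t * (B.q t - B.γ t x) = N at *
  refine le_of_mul_le_mul_right ?_ X0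
  have d1 := mul_le_mul_of_nonneg_right k2 X1
  have d2 := mul_le_mul_of_nonneg_left c E0.le
  have d3 := mul_le_mul_of_nonneg_right c1 (mul_nonneg N0 X0.le)
  nlinarith

theorem Ok.mu_step (h : B.Ok C σ ζ η ρ) {t : ℕ} (ht : t < B.n) {y Y Y' x : ℝ} (y0 : 0 < y)
    (y1 : y ≤ 1) (H : B.ML (t + 1) Y x) (hY : (1 + y) * Real.exp (B.cost σ y t) ≤ Y)
    (H' : B.MU (t + 1) Y' x) : B.MU t (Y' * Real.exp (B.cost σ y t)) x := by
  obtain ⟨k1, -⟩ := h.blkA_shrink ht y0 y1 H hY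
  obtain ⟨o1, o2, o3⟩ := h.ord t ht.le
  obtain ⟨n1, n2⟩ := h.nest t ht
  obtain ⟨p1, p2, p3, -⟩ := h.pos ht.le
  obtain ⟨r1, r2, r3, -⟩ := h.pos (show t + 1 ≤ B.n from ht)
  have hA := blkA_A (t := t) H.1
  have hA' := blkA_A (t := t + 1) H.1
  unfold MU at H' ⊢
  have N1 : 0 < B.L (t + 1) * (B.q (t + 1) - B.γ (t + 1) x) := by rw [blkA_q]; positivity
  have T1 : 0 < B.T (t + 1) := by rw [T_eq]; linarith
  have e : 0 < B.a (t + 1) - B.γ (t + 1) x := lt_of_le_of_ne hA' fun e => by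
    rw [← e] at H'; linarith
  have Y0 : 0 ≤ Y' := ((mul_pos_iff_of_pos_right (mul_pos e T1)).1 (N1.trans_le H')).le
  have k2 := blkA_mu (Y := Y') (L := B.a (t + 1) - B.γ (t + 1) (B.P t))
    (W := B.γ (t + 1) (B.Q t) - B.a (t + 1)) (L' := B.L (t + 1)) (W' := B.R (t + 1) + B.l (t + 1))
    (A := B.a (t + 1) - B.γ (t + 1) x) (sub_pos.2 ((B.γ _).lt_iff_lt.2 (o2.trans o3)))
    (sub_le_sub_left ((B.γ _).monotone n1) _)
    (by have := (B.γ (t + 1)).monotone n2; unfold R l q; linarith) hA'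
    (sub_le_sub_left ((B.γ _).monotone k1.le) _) (sub_pos.2 ((B.γ _).lt_iff_lt.2 o1))
    (by rw [blkA_q, T_eq] at H'; linarith [H'])
  rw [sub_add_sub_cancel, sub_add_sub_cancel'] at k2
  have c := (h.cr t ht _ _ _ _ le_rfl k1.le H.1 (o2.trans o3).le le_rfl).2
  have c1 := Real.exp_le_exp.2 ((le_add_of_nonneg_left (h.g0 t ht)).trans
    (h.blkA_cost ht y0 y1 (h.blkA_min ht.le y0 y1 H.1)))
  have X0 : 0 < (B.γ (t + 1) B.a0 - B.γ (t + 1) x) * (B.γ (t + 1) (B.Q t) - B.γ (t + 1) (B.P t)) :=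
    mul_pos e (sub_pos.2 ((B.γ _).lt_iff_lt.2 (o1.trans (o2.trans o3))))
  have X1 : 0 ≤ (B.a t - B.γ t x) * B.T t := mul_nonneg hA (by rw [T_eq]; linarith)
  change B.L t * (B.q t - B.γ t x) * _ ≤ _ * (_ * ((B.a t - B.γ t x) * B.T t)) at c
  change (B.γ (t + 1) B.a0 - _) * _ ≤ Y' * ((B.γ (t + 1) B.a0 - _) * _) at k2
  have E0 := (Real.exp_pos (2 * σ * min (B.γ t x - B.γ t (B.P t))
    (B.γ t (B.Q t) - B.γ t B.a0))).le
  generalize Real.exp (2 * σ * min (B.γ t x - B.γ t (B.P t)) (B.γ t (B.Q t) - B.γ t B.a0)) = E at *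
  generalize (B.γ (t + 1) B.a0 - B.γ (t + 1) x) * (B.γ (t + 1) (B.Q t) - B.γ (t + 1) (B.P t)) =
    X' at *
  generalize (B.γ (t + 1) B.a0 - B.γ (t + 1) (B.P t)) * (B.γ (t + 1) (B.Q t) - B.γ (t + 1) x) =
    N' at *
  generalize (B.a t - B.γ t x) * B.T t = X at *
  generalize B.L t * (B.q t - B.γ t x) = N at *
  refine le_of_mul_le_mul_right ?_ X0
  have d1 := mul_le_mul_of_nonneg_left (mul_le_mul_of_nonneg_right k2 X1) E0
  have d3 := mul_le_mul_of_nonneg_right c1 (mul_nonneg (mul_nonneg Y0 X0.le) X1)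
  nlinarith

theorem Ok.ph_step (h : B.Ok C σ ζ η ρ) {t : ℕ} (ht : t < B.n) {y Y : ℝ} (y0 : 0 < y)
    (y1 : y ≤ 1) {K : ℝ × ℝ} (H : B.ML (t + 1) Y K.1)
    (hY : (1 + y) * Real.exp (B.cost σ y t) ≤ Y) (h1 : K.1 < K.2) (h2 : K.2 ≤ B.a0) :
    B.ph (t + 1) K * Real.exp (-B.cost σ y t) ≤ B.ph t K := by
  obtain ⟨o1, o2, o3⟩ := h.ord t ht.le
  obtain ⟨n1, n2⟩ := h.nest t ht
  obtain ⟨p1, p2, p3, p4, -⟩ := h.pos ht.le
  have m1 : B.ML t (1 + y) K.1 := h.ml_anti ht.le (h.ml_step ht y0 y1 H hY) (by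
    rw [Real.exp_neg, ← div_eq_mul_inv, le_div_iff₀ (Real.exp_pos _)]; exact hY)
  obtain ⟨k1, -, k3⟩ := h.ml_geo ht.le y0 y1 m1
  have hQ : K.2 < B.Q t := h2.trans_lt (o2.trans o3)
  have lt : ∀ (s : ℕ) {u v : ℝ}, u < v → 0 < B.γ s v - B.γ s u := fun s u v e =>
    sub_pos.2 ((B.γ s).lt_iff_lt.2 e)
  have c := (h.cr t ht _ _ _ _ le_rfl k1.le h1.le hQ.le le_rfl).2
  have mn : min (B.γ t K.1 - B.γ t (B.P t)) (B.γ t (B.Q t) - B.γ t K.2) ≤ 4 * B.m t / y := by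
    have a1 : B.γ t K.1 - B.γ t (B.P t) ≤ B.L t := sub_le_sub_right ((B.γ t).monotone H.1) _
    have a2 := blkA_q (B := B) t K.1
    have a3 := (h.thin t ht.le).2
    have a4 : 2 * B.m t ≤ 2 * B.m t / y := by rw [le_div_iff₀ y0]; nlinarith
    have a5 := lt t h1
    have a6 : 4 * B.m t / y = 2 * B.m t / y + 2 * B.m t / y := by ring
    have a7 := min_le_left (B.γ t K.1 - B.γ t (B.P t)) (B.γ t (B.Q t) - B.γ t K.2)
    have a8 := min_le_right (B.γ t K.1 - B.γ t (B.P t)) (B.γ t (B.Q t) - B.γ t K.2)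
    have a9 : B.q t = B.γ t (B.Q t) := rfl
    rcases le_total (B.L t) (B.R t) with e | e
    · have : B.m t = B.L t := min_eq_left e
      linarith
    · have : B.m t = B.R t := min_eq_right e
      linarith
  have c1 := Real.exp_le_exp.2 ((le_add_of_nonneg_left (h.g0 t ht)).trans
    (h.blkA_cost ht y0 y1 mn))
  have s := blkA_ph (lt (t + 1) h1) (lt (t + 1) k1).le (lt (t + 1) hQ).le
    (sub_le_sub_left ((B.γ (t + 1)).monotone n1) _) (sub_le_sub_right ((B.γ (t + 1)).monotone n2) _)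
  simp only [sub_add_sub_cancel, sub_add_sub_cancel'] at s
  have D1 := mul_pos (lt (t + 1) (n1.trans_lt (k1.trans h1))) (lt (t + 1) (h1.trans (hQ.trans_le n2)))
  have D2 := mul_pos (lt (t + 1) (k1.trans h1)) (lt (t + 1) (h1.trans hQ))
  have D3 := mul_pos (lt t (k1.trans h1)) (lt t (h1.trans hQ))
  have N3 := mul_pos (lt t h1) (lt t (k1.trans (h1.trans hQ)))
  have l1 := lt (t + 1) h1
  unfold ph T p q
  rw [Real.exp_neg, ← div_eq_mul_inv, div_le_iff₀ (Real.exp_pos _)]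
  calc _ ≤ (B.γ (t + 1) K.2 - B.γ (t + 1) K.1) * (B.γ (t + 1) (B.Q t) - B.γ (t + 1) (B.P t)) /
        ((B.γ (t + 1) K.2 - B.γ (t + 1) (B.P t)) * (B.γ (t + 1) (B.Q t) - B.γ (t + 1) K.1)) := by
        rw [div_le_div_iff₀ D1 D2, mul_assoc, mul_assoc]
        exact mul_le_mul_of_nonneg_left s l1.le
    _ ≤ _ := by
        rw [div_mul_eq_mul_div, div_le_div_iff₀ D2 D3]
        have d := mul_le_mul_of_nonneg_right c1 (mul_pos D2 N3).le
        linarith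

end BD

end Pool.Agent.Lib.MP_173a7e_an.C2
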