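import Pool.Agent.Lib.MP_173a7e_an.C2.Frm

/-! Creation of a blocker. -/

set_option autoImplicit false
set_option linter.unusedVariables false

namespace Pool.Agent.Lib.MP_173a7e_an.C2

open Set Filter Topology

namespace BD

variable {B : BD} {C σ ζ η ρ : ℝ}

theorem Ok.blkB_step (h : B.Ok C σ ζ η ρ) {t : ℕ} (ht : t < B.n) {U : ℝ} (hU : 0 ≤ U)
    (H : B.T (t + 1) ≤ U * B.R (t + 1)) :
    B.T t ≤ Real.exp (C * B.T t) * Real.exp (B.g t) * U * B.R t := by
  obtain ⟨o1, o2, o3⟩ := h.ord t ht.le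
  obtain ⟨n1, n2⟩ := h.nest t ht
  obtain ⟨p1, p2, p3, -⟩ := h.pos (show t + 1 ≤ B.n from ht)
  obtain ⟨q1, q2, q3, -⟩ := h.pos ht.le
  have hg := h.gain t ht
  have hl := h.lip t ht B.b0 (B.Q t) (B.P t) (B.Q t) (by linarith) o3.le le_rfl le_rfl
    (by linarith) le_rfl
  have e1 : B.γ t (B.Q t) - B.γ t (B.P t) = B.T t := rfl
  have e2 : B.γ t (B.Q t) - B.γ t B.b0 = B.R t := rfl
  have e3 : B.γ (t + 1) B.b0 = B.b (t + 1) := rfl
  rw [e1, e2, e3] at hl
  have a1 : 0 < B.γ (t + 1) (B.Q t) - B.b (t + 1) :=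
    sub_pos.2 ((B.γ (t + 1)).lt_iff_lt.2 o3)
  have a2 : B.a (t + 1) - B.γ (t + 1) (B.P t) ≤ B.L (t + 1) := by
    have : B.γ (t + 1) (B.P (t + 1)) ≤ B.γ (t + 1) (B.P t) := (B.γ (t + 1)).le_iff_le.2 n1
    unfold L p
    linarith
  have a3 : 0 < B.a (t + 1) - B.γ (t + 1) (B.P t) :=
    sub_pos.2 ((B.γ (t + 1)).lt_iff_lt.2 o1)
  have a4 : 0 ≤ B.T (t + 1) := by rw [T_eq]; linarith
  generalize B.γ (t + 1) (B.Q t) - B.b (t + 1) = Rh at hg hl a1
  generalize B.γ (t + 1) (B.Q t) - B.γ (t + 1) (B.P t) = Th at hg hl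
  generalize B.a (t + 1) - B.γ (t + 1) (B.P t) = Lh at hg a2 a3
  have eg := Real.exp_pos (B.g t)
  have eC := Real.exp_pos (C * B.T t)
  generalize Real.exp (B.g t) = G at hg eg ⊢
  generalize Real.exp (C * B.T t) = E at hl eC ⊢
  have b1 : B.T (t + 1) * (Lh * Rh) ≤ (U * B.R (t + 1)) * (B.L (t + 1) * Rh) :=
    mul_le_mul H (mul_le_mul_of_nonneg_right a2 a1.le) (by positivity) (by positivity)
  have b2 : Th * (B.L (t + 1) * B.R (t + 1)) ≤ (G * U * Rh) * (B.L (t + 1) * B.R (t + 1)) := by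
    calc Th * (B.L (t + 1) * B.R (t + 1)) ≤ G * (B.T (t + 1) * (Lh * Rh)) := hg
      _ ≤ G * ((U * B.R (t + 1)) * (B.L (t + 1) * Rh)) := mul_le_mul_of_nonneg_left b1 eg.le
      _ = _ := by ring
  have b3 : Th ≤ G * U * Rh := le_of_mul_le_mul_right b2 (by positivity)
  have b4 : Rh * B.T t ≤ Rh * (E * G * U * B.R t) := by
    calc Rh * B.T t ≤ E * (B.R t * Th) := hl
      _ ≤ E * (B.R t * (G * U * Rh)) :=
        mul_le_mul_of_nonneg_left (mul_le_mul_of_nonneg_left b3 q3.le) eC.le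
      _ = _ := by ring
  exact le_of_mul_le_mul_left b4 a1

theorem Ok.blkB_ind (h : B.Ok C σ ζ η ρ) {k : ℕ} (hk : k ≤ B.n) (hL : B.L k ≤ B.R k) :
    ∀ d i, i + d = k → B.T i ≤
      3 * Real.exp (∑ t ∈ Finset.Ico i k, (B.g t + 3 * C * B.L t)) * B.R i := by
  intro d
  induction d with
  | zero =>
    intro i hi
    obtain rfl : i = k := by omega
    have := (h.thin i hk).2
    rw [T_eq]
    simp only [Finset.Ico_self, Finset.sum_empty, Real.exp_zero]
    linarith
  | succ d ih =>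
    intro i hi
    have hik : i < k := by omega
    have hin : i < B.n := by omega
    have hC := h.C1
    obtain ⟨q1, q2, q3, -⟩ := h.pos hin.le
    have hS : 0 ≤ ∑ t ∈ Finset.Ico i k, (B.g t + 3 * C * B.L t) := by
      refine Finset.sum_nonneg fun t ht => ?_
      have ht' : t < B.n := (Finset.mem_Ico.1 ht).2.trans_le hk
      have := h.g0 t ht'
      have := (h.pos ht'.le).1
      positivity
    rcases le_total (B.L i) (B.R i) with hc | hc
    · have h1 := Real.one_le_exp hS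
      have h2 := (h.thin i hin.le).2
      have h3 : B.T i ≤ 3 * B.R i := by rw [T_eq]; linarith
      nlinarith
    · have h2 := (h.thin i hin.le).1
      have h3 : B.T i ≤ 3 * B.L i := by rw [T_eq]; linarith
      have h4 := h.blkB_step hin (by positivity) (ih (i + 1) (by omega))
      rw [Finset.sum_eq_sum_Ico_succ_bot hik, Real.exp_add, Real.exp_add]
      have h5 : Real.exp (C * B.T i) ≤ Real.exp (3 * C * B.L i) := by
        apply Real.exp_le_exp.2
        nlinarith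
      refine h4.trans ?_
      have h6 : 0 ≤ Real.exp (B.g i) *
          (3 * Real.exp (∑ t ∈ Finset.Ico (i + 1) k, (B.g t + 3 * C * B.L t))) * B.R i := by
        positivity
      calc _ = Real.exp (C * B.T i) * (Real.exp (B.g i) *
          (3 * Real.exp (∑ t ∈ Finset.Ico (i + 1) k, (B.g t + 3 * C * B.L t))) * B.R i) := by ring
        _ ≤ Real.exp (3 * C * B.L i) * (Real.exp (B.g i) *
          (3 * Real.exp (∑ t ∈ Finset.Ico (i + 1) k, (B.g t + 3 * C * B.L t))) * B.R i) :=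
          mul_le_mul_of_nonneg_right h5 h6
        _ = _ := by ring

/-- Going back from a time with short left side, the right side stays comparable to the cell. -/
theorem Ok.bal (h : B.Ok C σ ζ η ρ) {i k : ℕ} (hik : i ≤ k) (hk : k ≤ B.n) (hL : B.L k ≤ B.R k)
    (hs : ∑ t ∈ Finset.Ico i k, B.L t ≤ 11) : B.T i ≤ cK C * B.R i := by
  have h1 := h.blkB_ind hk hL (k - i) i (by omega)
  have hC := h.C1
  have h2 : ∑ t ∈ Finset.Ico i k, B.g t ≤ ∑ t ∈ Finset.range B.n, B.g t := by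
    refine Finset.sum_le_sum_of_subset_of_nonneg ?_ fun t ht _ => h.g0 t (Finset.mem_range.1 ht)
    intro t ht
    exact Finset.mem_range.2 ((Finset.mem_Ico.1 ht).2.trans_le hk)
  have h3 : ∑ t ∈ Finset.Ico i k, (B.g t + 3 * C * B.L t) ≤ 1 + 33 * C := by
    rw [Finset.sum_add_distrib, ← Finset.mul_sum]
    have := h.gsum
    have := cc_le_one hC
    nlinarith
  have h4 := Real.exp_le_exp.2 h3
  have h5 := (h.pos (hik.trans hk)).2.2.1
  refine h1.trans ?_
  unfold cK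
  exact mul_le_mul_of_nonneg_right (by linarith) h5.le

theorem Ok.blkB_pair (h : B.Ok C σ ζ η ρ) {i j : ℕ} (hij : i < j) (hj : j ≤ B.n)
    (hi1 : B.T i ≤ cK C * B.R i) (hj1 : B.T j ≤ cK C * B.R j) (hη : η ≤ B.m i) (n : ℤ) (u : ℝ)
    (u1 : B.p i + n + B.L i / 4 ≤ u) (u2 : u < B.p i + n + B.L i / 2)
    (u3 : B.p j + B.L j / 4 ≤ u) (u4 : u < B.p j + B.L j / 2) :
    ∃ K ∈ B.Gp, K.2 ≤ B.a0 ∧ B.ML j (1 + 4 * cy C) K.1 ∧ B.MU j (cU C) K.2 ∧
        ζ * η ≤ B.γ j K.2 - B.γ j K.1 ∧ B.Rp (B.im j K) (B.τ i) := by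
  have hi : i ≤ B.n := by omega
  obtain ⟨p1, p2, p3, -⟩ := h.pos hi
  obtain ⟨q1, q2, q3, -⟩ := h.pos hj
  have t1 := (h.thin i hi).1
  have hK := cK_ge h.C1
  have ei := T_eq (B := B) i
  have ej := T_eq (B := B) j
  have dLi : B.L i = B.a i - B.p i := rfl
  have dli : B.l i = B.b i - B.a i := rfl
  have dRi : B.R i = B.q i - B.b i := rfl
  have dLj : B.L j = B.a j - B.p j := rfl
  have dlj : B.l j = B.b j - B.a j := rfl
  have dRj : B.R j = B.q j - B.b j := rfl
  have dTj : B.T j = B.q j - B.p j := rfl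
  have hin : B.q i + n ≤ B.a j := by
    rcases h.lam i j hij (by omega) n with c | c | c | c
    · linarith
    · linarith
    · exact c.2
    · linarith [c.1]
  have g1 : B.γ j ((B.γ j).symm (B.a i + n)) = B.a i + n := (B.γ j).apply_symm_apply _
  have g2 : B.γ j ((B.γ j).symm (B.b i + n)) = B.b i + n := (B.γ j).apply_symm_apply _
  have him : B.im j ((B.γ j).symm (B.a i + n), (B.γ j).symm (B.b i + n)) =
      sh (B.a i, B.b i) n := by
    unfold im sh
    simp
  have daj : B.γ j B.a0 = B.a j := rfl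
  refine ⟨((B.γ j).symm (B.a i + n), (B.γ j).symm (B.b i + n)), ?_, ?_, ⟨?_, ?_⟩, ?_, ?_, ?_⟩
  · rw [h.gp_im j hj, him]
    exact h.gp_sh _ ((h.gp_im i hi _).1 h.gp_J) n
  · refine (B.γ j).le_iff_le.1 ?_
    simp only [g2, daj]
    linarith
  · refine (B.γ j).le_iff_le.1 ?_
    simp only [g1, daj]
    linarith
  · simp only [g1]
    have x1 : B.L j / 4 ≤ B.a i + n - B.p j := by linarith
    have x2 : 0 ≤ B.a j - (B.a i + n) := by linarith
    have x3 : B.a j - (B.a i + n) ≤ 3 * (B.L j / 4) := by linarith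
    have x4 : B.T j ≤ cK C * (B.q j - B.a j) := by nlinarith
    have x5 : 0 ≤ B.T j := by linarith
    have x6 : 0 ≤ B.q j - B.a j := by linarith
    have x7 : 4 * cy C * (3 * cK C) ≤ 1 := by
      unfold cy
      rw [show 4 * (1 / (12 * (1 + cK C))) * (3 * cK C) = cK C / (1 + cK C) by field_simp; ring]
      rw [div_le_one (by linarith)]
      linarith
    have x8 := cy_pos h.C1
    have id : B.L j * (B.q j - (B.a i + n)) = (B.a j - (B.a i + n)) * B.T j +
        (B.a i + n - B.p j) * (B.q j - B.a j) := by rw [dLj, dTj]; ring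
    have y1 : (B.a j - (B.a i + n)) * B.T j ≤ (3 * (B.L j / 4)) * (cK C * (B.q j - B.a j)) :=
      mul_le_mul x3 x4 x5 (by positivity)
    have y2 : 4 * cy C * ((B.a j - (B.a i + n)) * B.T j) ≤ (B.L j / 4) * (B.q j - B.a j) := by
      calc _ ≤ 4 * cy C * ((3 * (B.L j / 4)) * (cK C * (B.q j - B.a j))) :=
            mul_le_mul_of_nonneg_left y1 (by positivity)
        _ = (4 * cy C * (3 * cK C)) * ((B.L j / 4) * (B.q j - B.a j)) := by ring
        _ ≤ 1 * ((B.L j / 4) * (B.q j - B.a j)) :=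
            mul_le_mul_of_nonneg_right x7 (by positivity)
        _ = _ := one_mul _
    have y3 : (B.L j / 4) * (B.q j - B.a j) ≤ (B.a i + n - B.p j) * (B.q j - B.a j) :=
      mul_le_mul_of_nonneg_right x1 x6
    rw [id]
    linarith
  · unfold MU
    simp only [g2]
    have x1 : B.R i ≤ B.a j - (B.b i + n) := by linarith
    have x2 : B.L i ≤ cK C * (B.a j - (B.b i + n)) := by nlinarith
    have x3 : B.b i + n - B.p j ≤ (1 + 4 * cK C) * (B.a j - (B.b i + n)) := by linarith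
    have x4 : 0 ≤ B.q j - B.a j := by linarith
    have x5 : B.q j - B.a j ≤ B.T j := by linarith
    have id : B.L j * (B.q j - (B.b i + n)) = (B.a j - (B.b i + n)) * B.T j +
        (B.b i + n - B.p j) * (B.q j - B.a j) := by rw [dLj, dTj]; ring
    have x6 : 0 ≤ (1 + 4 * cK C) * (B.a j - (B.b i + n)) :=
      mul_nonneg (by linarith) (by linarith)
    have y1 : (B.b i + n - B.p j) * (B.q j - B.a j) ≤
        ((1 + 4 * cK C) * (B.a j - (B.b i + n))) * B.T j :=
      (mul_le_mul_of_nonneg_right x3 x4).trans (mul_le_mul_of_nonneg_left x5 x6)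
    rw [id]
    unfold cU
    linarith
  · simp only [g1, g2]
    have := h.low i hi
    have := mul_le_mul_of_nonneg_left hη h.ζ0.le
    linarith
  · rw [him]
    exact h.rp_sh _ _ n (h.rpJ i hi)

theorem Ok.blocker (h : B.Ok C σ ζ η ρ) {k : ℕ} (hk : k ≤ B.n) (hL : B.L k ≤ B.R k)
    (hm : 10 ≤ B.mass 0 k) : ∃ i j, i < j ∧ j < k ∧ ∑ t ∈ Finset.Ico i k, B.L t ≤ 11 ∧
      ∃ K ∈ B.Gp, K.2 ≤ B.a0 ∧ B.ML j (1 + 4 * cy C) K.1 ∧ B.MU j (cU C) K.2 ∧
        ζ * η ≤ B.γ j K.2 - B.γ j K.1 ∧ B.Rp (B.im j K) (B.τ i) := by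
  classical
  have hK := cK_ge h.C1
  have hp : ∀ t < k, t ≤ B.n := fun t ht => by omega
  have h10 : (10 : ℝ) ≤ ∑ t ∈ Finset.range k, B.L t := by
    refine hm.trans ?_
    unfold mass
    rw [← Finset.range_eq_Ico]
    exact Finset.sum_le_sum fun t ht => min_le_left _ _
  obtain ⟨k1, hk1, c1, c2⟩ := cut B.L (k := k)
    (fun t ht => ⟨(h.pos (hp t ht)).1.le, (h.pos (hp t ht)).2.2.2.2.2.2.2.1⟩) (by norm_num) h10
  have hs : ∀ t, k1 ≤ t → ∑ s ∈ Finset.Ico t k, B.L s ≤ 11 := by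
    intro t ht
    refine le_trans ?_ (c2.trans (by norm_num))
    refine Finset.sum_le_sum_of_subset_of_nonneg (Finset.Ico_subset_Ico ht le_rfl)
      fun s hs _ => (h.pos (hp s (Finset.mem_Ico.1 hs).2)).1.le
  have hb : ∀ t, k1 ≤ t → t < k → B.T t ≤ cK C * B.R t := fun t h1 h2 =>
    h.bal h2.le hk hL (hs t h1)
  have hLm : ∀ t, k1 ≤ t → t < k → B.L t ≤ cK C * B.m t := by
    intro t h1 h2
    obtain ⟨q1, q2, q3, -⟩ := h.pos (hp t h2)
    have e := T_eq (B := B) t
    have := hb t h1 h2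
    unfold m
    rcases le_total (B.L t) (B.R t) with c | c
    · rw [min_eq_left c]; nlinarith
    · rw [min_eq_right c]; linarith
  have hirr : ∑ t ∈ (Finset.Ico k1 k).filter (fun t => B.m t < η), B.L t ≤ 1 := by
    have a1 : ∑ t ∈ (Finset.Ico k1 k).filter (fun t => B.m t < η), B.L t ≤
        cK C * ∑ t ∈ (Finset.Ico k1 k).filter (fun t => B.m t < η), B.m t := by
      rw [Finset.mul_sum]
      refine Finset.sum_le_sum fun t ht => ?_
      have := Finset.mem_Ico.1 (Finset.mem_filter.1 ht).1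
      exact hLm t this.1 this.2
    have a2 : ∑ t ∈ (Finset.Ico k1 k).filter (fun t => B.m t < η), B.m t ≤ cc C := by
      refine le_trans ?_ h.irr
      refine Finset.sum_le_sum_of_subset_of_nonneg ?_ fun t ht _ => ?_
      · intro t ht
        obtain ⟨b1, b2⟩ := Finset.mem_filter.1 ht
        exact Finset.mem_filter.2
          ⟨Finset.mem_range.2 ((Finset.mem_Ico.1 b1).2.trans_le hk), b2⟩
      · exact (h.pos (Finset.mem_range.1 (Finset.mem_filter.1 ht).1).le).2.2.2.1.le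
    have a3 : cK C * cc C ≤ 1 := by
      have := cc_le_cK (C := C)
      rwa [le_div_iff₀ (by linarith), mul_comm] at this
    have := mul_le_mul_of_nonneg_left a2 (show 0 ≤ cK C by linarith)
    linarith
  have hsplit := Finset.sum_filter_add_sum_filter_not (Finset.Ico k1 k) (fun t => B.m t < η) B.L
  have h9 : ¬ ∑ t ∈ (Finset.Ico k1 k).filter (fun t => ¬ B.m t < η), B.L t / 4 ≤ 2 := by
    rw [← Finset.sum_div]
    intro hh
    linarith
  by_contra hcon
  refine h9 (disj_sum _ (fun t => B.p t + B.L t / 4) (fun t => B.L t / 4) ?_ ?_)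
  · intro t ht
    have := h.pos (hp t (Finset.mem_Ico.1 (Finset.mem_filter.1 ht).1).2)
    exact ⟨by linarith [this.1], by linarith [this.2.2.2.2.2.2.2.1]⟩
  · intro i hi j hj hij n u u1 u2 u3 u4
    obtain ⟨i1, i2⟩ := Finset.mem_filter.1 hi
    obtain ⟨j1, j2⟩ := Finset.mem_filter.1 hj
    rw [Finset.mem_Ico] at i1 j1
    apply hcon
    rcases lt_or_gt_of_ne hij with c | c
    · refine ⟨i, j, c, j1.2, hs i i1.1, h.blkB_pair c (hp j j1.2) (hb i i1.1 i1.2)
        (hb j j1.1 j1.2) (not_lt.1 i2) (-n) (u - n) ?_ ?_ ?_ ?_⟩ <;> push_cast <;> linarith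
    · refine ⟨j, i, c, i1.2, hs j j1.1, h.blkB_pair c (hp i i1.2) (hb j j1.1 j1.2)
        (hb i i1.1 i1.2) (not_lt.1 j2) n u ?_ ?_ ?_ ?_⟩ <;> linarith

end BD

end Pool.Agent.Lib.MP_173a7e_an.C2
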