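import Pool.Agent.Lib.MP_173a7e_an.C2.BlkR

/-! Collecting the gaps of nested windows. -/

set_option autoImplicit false
set_option linter.unusedVariables false

namespace Pool.Agent.Lib.MP_173a7e_an.C2

open Set Filter Topology

namespace BD

variable {B : BD} {C σ ζ η ρ : ℝ}

theorem Ok.blkW_ord (h : B.Ok C σ ζ η ρ) {t : ℕ} (ht : t ≤ B.n) :
    B.p t < B.a t ∧ B.a t < B.b t ∧ B.b t < B.q t :=
  ⟨(B.γ t).lt_iff_lt.2 (h.ord t ht).1, (B.γ t).lt_iff_lt.2 (h.ord t ht).2.1,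
    (B.γ t).lt_iff_lt.2 (h.ord t ht).2.2⟩

/-- Windows that overlap modulo integers are nested. -/
theorem Ok.blkW_nest (h : B.Ok C σ ζ η ρ) {i j : ℕ} (hij : i < j) (hj : j ≤ B.n) {K0 : ℝ × ℝ}
    (hK : K0 ∈ B.Gp) (hi : B.p i ≤ B.γ i K0.2) (hj' : B.p j ≤ B.γ j K0.2) (hη : η ≤ B.m i)
    (hr : B.Rp (B.im j K0) (B.τ j)) (hl : ρ ≤ B.γ j K0.2 - B.γ j K0.1) (m : ℤ) (u : ℝ)
    (u1 : B.γ i K0.2 + m ≤ u) (u2 : u < B.a i + m) (u3 : B.γ j K0.2 ≤ u) (u4 : u < B.a j) :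
    B.γ j K0.2 ≤ B.p i + m ∧ B.q i + m ≤ B.a j := by
  obtain ⟨a1, a2, a3⟩ := h.blkW_ord (hij.le.trans hj)
  obtain ⟨b1, b2, b3⟩ := h.blkW_ord hj
  have hK' := (h.gp_im j hj K0).1 hK
  have c1 : B.γ j K0.1 < B.γ j K0.2 := h.gp_lt _ hK'
  rcases h.lam i j hij (Nat.lt_succ_of_le hj) m with e | e | ⟨e, e'⟩ | ⟨e, -⟩
  · linarith
  · linarith
  · rcases h.tri (hij.le.trans hj) hK' m with f | f | ⟨f, f'⟩
    · exact ⟨f, e'⟩
    · change _ ≤ B.γ j K0.1 at f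
      linarith
    · have g1 := h.tm_ge' (hij.le.trans hj) hK' m f f'
      have g2 := h.tm_lt _ hK' hl _ hr
      have g3 := h.τ_gap hij hj
      linarith
  · linarith

theorem Ok.blkW_mass (h : B.Ok C σ ζ η ρ) {k3 k2 : ℕ} (hk : k2 ≤ B.n) :
    B.mass k3 k2 ≤ ∑ t ∈ (Finset.Ico k3 k2).filter (fun t => η ≤ B.m t), B.m t + 1 := by
  classical
  have e := Finset.sum_filter_add_sum_filter_not (Finset.Ico k3 k2) (fun t => η ≤ B.m t) B.m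
  have h1 : ∑ t ∈ (Finset.Ico k3 k2).filter (fun t => ¬ η ≤ B.m t), B.m t ≤
      ∑ t ∈ (Finset.range B.n).filter (fun t => B.m t < η), B.m t := by
    refine Finset.sum_le_sum_of_subset_of_nonneg (fun t ht => ?_) fun t ht _ => ?_
    · rw [Finset.mem_filter, Finset.mem_Ico] at ht
      exact Finset.mem_filter.2 ⟨Finset.mem_range.2 (ht.1.2.trans_le hk), not_le.1 ht.2⟩
    · exact (h.pos (Finset.mem_range.1 (Finset.mem_filter.1 ht).1).le).2.2.2.1.le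
  have h2 := h.irr
  have h3 := cc_le_one h.C1
  unfold mass
  linarith

theorem Ok.window (h : B.Ok C σ ζ η ρ) {k3 k2 : ℕ} (hk : k2 ≤ B.n) (hm : cD1 C ≤ B.mass k3 k2)
    {K0 : ℝ × ℝ} (hK : K0 ∈ B.Gp) (h2 : K0.2 ≤ B.a0)
    (hb : ∀ t ∈ Finset.Ico k3 k2, B.P t ≤ K0.1 ∧ B.Rp (B.im t K0) (B.τ t) ∧
      B.m t ≤ 9 * cU C * (B.a t - B.γ t K0.2) ∧ B.a t - B.γ t K0.2 ≤ 2 * B.m t / cy C ∧
      (η ≤ B.m t → ρ ≤ B.γ t K0.2 - B.γ t K0.1))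
    {Φ z : ℝ} (hΦ : 0 ≤ Φ) (hz : 0 < z) (hρ : ρ ≤ z * η)
    (hZ : ∀ t ∈ Finset.Ico k3 k2, B.Has t Φ z) :
    ∃ j ∈ Finset.Ico k3 k2, ∃ Z : Finset (ℝ × ℝ),
      (∀ K ∈ Z, K ∈ B.Gp ∧ K0.2 ≤ K.1 ∧ K.2 ≤ B.a0 ∧ B.Rp (B.im j K) (B.τ k3) ∧
        z * η ≤ B.γ j K.2 - B.γ j K.1) ∧
      Φ * (cy C / 2) * cD C * (B.a j - B.γ j K0.2) ≤ ∑ K ∈ Z, (B.γ j K.2 - B.γ j K.1) ∧
      ∑ K ∈ Z, (B.γ j K.2 - B.γ j K.1) ≤ B.a j - B.γ j K0.2 := by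
  classical
  have hmass := h.blkW_mass (k3 := k3) hk
  obtain ⟨P, hP, hP'⟩ : ∃ P : Finset ℕ, (∀ t ∈ P, t ∈ Finset.Ico k3 k2 ∧ η ≤ B.m t) ∧
      B.mass k3 k2 ≤ ∑ t ∈ P, B.m t + 1 := ⟨_, fun t ht => Finset.mem_filter.1 ht, hmass⟩
  have hn : ∀ t ∈ P, t ≤ B.n := fun t ht => (Finset.mem_Ico.1 (hP t ht).1).2.le.trans hk
  have hp : ∀ t ∈ P, B.p t ≤ B.γ t K0.2 := fun t ht =>
    (B.γ t).le_iff_le.2 ((hb t (hP t ht).1).1.trans (h.gp_lt _ hK).le)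
  have hw : ∀ t, 0 ≤ B.a t - B.γ t K0.2 := fun t => sub_nonneg.2 ((B.γ t).le_iff_le.2 h2)
  have hU := cU_ge h.C1
  have hD := cD_pos h.C1
  have hy := cy_pos h.C1
  obtain ⟨j, hj, hcov⟩ := cover P (fun t => B.a t - B.γ t K0.2)
    (fun i j => i < j ∧ ∃ n : ℤ, B.γ j K0.2 ≤ B.p i + n ∧ B.q i + n ≤ B.a j) (fun i _ => hw i)
    (fun i j hij => hij.1) (D := cD C) (by
      rintro i - j hj k - ⟨a1, n, a2, a3⟩ ⟨b1, n', b2, b3⟩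
      obtain ⟨c1, c2, c3⟩ := h.blkW_ord (hn j hj)
      refine ⟨a1.trans b1, n + n', ?_, ?_⟩ <;> push_cast <;> linarith [hp j hj]) hD.le
    (fun Q hQ hN => disj_sum Q (fun t => B.γ t K0.2) _ (fun i hi => ⟨hw i, by
        have := (h.pos (hn i (hQ hi))).2.2.2.2.2.2.2.1
        unfold L at this
        linarith [hp i (hQ hi)]⟩) fun i hi j hj hij m u u1 u2 u3 u4 => by
      have key := fun i hi j hj hij => h.blkW_nest (i := i) (j := j) hij (hn j (hQ hj)) hK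
        (hp i (hQ hi)) (hp j (hQ hj)) (hP i (hQ hi)).2 (hb j (hP j (hQ hj)).1).2.1
        ((hb j (hP j (hQ hj)).1).2.2.2.2 (hP j (hQ hj)).2)
      rcases lt_or_gt_of_ne hij with e | e
      · exact hN i hi j hj ⟨e, -m, key i hi j hj e (-m) (u - m) (by push_cast; linarith)
          (by push_cast; linarith) (by linarith) (by linarith)⟩
      · exact hN j hj i hi ⟨e, m, key j hj i hi e m u u3 (by linarith) u1 (by linarith)⟩) (by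
      have h1 : ∑ t ∈ P, B.m t ≤ 9 * cU C * ∑ t ∈ P, (B.a t - B.γ t K0.2) := by
        rw [Finset.mul_sum]
        exact Finset.sum_le_sum fun t ht => (hb t (hP t ht).1).2.2.1
      unfold cD1 at hm
      exact lt_of_mul_lt_mul_left (a := 9 * cU C) (by linarith) (by linarith))
  obtain ⟨S, hS, hcov⟩ : ∃ S : Finset ℕ, (∀ i ∈ S, i ∈ P ∧ i < j ∧
      ∃ n : ℤ, B.γ j K0.2 ≤ B.p i + n ∧ B.q i + n ≤ B.a j) ∧
      cD C * (B.a j - B.γ j K0.2) < ∑ i ∈ S, (B.a i - B.γ i K0.2) :=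
    ⟨_, fun i hi => by simpa only [Finset.mem_filter] using hi, hcov⟩
  choose! n hn1 hn2 using fun i hi => (hS i hi).2.2
  choose! Z hZ1 hZ2 using hZ
  have hI : ∀ i ∈ S, i ∈ Finset.Ico k3 k2 := fun i hi => (hP i (hS i hi).1).1
  have hlen : ∀ i ∈ S, ∀ K ∈ Z i, z * η ≤ K.2 - K.1 := fun i hi K hK' =>
    (mul_le_mul_of_nonneg_left (hP i (hS i hi).1).2 hz.le).trans (hZ1 i (hI i hi) K hK').2.2.2.2
  obtain ⟨G, hG⟩ : ∃ G : (Σ _ : ℕ, ℝ × ℝ) → ℝ × ℝ, ∀ s, B.im j (G s) = sh s.2 (n s.1) :=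
    ⟨fun s => ((B.γ j).symm (s.2.1 + n s.1), (B.γ j).symm (s.2.2 + n s.1)), fun s => by
      simp [im, sh]⟩
  have hG1 : ∀ s, B.γ j (G s).1 = s.2.1 + n s.1 := fun s => congrArg Prod.fst (hG s)
  have hG2 : ∀ s, B.γ j (G s).2 = s.2.2 + n s.1 := fun s => congrArg Prod.snd (hG s)
  have hlt : ∀ i ∈ S, ∀ K ∈ Z i, ∀ i' ∈ S, ∀ K' ∈ Z i', i < i' → B.tm K' < B.tm K := by
    intro i hi K hK1 i' hi' K' hK2 hii
    obtain ⟨a1, a2, a3, -, -⟩ := hZ1 i (hI i hi) K hK1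
    obtain ⟨b1, -, -, b4, -⟩ := hZ1 i' (hI i' hi') K' hK2
    have g1 := h.tm_ge i (hn i (hS i hi).1) K a1 a2 a3
    have g2 := h.tm_lt K' b1 (hρ.trans (hlen i' hi' K' hK2)) _ b4
    have g3 := h.τ_gap hii (hn i' (hS i' hi').1)
    linarith [(hP i (hS i hi).1).2]
  have hinj : Set.InjOn G (S.sigma Z : Finset (Σ _ : ℕ, ℝ × ℝ)) := by
    rintro ⟨i, K⟩ h1 ⟨i', K'⟩ h1' e
    obtain ⟨hi, hK1⟩ := Finset.mem_sigma.1 (Finset.mem_coe.1 h1)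
    obtain ⟨hi', hK2⟩ := Finset.mem_sigma.1 (Finset.mem_coe.1 h1')
    have e1 : sh K (n i) = sh K' (n i') := (hG ⟨i, K⟩).symm.trans (e ▸ hG ⟨i', K'⟩)
    have e2 : B.tm K = B.tm K' := by
      rw [← h.tm_sh K (hZ1 i (hI i hi) K hK1).1 (n i), e1, h.tm_sh K' (hZ1 i' (hI i' hi') K' hK2).1]
    obtain rfl : i = i' := by
      by_contra hne
      rcases lt_or_gt_of_ne hne with f | f
      exacts [(hlt i hi K hK1 i' hi' K' hK2 f).ne' e2, (hlt i' hi' K' hK2 i hi K hK1 f).ne e2]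
    obtain rfl : K = K' :=
      Prod.ext (add_right_cancel (congrArg Prod.fst e1)) (add_right_cancel (congrArg Prod.snd e1))
    rfl
  have hmem : ∀ K ∈ (S.sigma Z).image G, K ∈ B.Gp ∧ K0.2 ≤ K.1 ∧ K.2 ≤ B.a0 ∧
      B.Rp (B.im j K) (B.τ k3) ∧ z * η ≤ B.γ j K.2 - B.γ j K.1 := by
    intro K' hK'
    obtain ⟨⟨i, K⟩, h1, rfl⟩ := Finset.mem_image.1 hK'
    obtain ⟨hi, hK1⟩ := Finset.mem_sigma.1 h1
    obtain ⟨a1, a2, a3, a4, -⟩ := hZ1 i (hI i hi) K hK1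
    refine ⟨(h.gp_im j (hn j hj) _).2 (hG _ ▸ h.gp_sh K a1 _), (B.γ j).le_iff_le.1 ?_,
      (B.γ j).le_iff_le.1 ?_, ?_, ?_⟩
    · rw [hG1]
      linarith [hn1 i hi]
    · rw [hG2]
      exact le_trans (by linarith) (hn2 i hi)
    · rw [hG]
      exact h.rp_sh _ _ _ (h.rp_mono _ _ _ a4
        (h.τ_anti (Finset.mem_Ico.1 (hI i hi)).1 (hn i (hS i hi).1)))
    · rw [hG1, hG2]
      linarith [hlen i hi K hK1]
  refine ⟨j, (hP j hj).1, (S.sigma Z).image G, hmem, ?_, ?_⟩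
  · rw [Finset.sum_image hinj, Finset.sum_sigma]
    calc _ = Φ * (cy C / 2) * (cD C * (B.a j - B.γ j K0.2)) := by ring
      _ ≤ Φ * (cy C / 2) * ∑ i ∈ S, (B.a i - B.γ i K0.2) :=
        mul_le_mul_of_nonneg_left hcov.le (by positivity)
      _ = ∑ i ∈ S, Φ * (cy C / 2 * (B.a i - B.γ i K0.2)) := by
        rw [Finset.mul_sum]
        exact Finset.sum_congr rfl fun i _ => by ring
      _ ≤ _ := Finset.sum_le_sum fun i hi => ?_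
    have g1 := (le_div_iff₀ hy).1 (hb i (hI i hi)).2.2.2.1
    refine (mul_le_mul_of_nonneg_left (show _ ≤ B.m i by linarith) hΦ).trans
      ((hZ2 i (hI i hi)).trans_eq (Finset.sum_congr rfl fun K _ => ?_))
    rw [hG1, hG2]
    ring
  · refine sum_in _ (fun K : ℝ × ℝ => B.γ j K.1) (fun K => B.γ j K.2) (sub_nonneg.1 (hw j))
      (fun K hK' => ?_) fun K h1 K' h1' hne => ?_
    · obtain ⟨a1, a2, a3, -⟩ := hmem K hK'
      exact ⟨(B.γ j).le_iff_le.2 a2, (B.γ j).le_iff_le.2 (h.gp_lt K a1).le,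
        (B.γ j).le_iff_le.2 a3⟩
    · exact (h.gp_sep K (hmem K h1).1 K' (hmem K' h1').1 hne).imp (B.γ j).le_iff_le.2
        (B.γ j).le_iff_le.2

end BD

end Pool.Agent.Lib.MP_173a7e_an.C2
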