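import Pool.Agent.Lib.MP_173a7e_an.C2.BlkB
import Pool.Agent.Lib.MP_173a7e_an.C2.BlkW

/-! One generation, when the left side is the short one. -/

set_option autoImplicit false
set_option linter.unusedVariables false

namespace Pool.Agent.Lib.MP_173a7e_an.C2

open Set Filter Topology

namespace BD

variable {B : BD} {C σ ζ η ρ : ℝ}

theorem Ok.blkG_cut (h : B.Ok C σ ζ η ρ) {k : ℕ} (hk : k ≤ B.n) {X : ℝ} (hX : 0 ≤ X)
    (hm : X ≤ B.mass 0 k) : ∃ k' ≤ k, X ≤ B.mass k' k ∧ B.mass k' k ≤ X + 1 := by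
  refine cut B.m (fun t ht => ?_) hX ?_
  · have := h.pos (ht.le.trans hk)
    exact ⟨this.2.2.2.1.le, this.2.2.2.2.2.2.2.2.2⟩
  · rw [Finset.range_eq_Ico]; exact hm

theorem Ok.blkG_mono (h : B.Ok C σ ζ η ρ) {i i' k' k : ℕ} (h1 : i ≤ i') (h2 : i' ≤ k')
    (h3 : k' ≤ k) (hk : k ≤ B.n) : B.mass i' k' ≤ B.mass i k := by
  have e1 := mass_add (B := B) h1 (h2.trans h3)
  have e2 := mass_add (B := B) h2 h3
  have a1 := h.mass_nonneg i ((h2.trans h3).trans hk)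
  have a2 := h.mass_nonneg k' hk
  linarith

theorem blkG_cD {C : ℝ} (h : 1 ≤ C) : cy C ^ 3 * cD C = 1728 * cU C := by
  have := cy_pos h
  unfold cD; field_simp

theorem blkG_phi {C Φ w : ℝ} (h : 1 ≤ C) (hΦ : 0 ≤ Φ) (hw : 0 < w)
    (H : Φ * (cy C / 2) * cD C * w ≤ w) : Φ ≤ 1 := by
  have e := blkG_cD h
  have y0 := cy_pos h
  have y1 := cy_le h
  have u := cU_ge h
  have d := cD_pos h
  generalize cy C = y at *
  generalize cD C = D at *
  generalize cU C = U at *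
  have h1 : Φ * (y / 2) * D ≤ 1 := by
    by_contra hc
    have := mul_lt_mul_of_pos_right (not_le.mp hc) hw
    linarith
  have h2 : y ^ 2 ≤ 1 := pow_le_one₀ y0.le (by linarith)
  have h3 : y ^ 2 * (y * D) ≤ 1 * (y * D) := mul_le_mul_of_nonneg_right h2 (by positivity)
  have h4 : 1 ≤ y / 2 * D := by nlinarith
  have h5 : Φ * 1 ≤ Φ * (y / 2 * D) := mul_le_mul_of_nonneg_left h4 hΦ
  nlinarith

theorem blkG_tot {C Φ w s m m' : ℝ} (h : 1 ≤ C) (hΦ : 0 ≤ Φ) (hm : 0 < m) (hm' : 0 < m')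
    (hw : m ≤ 9 * cU C * w) (H : Φ * (cy C / 2) * cD C * w ≤ s) :
    2 * Φ * m' ≤ s * (cy C / (4 * m) / 2 * (cy C * m' / 6)) := by
  have e := blkG_cD h
  have y0 := cy_pos h
  have u := cU_ge h
  generalize cy C = y at *
  generalize cD C = D at *
  generalize cU C = U at *
  have a1 : Φ * (y / 2) * D * w * (y / (4 * m) / 2 * (y * m' / 6)) ≤
      s * (y / (4 * m) / 2 * (y * m' / 6)) := mul_le_mul_of_nonneg_right H (by positivity)
  have a2 : Φ * (y / 2) * D * w * (y / (4 * m) / 2 * (y * m' / 6)) =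
      2 * Φ * m' * (9 * U * w / m) := by
    have : Φ * (y / 2) * D * w * (y / (4 * m) / 2 * (y * m' / 6)) =
        Φ * w * m' * (y ^ 3 * D) / (96 * m) := by field_simp; ring
    rw [this, e]; field_simp; ring
  have a3 : 1 ≤ 9 * U * w / m := by rw [le_div_iff₀ hm]; linarith
  have a4 : 2 * Φ * m' * 1 ≤ 2 * Φ * m' * (9 * U * w / m) :=
    mul_le_mul_of_nonneg_left a3 (by positivity)
  linarith

theorem blkG_im_inj (t : ℕ) : Function.Injective (B.im t) := by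
  intro K K' e
  have e1 := (B.γ t).injective (congrArg Prod.fst e)
  have e2 := (B.γ t).injective (congrArg Prod.snd e)
  exact Prod.ext e1 e2

theorem Ok.gen_left (h : B.Ok C σ ζ η ρ) {k : ℕ} (hk : k ≤ B.n) (hL : B.L k ≤ B.R k)
    (hm : c3 C ≤ B.mass 0 k) {Φ z : ℝ} (hΦ : 0 ≤ Φ) (hz : 0 < z) (h1 : ρ ≤ z * η)
    (h2 : ρ ≤ ζ * η * (cy C * η / 12)) (H : B.Good C k Φ z) :
    Φ ≤ 1 ∧ ∃ k' ≤ k, B.mass k' k ≤ c3 C ∧ B.Good C k' (2 * Φ) (z * (cy C * η / 12)) := by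
  classical
  have hC := h.C1
  have y0 := cy_pos hC
  have y1 : cy C ≤ 1 := (cy_le hC).trans (by norm_num)
  have u0 := cU_ge hC
  have d1 := cD1_ge hC
  have d2 := cD2_pos hC
  have e3 : c3 C = 25 + cD1 C + cD2 C := rfl
  have η0 := h.η0
  have ζ0 := h.ζ0
  -- the blocker
  obtain ⟨i, j, hij, hjk, hs, K0, hK0, b2, bML, bMU, blen, bRp⟩ := h.blocker hk hL (by linarith)
  have hjn : j ≤ B.n := hjk.le.trans hk
  have hik : i ≤ k := (hij.trans hjk).le
  have hin : i ≤ B.n := hik.trans hk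
  have k12 := h.gp_lt K0 hK0
  have mik : B.mass i k ≤ 11 := by
    refine le_trans (Finset.sum_le_sum fun t ht => ?_) hs
    exact (h.pos ((Finset.mem_Ico.1 ht).2.le.trans hk)).2.2.2.2.1
  have trk : ∀ t ≤ j, B.mass t k ≤ 2 * c3 C →
      B.ML t (1 + cy C) K0.1 ∧ B.ph j K0 / 2 ≤ B.ph t K0 := fun t ht hmt =>
    h.ph_track ht le_rfl hjn ((h.blkG_mono le_rfl ht hjk.le hk).trans hmt) bML le_rfl k12 b2
  have trP : ∀ t ≤ j, B.mass t k ≤ 2 * c3 C → B.P t ≤ K0.1 := fun t ht hmt =>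
    (h.ml_geo (ht.trans hjn) y0 y1 (trk t ht hmt).1).1.le
  -- first ride
  have r1 : B.Rp (B.im i K0) (B.τ i + 11) := by
    have := h.ride1 hij.le hjn hK0 b2 B.L (fun t ht => ?_) le_rfl bRp
    · refine h.rp_mono _ _ _ this ?_
      have : ∑ t ∈ Finset.Ico i j, B.L t ≤ ∑ t ∈ Finset.Ico i k, B.L t :=
        Finset.sum_le_sum_of_subset_of_nonneg (Finset.Ico_subset_Ico le_rfl hjk.le)
          fun t ht _ => (h.pos ((Finset.mem_Ico.1 ht).2.le.trans hk)).1.le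
      linarith
    · obtain ⟨t1, t2⟩ := Finset.mem_Ico.1 ht
      obtain ⟨K1, g1, g2, g3⟩ := h.bdL t (t2.le.trans hjn)
      refine ⟨K1, g1, g3, ?_, ?_⟩
      · rw [g2]
        refine (B.γ t).monotone (trP t t2.le ?_)
        have := h.blkG_mono t1 (t2.trans hjk).le le_rfl hk
        linarith
      · rw [g2]; exact le_rfl
  have m0i := mass_add (B := B) (Nat.zero_le i) hik
  obtain ⟨k2, hk2, c21, c22⟩ := h.blkG_cut hin (X := 11) (by norm_num) (by linarith)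
  have hk2k : k2 ≤ k := hk2.trans hik
  have hk2n : k2 ≤ B.n := hk2k.trans hk
  have mk2 : B.mass k2 k ≤ 23 := by linarith [mass_add (B := B) hk2 hik]
  have r2 : ∀ t ≤ k2, B.mass t k ≤ 2 * c3 C → B.Rp (B.im t K0) (B.τ t) := by
    intro t ht hmt
    refine h.ride2 (ht.trans hk2) hin hK0 b2 (fun s hs => ?_)
      (c21.trans (h.blkG_mono ht hk2 le_rfl hin)) r1
    obtain ⟨s1, s2⟩ := Finset.mem_Ico.1 hs
    exact trP s (s2.trans hij).le ((h.blkG_mono s1 (s2.le.trans hik) le_rfl hk).trans hmt)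
  have m0k2 := mass_add (B := B) (Nat.zero_le k2) hk2k
  obtain ⟨k3, hk3, c31, c32⟩ := h.blkG_cut hk2n (X := cD1 C) (by linarith) (by linarith)
  have hk3k : k3 ≤ k := hk3.trans hk2k
  have hk3n : k3 ≤ B.n := hk3k.trans hk
  have mk3 : B.mass k3 k ≤ cD1 C + 24 := by linarith [mass_add (B := B) hk3 hk2k]
  have bML2 : B.ML j (1 + 4 * cy C) K0.2 := h.ml_right hjn bML (by linarith) k12.le b2
  have phj : ζ * η ≤ B.ph j K0 :=
    blen.trans (h.ph_geo hjn y0 y1 (h.ml_anti hjn bML (by linarith)) k12 b2).2.2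
  have hb : ∀ t ∈ Finset.Ico k3 k2, B.P t ≤ K0.1 ∧ B.Rp (B.im t K0) (B.τ t) ∧
      B.m t ≤ 9 * cU C * (B.a t - B.γ t K0.2) ∧ B.a t - B.γ t K0.2 ≤ 2 * B.m t / cy C ∧
      (η ≤ B.m t → ρ ≤ B.γ t K0.2 - B.γ t K0.1) := by
    intro t ht
    obtain ⟨t1, t2⟩ := Finset.mem_Ico.1 ht
    have htj : t ≤ j := (t2.le.trans hk2).trans hij.le
    have htn : t ≤ B.n := htj.trans hjn
    have hmt : B.mass t k ≤ 2 * c3 C := by
      have := h.blkG_mono t1 (t2.le.trans hk2k) le_rfl hk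
      linarith
    obtain ⟨q1, q2⟩ := trk t htj hmt
    have q3 := trP t htj hmt
    refine ⟨q3, r2 t t2.le hmt, ?_, ?_, fun hη => ?_⟩
    · have := h.mu_geo htn (q3.trans k12.le) b2
        (h.mu_track htj hjn ((h.blkG_mono le_rfl htj hjk.le hk).trans hmt) bML2 bMU)
      linarith
    · exact (h.ml_geo htn y0 y1 (h.ml_right htn q1 (by linarith) k12.le b2)).2.2
    · have a1 := (h.ph_geo htn y0 y1 q1 k12 b2).1
      have a2 : ζ * η / 2 * (cy C * η / 6) ≤ B.ph t K0 * (cy C * B.m t / 6) := by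
        have : 0 < ζ * η := by positivity
        refine mul_le_mul (by linarith) ?_ (by positivity) (by linarith)
        have := mul_le_mul_of_nonneg_left hη y0.le
        linarith
      linarith
  obtain ⟨js, hjs, Z, hZ, z1, z2⟩ := h.window hk2n c31 hK0 b2 hb hΦ hz h1 (fun t ht => by
    obtain ⟨t1, t2⟩ := Finset.mem_Ico.1 ht
    refine H t (t2.le.trans hk2k) ?_
    have := h.blkG_mono t1 (t2.le.trans hk2k) le_rfl hk
    linarith)
  obtain ⟨j1, j2⟩ := Finset.mem_Ico.1 hjs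
  have hjsj : js ≤ j := (j2.le.trans hk2).trans hij.le
  have hjsn : js ≤ B.n := hjsj.trans hjn
  have ms0 := (h.pos hjsn).2.2.2.1
  have w1 := (hb js hjs).2.2.1
  have w0 : 0 < B.a js - B.γ js K0.2 := by
    by_contra hc
    have := mul_nonpos_of_nonneg_of_nonpos (show 0 ≤ 9 * cU C by linarith) (not_lt.mp hc)
    linarith
  refine ⟨blkG_phi hC hΦ w0 (z1.trans z2), ?_⟩
  -- second ride
  have r3 : ∀ K ∈ Z, B.Rp (B.im k3 K) (B.τ k3 + cD2 C) := by
    intro K hK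
    obtain ⟨g1, g2, g3, g4, -⟩ := hZ K hK
    have := h.ride1 j1 hjsn g1 g3 (fun t => 2 * B.m t / cy C) (fun t ht => ?_) le_rfl g4
    · refine h.rp_mono _ _ _ this ?_
      have e1 : ∑ t ∈ Finset.Ico k3 js, 2 * B.m t / cy C = 2 * B.mass k3 js / cy C := by
        rw [mass, Finset.mul_sum, Finset.sum_div]
      have e2 := h.blkG_mono le_rfl j1 j2.le hk2n
      have e4 : 2 * B.mass k3 js / cy C ≤ cD2 C := by
        unfold cD2
        exact div_le_div_of_nonneg_right (by linarith) y0.le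
      linarith
    · obtain ⟨t1, t2⟩ := Finset.mem_Ico.1 ht
      obtain ⟨-, q2, -, q4, -⟩ := hb t (Finset.mem_Ico.2 ⟨t1, t2.trans j2⟩)
      exact ⟨B.im t K0, (h.gp_im t (t2.le.trans hjsn) K0).1 hK0, q2, (B.γ t).monotone g2, q4⟩
  have m0k3 := mass_add (B := B) (Nat.zero_le k3) hk3k
  obtain ⟨k', hk', c41, c42⟩ := h.blkG_cut hk3n (X := cD2 C) d2.le (by linarith)
  have hk'k : k' ≤ k := hk'.trans hk3k
  have mk' : B.mass k' k ≤ c3 C := by linarith [mass_add (B := B) hk' hk3k]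
  refine ⟨k', hk'k, mk', fun i' hi' hmi => ?_⟩
  have hi3 : i' ≤ k3 := hi'.trans hk'
  have his : i' ≤ js := hi3.trans j1
  have hi'n : i' ≤ B.n := his.trans hjsn
  have mi' : B.mass i' k ≤ 2 * c3 C := by linarith [mass_add (B := B) hi' hk'k]
  have mi0 := (h.pos hi'n).2.2.2.1
  have key : ∀ K ∈ Z, B.ph js K / 2 * (cy C * B.m i' / 6) ≤ B.γ i' K.2 - B.γ i' K.1 ∧
      (B.γ js K.2 - B.γ js K.1) * (cy C / (4 * B.m js)) ≤ B.ph js K ∧
      B.γ js K.2 - B.γ js K.1 ≤ B.ph js K := by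
    intro K hK
    obtain ⟨g1, g2, g3, -, -⟩ := hZ K hK
    have g0 := h.gp_lt K g1
    have q0 : B.mass i' j ≤ 2 * c3 C := (h.blkG_mono le_rfl (his.trans hjsj) hjk.le hk).trans mi'
    obtain ⟨q1, q2⟩ := h.ph_track his hjsj hjn q0 bML (k12.le.trans g2) g0 g3
    have q3 := (h.ph_track le_rfl hjsj hjn
      ((h.blkG_mono his hjsj le_rfl hjn).trans q0) bML (k12.le.trans g2) g0 g3).1
    refine ⟨le_trans ?_ (h.ph_geo hi'n y0 y1 q1 g0 g3).1, (h.ph_geo hjsn y0 y1 q3 g0 g3).2⟩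
    exact mul_le_mul_of_nonneg_right q2 (by positivity)
  refine ⟨Z.image (B.im i'), fun K' hK' => ?_, ?_⟩
  · obtain ⟨K, hK, rfl⟩ := Finset.mem_image.1 hK'
    obtain ⟨g1, g2, g3, -, g5⟩ := hZ K hK
    obtain ⟨q1, -, q3⟩ := key K hK
    obtain ⟨o1, o2, o3⟩ := h.ord i' hi'n
    refine ⟨(h.gp_im i' hi'n K).1 g1, ?_, ?_, ?_, ?_⟩
    · exact (B.γ i').monotone (((trP i' (his.trans hjsj) mi').trans k12.le).trans g2)
    · exact (B.γ i').monotone (g3.trans (o2.trans o3).le)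
    · refine h.ride2 hi3 hk3n g1 g3 (fun s hs => ?_)
        (c41.trans (h.blkG_mono hi' hk' le_rfl hk3n)) (r3 K hK)
      obtain ⟨s1, s2⟩ := Finset.mem_Ico.1 hs
      exact ((trP s ((s2.le.trans j1).trans hjsj)
        ((h.blkG_mono s1 (s2.le.trans hk3k) le_rfl hk).trans mi')).trans k12.le).trans g2
    · have a2 : z * η / 2 * (cy C * B.m i' / 6) ≤ B.ph js K / 2 * (cy C * B.m i' / 6) :=
        mul_le_mul_of_nonneg_right (by linarith) (by positivity)
      show _ ≤ B.γ i' K.2 - B.γ i' K.1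
      linarith
  · rw [Finset.sum_image fun x _ y _ e => blkG_im_inj i' e]
    refine (blkG_tot hC hΦ ms0 mi0 w1 z1).trans ?_
    rw [Finset.sum_mul]
    refine Finset.sum_le_sum fun K hK => ?_
    obtain ⟨q1, q2, -⟩ := key K hK
    have a2 : (B.γ js K.2 - B.γ js K.1) * (cy C / (4 * B.m js)) / 2 * (cy C * B.m i' / 6) ≤
        B.ph js K / 2 * (cy C * B.m i' / 6) :=
      mul_le_mul_of_nonneg_right (by linarith) (by positivity)
    show _ ≤ B.γ i' K.2 - B.γ i' K.1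
    linarith

end BD

end Pool.Agent.Lib.MP_173a7e_an.C2
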