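import Pool.Agent.Lib.MP_173a7e_an.C2.Frm

/-! The mirror image of a stretch. -/

set_option autoImplicit false
set_option linter.unusedVariables false

namespace Pool.Agent.Lib.MP_173a7e_an.C2

open Set Filter Topology

namespace BD

variable {B : BD} {C σ ζ η ρ : ℝ}

theorem blkM_γ (t : ℕ) (x : ℝ) : B.mir.γ t x = -B.γ t (-x) := rfl

theorem blkM_P (t : ℕ) : B.mir.P t = -B.Q t := rfl

theorem blkM_Q (t : ℕ) : B.mir.Q t = -B.P t := rfl

theorem blkM_p (t : ℕ) : B.mir.p t = -B.q t := by simp [p, q, blkM_γ, blkM_P]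

theorem blkM_q (t : ℕ) : B.mir.q t = -B.p t := by simp [p, q, blkM_γ, blkM_Q]

theorem blkM_a (t : ℕ) : B.mir.a t = -B.b t := congrArg (fun x => -B.γ t x) (neg_neg _)

theorem blkM_b (t : ℕ) : B.mir.b t = -B.a t := congrArg (fun x => -B.γ t x) (neg_neg _)

theorem blkM_l (t : ℕ) : B.mir.l t = B.l t := by simp only [l, blkM_a, blkM_b]; ring

theorem blkM_T (t : ℕ) : B.mir.T t = B.T t := by simp only [T, blkM_p, blkM_q]; ring

theorem blkM_rf (K : ℝ × ℝ) : rf (rf K) = K := by simp [rf]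

theorem blkM_sh (K : ℝ × ℝ) (m : ℤ) : rf (sh K m) = sh (rf K) (-m) := by
  simp [rf, sh, add_comm]

theorem blkM_im (t : ℕ) (K : ℝ × ℝ) : rf (B.mir.im t K) = B.im t (rf K) := by
  simp [rf, im, blkM_γ]

theorem blkM_Gp {K : ℝ × ℝ} : K ∈ B.mir.Gp ↔ rf K ∈ B.Gp := Iff.rfl

theorem blkM_Rp {K : ℝ × ℝ} {θ : ℝ} : B.mir.Rp K θ ↔ B.Rp (rf K) θ := Iff.rfl

theorem blkM_sum (Z : Finset (ℝ × ℝ)) :
    ∑ K ∈ Z.map (Function.Involutive.toPerm rf blkM_rf).toEmbedding, (K.2 - K.1) =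
      ∑ K ∈ Z, (K.2 - K.1) := by
  rw [Finset.sum_map]
  exact Finset.sum_congr rfl fun K _ => neg_sub_neg _ _

theorem mir_L (t : ℕ) : B.mir.L t = B.R t := by
  simp only [L, R, blkM_a, blkM_p]; ring

theorem mir_R (t : ℕ) : B.mir.R t = B.L t := by
  simp only [L, R, blkM_b, blkM_q]; ring

theorem mir_m (t : ℕ) : B.mir.m t = B.m t := by
  rw [m, mir_L, mir_R, min_comm, m]

theorem mir_mass (i k : ℕ) : B.mir.mass i k = B.mass i k := by
  simp only [mass, mir_m]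

theorem Ok.mir (h : B.Ok C σ ζ η ρ) : B.mir.Ok C σ ζ η ρ := by
  refine
    { C1 := h.C1, σ0 := h.σ0, σc := h.σc, ζ0 := h.ζ0, η0 := h.η0, η1 := h.η1, g0 := h.g0
      gsum := h.gsum
      ord := fun t ht => ⟨neg_lt_neg (h.ord t ht).2.2, neg_lt_neg (h.ord t ht).2.1,
        neg_lt_neg (h.ord t ht).1⟩
      len1 := fun t ht => by rw [blkM_T]; exact h.len1 t ht
      thin := fun t ht => by rw [blkM_l, mir_L, mir_R]; exact (h.thin t ht).symm
      low := fun t ht => by rw [blkM_l, mir_m]; exact h.low t ht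
      nest := fun t ht => ⟨neg_le_neg (h.nest t ht).2, neg_le_neg (h.nest t ht).1⟩
      irr := by simp only [mir_m]; exact h.irr
      gain := fun t ht => ?_
      cr := fun t ht x1 x2 x3 x4 h0 h1 h2 h3 h4 => ?_
      lip := fun t ht x1 x2 y1 y2 h0 h1 h2 h3 h4 h5 => ?_
      gp_lt := fun K hK => neg_lt_neg_iff.1 (h.gp_lt _ hK)
      gp_sep := fun K hK K' hK' hne => ?_
      gp_sh := fun K hK m => by rw [blkM_Gp, blkM_sh]; exact h.gp_sh _ hK _
      gp_im := fun t ht K => by rw [blkM_Gp, blkM_Gp, blkM_im]; exact h.gp_im t ht _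
      gp_J := blkM_Gp.2 ((blkM_rf (B.a0, B.b0)).symm ▸ h.gp_J)
      bdL := fun t ht => ?_
      bdR := fun t ht => ?_
      rpJ := fun t ht => by
        rw [blkM_Rp, blkM_a, blkM_b]
        exact (blkM_rf (B.a t, B.b t)).symm ▸ h.rpJ t ht
      rp_mono := fun K θ θ' => h.rp_mono _ θ θ'
      rp_sh := fun K θ m hK => by rw [blkM_Rp, blkM_sh]; exact h.rp_sh _ θ _ hK
      rp_step := fun t ht K hK K1 h1 K2 h2 θ θ' a1 a2 a3 a4 a5 a6 => ?_
      τ_step := fun t ht => by rw [blkM_T]; exact h.τ_step t ht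
      tm_sh := fun K hK m => (congrArg B.tm (blkM_sh K m)).trans (h.tm_sh _ hK _)
      tm_ge := fun t ht K hK h1 h2 => ?_
      tm_lt := fun K hK h1 θ h2 => h.tm_lt _ hK (by simp only [rf]; linarith) θ h2
      lam := fun i j hij hj m => ?_ }
  · have := h.gain t ht
    simp only [mir_L, mir_R, blkM_T, blkM_a, blkM_b, blkM_γ, blkM_P, blkM_Q, neg_neg]
    exact (le_of_eq (by ring)).trans (this.trans (le_of_eq (by
      change _ = Real.exp (B.g t) * _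
      ring)))
  · obtain ⟨a1, a2⟩ := h.cr t ht (-x4) (-x3) (-x2) (-x1) (le_neg.1 h4) (neg_le_neg h3)
      (neg_le_neg h2) (neg_le_neg h1) (neg_le.1 h0)
    simp only [blkM_γ, neg_sub_neg]
    rw [min_comm]
    exact ⟨(le_of_eq (by ring)).trans (a1.trans (le_of_eq (by ring))),
      (le_of_eq (by ring)).trans (a2.trans (le_of_eq (by ring)))⟩
  · simp only [blkM_γ, neg_sub_neg, blkM_T]
    exact h.lip t ht (-x2) (-x1) (-y2) (-y1) (le_neg.1 h2) (neg_le_neg h1) (neg_le.1 h0)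
      (le_neg.1 h5) (neg_le_neg h4) (neg_le.1 h3)
  · exact (h.gp_sep _ hK _ hK' fun e => hne (Function.Involutive.injective blkM_rf e)).symm.imp
      neg_le_neg_iff.1 neg_le_neg_iff.1
  · obtain ⟨K, h1, h2, h3⟩ := h.bdR t ht
    exact ⟨rf K, by rwa [blkM_Gp, blkM_rf], by rw [blkM_p, ← h2]; rfl, by rwa [blkM_Rp, blkM_rf]⟩
  · obtain ⟨K, h1, h2, h3⟩ := h.bdL t ht
    exact ⟨rf K, by rwa [blkM_Gp, blkM_rf], by rw [blkM_q, ← h2]; rfl, by rwa [blkM_Rp, blkM_rf]⟩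
  · rw [blkM_Rp, blkM_im] at a5 ⊢
    exact h.rp_step t ht _ hK _ h2 _ h1 θ θ' (neg_le.1 a2) (le_neg.1 a1) a4 a3 a5
      (by simp only [rf]; linarith)
  · rw [blkM_p] at h1
    rw [blkM_q] at h2
    exact h.tm_ge t ht _ hK (le_neg.1 h2) (neg_le.1 h1)
  · simp only [blkM_p, blkM_q, blkM_a, blkM_b]
    have := h.lam i j hij hj (-m)
    push_cast at this
    rcases this with a1 | a1 | ⟨a1, a2⟩ | ⟨a1, a2⟩
    · exact Or.inr (Or.inl (by linarith))
    · exact Or.inl (by linarith)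
    · exact Or.inr (Or.inr (Or.inr ⟨by linarith, by linarith⟩))
    · exact Or.inr (Or.inr (Or.inl ⟨by linarith, by linarith⟩))

theorem mir_has (i : ℕ) (Φ z : ℝ) : B.mir.Has i Φ z ↔ B.Has i Φ z := by
  simp only [Has, mir_m, blkM_p, blkM_q, blkM_Gp, blkM_Rp]
  constructor <;> rintro ⟨Z, h1, h2⟩ <;> refine ⟨_, fun K hK => ?_, (blkM_sum Z).symm ▸ h2⟩ <;>
    obtain ⟨K, h3, rfl⟩ := Finset.mem_map.1 hK <;> obtain ⟨a1, a2, a3, a4, a5⟩ := h1 K h3
  · exact ⟨a1, le_neg.1 a3, neg_le.1 a2, a4, a5.trans_eq (neg_sub_neg _ _).symm⟩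
  · exact ⟨(blkM_rf K).symm ▸ a1, neg_le_neg a3, neg_le_neg a2, (blkM_rf K).symm ▸ a4,
      a5.trans_eq (neg_sub_neg _ _).symm⟩

theorem mir_good (k : ℕ) (Φ z : ℝ) : B.mir.Good C k Φ z ↔ B.Good C k Φ z := by
  simp only [Good, mir_mass, mir_has]

end BD

end Pool.Agent.Lib.MP_173a7e_an.C2
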