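import Pool.Agent.Lib.MP_173a7e_an.C2.BlkA

/-! Carrying points and gaps backward. -/

set_option autoImplicit false
set_option linter.unusedVariables false

namespace Pool.Agent.Lib.MP_173a7e_an.C2

open Set Filter Topology

namespace BD

variable {B : BD} {C σ ζ η ρ : ℝ}

theorem Ok.blkR_cost0 (h : B.Ok C σ ζ η ρ) {y : ℝ} (y0 : 0 < y) {t : ℕ} (ht : t < B.n) :
    0 ≤ B.cost σ y t := by
  have h1 := h.g0 t ht
  have h2 := (h.pos ht.le).2.2.2.1
  have h3 := h.σ0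
  unfold cost
  positivity

theorem Ok.blkR_sum0 (h : B.Ok C σ ζ η ρ) {y : ℝ} (y0 : 0 < y) (i : ℕ) {k : ℕ} (hk : k ≤ B.n) :
    0 ≤ ∑ t ∈ Finset.Ico i k, B.cost σ y t :=
  Finset.sum_nonneg fun t ht => h.blkR_cost0 y0 ((Finset.mem_Ico.1 ht).2.trans_le hk)

theorem Ok.blkR_run (h : B.Ok C σ ζ η ρ) {y : ℝ} (y0 : 0 < y) (y1 : y ≤ 1) {k : ℕ}
    (hk : k ≤ B.n) {x Y : ℝ} (H : B.ML k Y x) (d : ℕ) :
    ∀ i, i + d = k → (1 + y) * Real.exp (∑ t ∈ Finset.Ico i k, B.cost σ y t) ≤ Y →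
      B.ML i (Y * Real.exp (-∑ t ∈ Finset.Ico i k, B.cost σ y t)) x ∧
      (∀ Y', B.MU k Y' x → B.MU i (Y' * Real.exp (∑ t ∈ Finset.Ico i k, B.cost σ y t)) x) ∧
      (∀ x2, x < x2 → x2 ≤ B.a0 →
        B.ph k (x, x2) * Real.exp (-∑ t ∈ Finset.Ico i k, B.cost σ y t) ≤ B.ph i (x, x2)) := by
  induction d with
  | zero =>
    intro i hi _
    have e : i = k := by omega
    subst e
    simp only [Finset.Ico_self, Finset.sum_empty, neg_zero, Real.exp_zero, mul_one]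
    exact ⟨H, fun Y' H' => H', fun x2 _ _ => le_rfl⟩
  | succ d ih =>
    intro i hi hY
    have hik : i < k := by omega
    have hin : i < B.n := hik.trans_le hk
    have hs : ∑ t ∈ Finset.Ico i k, B.cost σ y t =
        B.cost σ y i + ∑ t ∈ Finset.Ico (i + 1) k, B.cost σ y t :=
      Finset.sum_eq_sum_Ico_succ_bot hik _
    rw [hs] at hY ⊢
    have c0 := h.blkR_cost0 y0 hin
    generalize B.cost σ y i = c at c0 hY ⊢ hs
    have hc : B.cost σ y i = c := by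
      have := Finset.sum_eq_sum_Ico_succ_bot hik (B.cost σ y)
      linarith
    have ih' := ih (i + 1) (by omega)
    generalize ∑ t ∈ Finset.Ico (i + 1) k, B.cost σ y t = S at ih' hY ⊢
    have e1 : Real.exp (c + S) = Real.exp c * Real.exp S := Real.exp_add _ _
    have e2 : Real.exp (-(c + S)) = Real.exp (-S) * Real.exp (-c) := by
      rw [← Real.exp_add]; congr 1; ring
    have e3 : Real.exp S * Real.exp (-S) = 1 := by rw [← Real.exp_add]; simp
    have p1 := Real.exp_pos S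
    have p2 := Real.exp_pos (-S)
    have p3 := Real.exp_pos (-c)
    have a1 : (1 + y) * Real.exp S ≤ Y :=
      le_trans (mul_le_mul_of_nonneg_left (Real.exp_le_exp.2 (by linarith)) (by linarith)) hY
    obtain ⟨b1, b2, b3⟩ := ih' a1
    have a2 : (1 + y) * Real.exp (B.cost σ y i) ≤ Y * Real.exp (-S) := by
      rw [hc]
      have := mul_le_mul_of_nonneg_right hY p2.le
      calc (1 + y) * Real.exp c = (1 + y) * Real.exp c * (Real.exp S * Real.exp (-S)) := by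
            rw [e3, mul_one]
        _ = (1 + y) * Real.exp (c + S) * Real.exp (-S) := by rw [e1]; ring
        _ ≤ _ := this
    refine ⟨?_, fun Y' H' => ?_, fun x2 h1 h2 => ?_⟩
    · have := h.ml_step hin y0 y1 b1 a2
      rw [hc] at this
      rw [e2, ← mul_assoc]; exact this
    · have := h.mu_step hin y0 y1 b1 a2 (b2 Y' H')
      rw [hc] at this
      rw [e1, mul_comm (Real.exp c), ← mul_assoc]; exact this
    · have := h.ph_step (K := (x, x2)) hin y0 y1 b1 a2 h1 h2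
      rw [hc] at this
      rw [e2, ← mul_assoc]
      exact le_trans (mul_le_mul_of_nonneg_right (b3 x2 h1 h2) p3.le) this

theorem blkR_exp {y S : ℝ} (y0 : 0 < y) (y1 : y ≤ 1 / 48) (hS : S ≤ y) :
    (1 + y) * Real.exp S ≤ 1 + 4 * y ∧ Real.exp S ≤ 2 := by
  have e3 : Real.exp y * Real.exp (-y) = 1 := by rw [← Real.exp_add]; simp
  have a1 : -y + 1 ≤ Real.exp (-y) := Real.add_one_le_exp _
  have p1 := Real.exp_pos y
  have a2 : Real.exp y * (1 - y) ≤ 1 := by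
    have := mul_le_mul_of_nonneg_left a1 p1.le
    linarith
  have a3 : Real.exp y ≤ 1 + 2 * y := by
    by_contra hn
    have hn' : 1 + 2 * y < Real.exp y := not_le.1 hn
    have := mul_lt_mul_of_pos_right hn' (show 0 < 1 - y by linarith)
    nlinarith
  have a4 : Real.exp S ≤ 1 + 2 * y := (Real.exp_le_exp.2 hS).trans a3
  refine ⟨?_, by linarith⟩
  have := mul_le_mul_of_nonneg_left a4 (show 0 ≤ 1 + y by linarith)
  nlinarith

theorem Ok.cost_le (h : B.Ok C σ ζ η ρ) {i k : ℕ} (hk : k ≤ B.n) (hm : B.mass i k ≤ 2 * c3 C) :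
    ∑ t ∈ Finset.Ico i k, B.cost σ (cy C) t ≤ cy C := by
  have y0 := cy_pos h.C1
  have c0 := c3_ge h.C1
  have e : ∑ t ∈ Finset.Ico i k, B.cost σ (cy C) t =
      ∑ t ∈ Finset.Ico i k, B.g t + 8 * σ * B.mass i k / cy C := by
    unfold cost mass
    rw [Finset.sum_add_distrib, Finset.mul_sum, Finset.sum_div]
  have a1 : ∑ t ∈ Finset.Ico i k, B.g t ≤ ∑ t ∈ Finset.range B.n, B.g t :=
    Finset.sum_le_sum_of_subset_of_nonneg
      (fun t ht => Finset.mem_range.2 ((Finset.mem_Ico.1 ht).2.trans_le hk))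
      (fun t ht _ => h.g0 t (Finset.mem_range.1 ht))
  have a2 : σ ≤ cy C ^ 2 / (32 * c3 C) := h.σc.trans cc_le_sq
  have a3 : σ * (32 * c3 C) ≤ cy C ^ 2 := (le_div_iff₀ (by positivity)).1 a2
  have a4 : σ * B.mass i k ≤ σ * (2 * c3 C) := mul_le_mul_of_nonneg_left hm h.σ0
  have a5 : 8 * σ * B.mass i k / cy C ≤ cy C / 2 := by
    rw [div_le_iff₀ y0]
    nlinarith
  have a6 := h.gsum
  have a7 := cc_le_cy (C := C)
  rw [e]; linarith

/-- Tracking a gap that lies to the right of a tracked point. -/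
theorem Ok.ph_track (h : B.Ok C σ ζ η ρ) {i j k : ℕ} (hij : i ≤ j) (hjk : j ≤ k) (hk : k ≤ B.n)
    (hm : B.mass i k ≤ 2 * c3 C) {x : ℝ} (H : B.ML k (1 + 4 * cy C) x) {K : ℝ × ℝ}
    (h0 : x ≤ K.1) (h1 : K.1 < K.2) (h2 : K.2 ≤ B.a0) :
    B.ML i (1 + cy C) K.1 ∧ B.ph j K / 2 ≤ B.ph i K := by
  have y0 := cy_pos h.C1
  have y1 := cy_le h.C1
  have y2 : cy C ≤ 1 := by linarith
  have hj : j ≤ B.n := hjk.trans hk
  have hs := h.cost_le hk hm
  rw [← Finset.sum_Ico_consecutive _ hij hjk] at hs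
  have s1 := h.blkR_sum0 y0 i hj
  have s2 := h.blkR_sum0 y0 j hk
  have r1 := h.blkR_run y0 y2 hk H (k - j) j (by omega) (blkR_exp y0 y1 (by linarith)).1
  have r2 := fun (Y : ℝ) (HY : B.ML j Y K.1) => h.blkR_run y0 y2 hj HY (j - i) i (by omega)
  generalize ∑ t ∈ Finset.Ico i j, B.cost σ (cy C) t = S1 at hs s1 r2
  generalize ∑ t ∈ Finset.Ico j k, B.cost σ (cy C) t = S2 at hs s2 r1
  have e1 : Real.exp (S1 + S2) = Real.exp S1 * Real.exp S2 := Real.exp_add _ _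
  have e2 : Real.exp S2 * Real.exp (-S2) = 1 := by rw [← Real.exp_add]; simp
  have e3 : Real.exp S1 * Real.exp (-S1) = 1 := by rw [← Real.exp_add]; simp
  have p1 := Real.exp_pos (-S1)
  have p2 := Real.exp_pos (-S2)
  have a1 : (1 + cy C) * Real.exp S1 ≤ (1 + 4 * cy C) * Real.exp (-S2) := by
    have := mul_le_mul_of_nonneg_right (blkR_exp y0 y1 hs).1 p2.le
    calc (1 + cy C) * Real.exp S1
        = (1 + cy C) * Real.exp S1 * (Real.exp S2 * Real.exp (-S2)) := by rw [e2, mul_one]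
      _ = (1 + cy C) * Real.exp (S1 + S2) * Real.exp (-S2) := by rw [e1]; ring
      _ ≤ _ := this
  have a2 : 1 + cy C ≤ (1 + 4 * cy C) * Real.exp (-S2) := by
    have := mul_le_mul_of_nonneg_left (Real.one_le_exp s1) (show 0 ≤ 1 + cy C by linarith)
    linarith
  have m1 : B.ML j ((1 + 4 * cy C) * Real.exp (-S2)) K.1 :=
    h.ml_right hj r1.1 (by linarith) h0 (h1.le.trans h2)
  obtain ⟨b1, -, b3⟩ := r2 _ m1 a1
  have a3 : 1 + cy C ≤ (1 + 4 * cy C) * Real.exp (-S2) * Real.exp (-S1) := by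
    have := mul_le_mul_of_nonneg_right a1 p1.le
    calc 1 + cy C = (1 + cy C) * (Real.exp S1 * Real.exp (-S1)) := by rw [e3, mul_one]
      _ = (1 + cy C) * Real.exp S1 * Real.exp (-S1) := by ring
      _ ≤ _ := this
  refine ⟨h.ml_anti (hij.trans hj) b1 a3, ?_⟩
  have b4 : B.ph j K * Real.exp (-S1) ≤ B.ph i K := b3 K.2 h1 h2
  have g := (h.ph_geo hj y0 y2 (h.ml_anti hj m1 a2) h1 h2).2.2
  have g0 : 0 ≤ B.γ j K.2 - B.γ j K.1 := sub_nonneg.2 ((B.γ j).le_iff_le.2 h1.le)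
  have g1 : 0 ≤ B.ph j K := g0.trans g
  have a4 : 1 / 2 ≤ Real.exp (-S1) := by
    have := mul_le_mul_of_nonneg_right (blkR_exp y0 y1 (show S1 ≤ cy C by linarith)).2 p1.le
    linarith
  have := mul_le_mul_of_nonneg_left a4 g1
  linarith

theorem Ok.mu_track (h : B.Ok C σ ζ η ρ) {i k : ℕ} (hik : i ≤ k) (hk : k ≤ B.n)
    (hm : B.mass i k ≤ 2 * c3 C) {x Y : ℝ} (H : B.ML k (1 + 4 * cy C) x) (H' : B.MU k Y x) :
    B.MU i (3 * Y) x := by
  have y0 := cy_pos h.C1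
  have y1 := cy_le h.C1
  have y2 : cy C ≤ 1 := by linarith
  have hs := h.cost_le hk hm
  have r1 := (h.blkR_run y0 y2 hk H (k - i) i (by omega) (blkR_exp y0 y1 hs).1).2.1 Y H'
  have a1 := (blkR_exp y0 y1 hs).2
  generalize ∑ t ∈ Finset.Ico i k, B.cost σ (cy C) t = S at r1 a1
  have key : ∀ t ≤ B.n, 0 ≤ (B.a t - B.γ t x) * B.T t ∧ 0 < B.L t * (B.q t - B.γ t x) := by
    intro t ht
    obtain ⟨q1, q2, q3, -⟩ := h.pos ht
    have q4 : 0 ≤ B.a t - B.γ t x := sub_nonneg.2 ((B.γ t).le_iff_le.2 H.1)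
    have q5 := T_eq (B := B) t
    have q6 : 0 < B.q t - B.γ t x := by
      unfold l at q2
      unfold R at q3
      linarith
    exact ⟨mul_nonneg q4 (by linarith), mul_pos q1 q6⟩
  have Y0 : 0 ≤ Y := by
    by_contra hn
    have hn' : Y ≤ 0 := (not_le.1 hn).le
    have := mul_nonpos_of_nonpos_of_nonneg hn' (key k hk).1
    unfold MU at H'
    linarith [(key k hk).2]
  unfold MU at r1 ⊢
  refine r1.trans (mul_le_mul_of_nonneg_right ?_ (key i (hik.trans hk)).1)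
  have := mul_le_mul_of_nonneg_left a1 Y0
  linarith

theorem Ok.τ_anti (h : B.Ok C σ ζ η ρ) {i j : ℕ} (hij : i ≤ j) (hj : j ≤ B.n) : B.τ j ≤ B.τ i := by
  induction j, hij using Nat.le_induction with
  | base => exact le_rfl
  | succ j hij ih =>
    have h1 := h.τ_step j hj
    obtain ⟨q1, q2, q3, -⟩ := h.pos (show j ≤ B.n by omega)
    have q5 := T_eq (B := B) j
    have := ih (by omega)
    linarith

theorem Ok.τ_gap (h : B.Ok C σ ζ η ρ) {i j : ℕ} (hij : i < j) (hj : j ≤ B.n) :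
    B.τ j + B.m i ≤ B.τ i := by
  have h1 := h.τ_step i (by omega)
  have h2 := h.τ_anti (show i + 1 ≤ j from hij) hj
  obtain ⟨q1, q2, q3, q4, q6, -⟩ := h.pos (show i ≤ B.n by omega)
  have q5 := T_eq (B := B) i
  linarith

theorem Ok.tri (h : B.Ok C σ ζ η ρ) {t : ℕ} (ht : t ≤ B.n) {K : ℝ × ℝ} (hK : K ∈ B.Gp) (m : ℤ) :
    K.2 ≤ B.p t + m ∨ B.q t + m ≤ K.1 ∨ (B.p t + m ≤ K.1 ∧ K.2 ≤ B.q t + m) := by
  obtain ⟨K1, g1, e1, -⟩ := h.bdL t ht
  obtain ⟨K2, g2, e2, -⟩ := h.bdR t ht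
  have g1' := h.gp_sh K1 g1 m
  have g2' := h.gp_sh K2 g2 m
  have l1 := h.gp_lt _ g1'
  have l2 := h.gp_lt _ g2'
  have f1 : (sh K1 m).2 = B.p t + m := by rw [← e1]; rfl
  have f2 : (sh K2 m).1 = B.q t + m := by rw [← e2]; rfl
  by_cases c1 : K = sh K1 m
  · left; rw [c1, f1]
  by_cases c2 : K = sh K2 m
  · right; left; rw [c2, f2]
  rcases h.gp_sep K hK _ g1' c1 with s1 | s1
  · left; linarith
  rcases h.gp_sep K hK _ g2' c2 with s2 | s2
  · right; right; exact ⟨by linarith, by linarith⟩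
  · right; left; linarith

theorem Ok.tm_ge' (h : B.Ok C σ ζ η ρ) {t : ℕ} (ht : t ≤ B.n) {K : ℝ × ℝ} (hK : K ∈ B.Gp) (m : ℤ)
    (h1 : B.p t + m ≤ K.1) (h2 : K.2 ≤ B.q t + m) : B.τ t ≤ B.tm K := by
  rw [← h.tm_sh K hK (-m)]
  refine h.tm_ge t ht _ (h.gp_sh K hK (-m)) ?_ ?_
  · show B.p t ≤ K.1 + ((-m : ℤ) : ℝ)
    push_cast; linarith
  · show K.2 + ((-m : ℤ) : ℝ) ≤ B.q t
    push_cast; linarith

theorem Ok.blkR_J (h : B.Ok C σ ζ η ρ) {t : ℕ} (ht : t ≤ B.n) : (B.a t, B.b t) ∈ B.Gp :=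
  (h.gp_im t ht (B.a0, B.b0)).1 h.gp_J

theorem Ok.ride1 (h : B.Ok C σ ζ η ρ) {i k : ℕ} (hik : i ≤ k) (hk : k ≤ B.n) {K : ℝ × ℝ}
    (hK : K ∈ B.Gp) (h2 : K.2 ≤ B.a0) (c : ℕ → ℝ)
    (hc : ∀ t ∈ Finset.Ico i k, ∃ K1 ∈ B.Gp, B.Rp K1 (B.τ t) ∧ K1.2 ≤ B.γ t K.1 ∧
      B.a t - K1.2 ≤ c t) {θ : ℝ} (hθ : B.τ i ≤ θ) (H : B.Rp (B.im k K) θ) :
    B.Rp (B.im i K) (θ + ∑ t ∈ Finset.Ico i k, c t) := by
  have hlt := h.gp_lt K hK
  have c0 : ∀ t ∈ Finset.Ico i k, 0 ≤ c t := by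
    intro t ht
    obtain ⟨K1, -, -, a1, a2⟩ := hc t ht
    have : B.γ t K.1 ≤ B.a t := (B.γ t).le_iff_le.2 (hlt.le.trans h2)
    linarith
  have key : ∀ d s, s + d = k → i ≤ s → B.Rp (B.im s K) (θ + ∑ t ∈ Finset.Ico s k, c t) := by
    intro d
    induction d with
    | zero =>
      intro s hs _
      have e : s = k := by omega
      subst e
      simpa using H
    | succ d ih =>
      intro s hs his
      have hsk : s < k := by omega
      have hsn : s < B.n := hsk.trans_le hk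
      obtain ⟨K1, g1, r1, a1, a2⟩ := hc s (Finset.mem_Ico.2 ⟨his, hsk⟩)
      have s0 : 0 ≤ ∑ t ∈ Finset.Ico s k, c t := Finset.sum_nonneg fun t ht =>
        c0 t (Finset.mem_Ico.2 ⟨his.trans (Finset.mem_Ico.1 ht).1, (Finset.mem_Ico.1 ht).2⟩)
      have t1 : B.τ s ≤ θ + ∑ t ∈ Finset.Ico s k, c t := by
        have := h.τ_anti his hsn.le
        linarith
      refine h.rp_step s hsn K hK K1 g1 (B.a s, B.b s) (h.blkR_J hsn.le) _ _ a1
        ((B.γ s).le_iff_le.2 h2) (h.rp_mono _ _ _ r1 t1) (h.rp_mono _ _ _ (h.rpJ s hsn.le) t1)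
        (ih (s + 1) (by omega) (by omega)) ?_
      rw [Finset.sum_eq_sum_Ico_succ_bot hsk]
      show _ + (B.a s - K1.2) ≤ _
      linarith
  exact key (k - i) i (by omega) le_rfl

theorem Ok.ride2 (h : B.Ok C σ ζ η ρ) {i k : ℕ} (hik : i ≤ k) (hk : k ≤ B.n) {K : ℝ × ℝ}
    (hK : K ∈ B.Gp) (h2 : K.2 ≤ B.a0) (h1 : ∀ t ∈ Finset.Ico i k, B.P t ≤ K.1) {r : ℝ}
    (hr : r ≤ B.mass i k) (H : B.Rp (B.im k K) (B.τ k + r)) : B.Rp (B.im i K) (B.τ i) := by
  have key : ∀ d s, s + d = k → i ≤ s →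
      B.Rp (B.im s K) (B.τ s + max 0 (r - B.mass s k)) := by
    intro d
    induction d with
    | zero =>
      intro s hs _
      have e : s = k := by omega
      subst e
      refine h.rp_mono _ _ _ H ?_
      have e0 : B.mass s s = 0 := by simp [mass]
      have := le_max_right 0 (r - B.mass s s)
      linarith
    | succ d ih =>
      intro s hs his
      have hsk : s < k := by omega
      have hsn : s < B.n := hsk.trans_le hk
      obtain ⟨K1, g1, e1, r1⟩ := h.bdL s hsn.le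
      have t1 : B.τ s ≤ B.τ s + max 0 (r - B.mass s k) := by
        have := le_max_left 0 (r - B.mass s k)
        linarith
      have a1 : K1.2 ≤ B.γ s K.1 := by
        rw [e1]; exact (B.γ s).le_iff_le.2 (h1 s (Finset.mem_Ico.2 ⟨his, hsk⟩))
      refine h.rp_step s hsn K hK K1 g1 (B.a s, B.b s) (h.blkR_J hsn.le) _ _ a1
        ((B.γ s).le_iff_le.2 h2) (h.rp_mono _ _ _ r1 t1) (h.rp_mono _ _ _ (h.rpJ s hsn.le) t1)
        (ih (s + 1) (by omega) (by omega)) ?_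
      have e2 : B.mass s k = B.m s + B.mass (s + 1) k := Finset.sum_eq_sum_Ico_succ_bot hsk _
      obtain ⟨q1, q2, q3, q4, q5, q6, -⟩ := h.pos hsn.le
      have q7 := T_eq (B := B) s
      have q8 := h.τ_step s hsn
      have q9 : max 0 (r - B.mass (s + 1) k) ≤ max 0 (r - B.mass s k) + B.m s := by
        have u1 := le_max_left 0 (r - B.mass s k)
        have u2 := le_max_right 0 (r - B.mass s k)
        exact max_le (by linarith) (by linarith)
      have q10 : B.L s = B.a s - K1.2 := by rw [e1]; rfl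
      show _ + (B.a s - K1.2) ≤ _
      linarith
  have := key (k - i) i (by omega) le_rfl
  rwa [max_eq_left (by linarith), add_zero] at this

end BD

end Pool.Agent.Lib.MP_173a7e_an.C2
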