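import Pool.Agent.Lib.MP_173a7e_an.C2.BlkG
import Pool.Agent.Lib.MP_173a7e_an.C2.BlkM

/-! The block theorem. -/

set_option autoImplicit false
set_option linter.unusedVariables false

namespace Pool.Agent.Lib.MP_173a7e_an.C2

open Set Filter Topology

namespace BD

variable {B : BD} {C σ ζ η ρ : ℝ}


theorem Ok.gen (h : B.Ok C σ ζ η ρ) {k : ℕ} (hk : k ≤ B.n) (hm : c3 C ≤ B.mass 0 k) {Φ z : ℝ}
    (hΦ : 0 ≤ Φ) (hz : 0 < z) (h1 : ρ ≤ z * η) (h2 : ρ ≤ ζ * η * (cy C * η / 12))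
    (H : B.Good C k Φ z) :
    Φ ≤ 1 ∧ ∃ k' ≤ k, B.mass k' k ≤ c3 C ∧ B.Good C k' (2 * Φ) (z * (cy C * η / 12)) := by
  rcases le_total (B.L k) (B.R k) with hL | hL
  · exact h.gen_left hk hL hm hΦ hz h1 h2 H
  · obtain ⟨a, k', b, c, d⟩ := h.mir.gen_left (k := k) hk (by rwa [mir_L, mir_R])
      (by rwa [mir_mass]) hΦ hz h1 h2 ((mir_good k Φ z).2 H)
    rw [mir_mass] at c
    exact ⟨a, k', b, c, (mir_good _ _ _).1 d⟩

theorem Ok.blkT_seed (h : B.Ok C σ ζ η ρ) : B.Good C B.n ζ ζ := by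
  intro i hi _
  obtain ⟨a1, -, a3, -⟩ := h.pos hi
  refine ⟨{(B.a i, B.b i)}, fun K hK => ?_, ?_⟩
  · rw [Finset.mem_singleton.1 hK]
    exact ⟨(h.gp_im i hi _).1 h.gp_J, (sub_pos.1 a1).le, (sub_pos.1 a3).le, h.rpJ i hi,
      h.low i hi⟩
  · rw [Finset.sum_singleton]
    exact h.low i hi

theorem Ok.block (h : B.Ok C σ ζ η ρ) {N : ℕ} (hN : 1 < 2 ^ N * ζ)
    (hρ : ρ ≤ ζ * (cc C * η) ^ (N + 2)) : B.mass 0 B.n < (N + 1) * c3 C := by
  by_contra hc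
  have hm := not_lt.1 hc
  have c0 : 0 < c3 C := by linarith [c3_ge h.C1]
  have u0 : 0 < cc C * η := mul_pos (cc_pos h.C1) h.η0
  have u1 : cc C * η ≤ η := mul_le_of_le_one_left h.η0.le (cc_le_one h.C1)
  have u2 : cc C * η ≤ cy C * η / 12 := by
    linarith [mul_le_mul_of_nonneg_right (cc_le_cy (C := C)) h.η0.le]
  have u3 : cc C * η ≤ 1 := u1.trans h.η1
  have e0 : 0 < cy C * η / 12 := u0.trans_le u2
  have r1 : ∀ g ≤ N + 1, ρ ≤ ζ * (cy C * η / 12) ^ g * η := fun g hg => by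
    rw [mul_assoc]
    refine hρ.trans (mul_le_mul_of_nonneg_left ?_ h.ζ0.le)
    refine (pow_le_pow_of_le_one u0.le u3 (show g + 1 ≤ N + 2 by omega)).trans ?_
    rw [pow_succ]
    exact mul_le_mul (pow_le_pow_left₀ u0.le u2 g) u1 u0.le (pow_pos e0 g).le
  have r2 : ρ ≤ ζ * η * (cy C * η / 12) := by
    have := r1 1 (by omega)
    rw [pow_one] at this
    linarith
  have step : ∀ g ≤ N, ∀ k ≤ B.n, B.mass k B.n ≤ g * c3 C →
      B.Good C k (2 ^ g * ζ) (ζ * (cy C * η / 12) ^ g) → 2 ^ g * ζ ≤ 1 ∧ ∃ k' ≤ k,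
        B.mass k' k ≤ c3 C ∧
          B.Good C k' (2 * (2 ^ g * ζ)) (ζ * (cy C * η / 12) ^ g * (cy C * η / 12)) := by
    intro g hg k hk m1 G
    have g1 : (g : ℝ) * c3 C ≤ N * c3 C :=
      mul_le_mul_of_nonneg_right (Nat.cast_le.2 hg) c0.le
    refine h.gen hk ?_ (mul_pos (pow_pos two_pos g) h.ζ0).le (mul_pos h.ζ0 (pow_pos e0 g))
      (r1 g (by omega)) r2 G
    linarith [mass_add (B := B) (Nat.zero_le k) hk]
  have key : ∀ g ≤ N, ∃ k ≤ B.n, B.mass k B.n ≤ g * c3 C ∧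
      B.Good C k (2 ^ g * ζ) (ζ * (cy C * η / 12) ^ g) := by
    intro g
    induction g with
    | zero =>
      intro _
      refine ⟨B.n, le_rfl, ?_, ?_⟩
      · rw [mass, Finset.Ico_self, Finset.sum_empty, Nat.cast_zero, zero_mul]
      · rw [pow_zero, pow_zero, one_mul, mul_one]
        exact h.blkT_seed
    | succ g ih =>
      intro hg
      obtain ⟨k, hk, m1, G⟩ := ih (by omega)
      obtain ⟨-, k', k1, m2, G'⟩ := step g (by omega) k hk m1 G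
      refine ⟨k', k1.trans hk, ?_, ?_⟩
      · rw [← mass_add k1 hk, Nat.cast_succ]
        linarith
      · rw [pow_succ' 2 g, mul_assoc, pow_succ, ← mul_assoc ζ]
        exact G'
  obtain ⟨k, hk, m1, G⟩ := key N le_rfl
  exact absurd (step N le_rfl k hk m1 G).1 (not_le.2 hN)

end BD

end Pool.Agent.Lib.MP_173a7e_an.C2
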