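import Pool.Agent.Lib.MP_173a7e_an.C2.Int

/-! A greedy schedule on a locally finite graph. -/

set_option autoImplicit false

namespace Pool.Agent.Lib.MP_173a7e_an.C2

open Set Filter Topology

theorem dep_choice {α : Type} [Nonempty α] (P : ℕ → (ℕ → α) → α → Prop)
    (hloc : ∀ n f g, (∀ i < n, f i = g i) → ∀ a, P n f a → P n g a) (hex : ∀ n f, ∃ a, P n f a) :
    ∃ f : ℕ → α, ∀ n, P n f (f n) := by
  classical
  choose c hc using hex
  obtain ⟨a0⟩ := ‹Nonempty α›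
  let F : ∀ n : ℕ, (∀ m, m < n → α) → α := fun n g => c n fun i => if h : i < n then g i h else a0
  refine ⟨wellFounded_lt.fix F, fun n => ?_⟩
  rw [WellFounded.fix_eq]
  exact hloc n (fun i => if _ : i < n then wellFounded_lt.fix F i else a0) _
    (fun i hi => dif_pos hi) _ (hc n _)

/-- One step of the greedy choice: level sets `L`, times `T`, new vertex and new time `a`. -/
def greedy_step {X : Type} [DecidableEq X] (Nb : X → Finset X) (w : Finset X → X → ℝ) (n : ℕ)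
    (L : ℕ → Finset X) (T : ℕ → ℝ) (a : X × ℝ) : Prop :=
  a.1 ∉ (Finset.range (n + 1)).biUnion L ∧ ∃ k ≤ n, (∃ v ∈ Nb a.1, v ∈ L k) ∧
    a.2 = max (T n) (T k + w ((Finset.range (n + 1)).biUnion L) a.1) ∧
    ∀ u ∉ (Finset.range (n + 1)).biUnion L, ∀ j ≤ n, (∃ v ∈ Nb u, v ∈ L j) →
      a.2 ≤ max (T n) (T j + w ((Finset.range (n + 1)).biUnion L) u) ∧
      (max (T n) (T j + w ((Finset.range (n + 1)).biUnion L) u) ≤ a.2 → k ≤ j)

theorem greedy_loc {X : Type} [DecidableEq X] {Nb : X → Finset X} {w : Finset X → X → ℝ} {n : ℕ}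
    {L L' : ℕ → Finset X} {T T' : ℕ → ℝ} {a : X × ℝ} (hL : ∀ k ≤ n, L k = L' k)
    (hT : ∀ k ≤ n, T k = T' k) (h : greedy_step Nb w n L T a) : greedy_step Nb w n L' T' a := by
  have e : (Finset.range (n + 1)).biUnion L = (Finset.range (n + 1)).biUnion L' :=
    Finset.biUnion_congr rfl fun k hk => hL k (Nat.lt_succ_iff.1 (Finset.mem_range.1 hk))
  obtain ⟨h1, k, hk, h2, h3, h4⟩ := h
  rw [e] at h1 h3 h4
  refine ⟨h1, k, hk, hL k hk ▸ h2, hT n le_rfl ▸ hT k hk ▸ h3, fun u hu j hj hv => ?_⟩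
  rw [← hT n le_rfl, ← hT j hj]
  exact h4 u hu j hj (hL j hj ▸ hv)

theorem greedy_ex {X : Type} [Infinite X] [DecidableEq X] {Nb : X → Finset X}
    (hsym : ∀ u v, v ∈ Nb u → u ∈ Nb v) (w : Finset X → X → ℝ) (n : ℕ) (L : ℕ → Finset X)
    (conn : ∀ P : X → Prop, (∀ v ∈ L 0, P v) → (∀ u v, v ∈ Nb u → P v → P u) → ∀ u, P u)
    (T : ℕ → ℝ) : ∃ a, greedy_step Nb w n L T a := by
  obtain ⟨O, hO⟩ : ∃ O, O = (Finset.range (n + 1)).biUnion L := ⟨_, rfl⟩
  have mem : ∀ v, v ∈ O ↔ ∃ k ≤ n, v ∈ L k := fun v => by simp [hO]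
  let C : Set (X × ℕ) := {c | c.1 ∉ O ∧ c.2 ≤ n ∧ ∃ v ∈ Nb c.1, v ∈ L c.2}
  have hf : C.Finite := by
    refine (((O.biUnion Nb) ×ˢ Finset.range (n + 1)).finite_toSet).subset ?_
    rintro ⟨u, k⟩ ⟨-, hk, v, hv, hv'⟩
    simp only [Finset.coe_product, mem_prod, Finset.mem_coe, Finset.mem_biUnion, Finset.mem_range]
    exact ⟨⟨v, (mem v).2 ⟨k, hk, hv'⟩, hsym _ _ hv⟩, Nat.lt_succ_iff.2 hk⟩
  have hn : C.Nonempty := by
    by_contra hc
    obtain ⟨u, hu⟩ := Infinite.exists_notMem_finset O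
    refine hu (conn (· ∈ O) (fun v hv => (mem v).2 ⟨0, Nat.zero_le _, hv⟩) (fun x v hv h => ?_) u)
    by_contra hx
    obtain ⟨k, hk, h⟩ := (mem v).1 h
    exact hc ⟨(x, k), hx, hk, v, hv, h⟩
  obtain ⟨⟨u, k⟩, ⟨h1, h2, h3⟩, h4⟩ := Set.exists_min_image C
    (fun c => toLex (max (T n) (T c.2 + w O c.1), c.2)) hf hn
  refine ⟨(u, max (T n) (T k + w O u)), hO ▸ h1, k, h2, h3, by rw [← hO], fun x hx j hj hv => ?_⟩
  rw [← hO] at hx ⊢
  rcases Prod.Lex.toLex_le_toLex.1 (h4 (x, j) ⟨hx, hj, hv⟩) with h | h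
  · exact ⟨h.le, fun h' => absurd h (not_lt.2 h')⟩
  · exact ⟨h.1.le, fun _ => h.2⟩

theorem greedy {X : Type} [Infinite X] (Nb : X → Finset X) (hsym : ∀ u v, v ∈ Nb u → u ∈ Nb v)
    (R : Finset X)
    (conn : ∀ P : X → Prop, (∀ v ∈ R, P v) → (∀ u v, v ∈ Nb u → P v → P u) → ∀ u, P u)
    (w : Finset X → X → ℝ) {ε W : ℝ} (hε : 0 < ε)
    (hw : ∀ O, R ⊆ O → ∀ u, u ∉ O → ε ≤ w O u ∧ w O u ≤ W) :
    ∃ (rk : X → ℕ) (T : ℕ → ℝ) (O : ℕ → Finset X), T 0 = 0 ∧ Monotone T ∧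
      (∀ n v, v ∈ O n ↔ rk v ≤ n) ∧ (∀ v, rk v = 0 ↔ v ∈ R) ∧
      (∀ u n, rk u = n + 1 → ∃ v ∈ Nb u, rk v ≤ n ∧ T (rk v) + w (O n) u ≤ T (n + 1) ∧
        ∀ u', n < rk u' → w (O n) u' ≤ w (O n) u → ∀ v' ∈ Nb u', rk v ≤ rk v') ∧
      ∀ n u, n < rk u → ∀ v ∈ Nb u, rk v ≤ n → T (n + 1) ≤ max (T n) (T (rk v) + w (O n) u) := by
  classical
  obtain ⟨f, hf⟩ := dep_choice (α := X × ℝ) (fun n f a => greedy_step Nb w n
      (fun k => Nat.casesOn k R fun i => {(f i).1}) (fun k => Nat.casesOn k 0 fun i => (f i).2) a)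
    (fun n f g h a => greedy_loc
      (fun k hk => by cases k with
        | zero => rfl
        | succ i => simp only [h i hk])
      (fun k hk => by cases k with
        | zero => rfl
        | succ i => simp only [h i hk]))
    (fun n f => greedy_ex hsym w n _ conn _)
  obtain ⟨L, hL⟩ : ∃ L : ℕ → Finset X, L = fun k => Nat.casesOn k R fun i => {(f i).1} := ⟨_, rfl⟩
  obtain ⟨T, hT⟩ : ∃ T : ℕ → ℝ, T = fun k => Nat.casesOn k 0 fun i => (f i).2 := ⟨_, rfl⟩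
  rw [← hL, ← hT] at hf
  have L0 : L 0 = R := by rw [hL]; rfl
  have L1 : ∀ n v, v ∈ L (n + 1) ↔ v = (f n).1 := fun n v => by rw [hL]; exact Finset.mem_singleton
  have T0 : T 0 = 0 := by rw [hT]; rfl
  have T1 : ∀ n, (f n).2 = T (n + 1) := fun n => by rw [hT]
  clear hL hT
  obtain ⟨O, hO⟩ : ∃ O : ℕ → Finset X, ∀ n, O n = (Finset.range (n + 1)).biUnion L :=
    ⟨_, fun _ => rfl⟩
  have mem : ∀ n v, v ∈ O n ↔ ∃ k ≤ n, v ∈ L k := fun n v => by simp [hO]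
  simp only [greedy_step, ← hO, T1] at hf
  have hw' : ∀ n u, u ∉ O n → ε ≤ w (O n) u ∧ w (O n) u ≤ W := fun n =>
    hw _ fun v hv => (mem n v).2 ⟨0, Nat.zero_le _, L0 ▸ hv⟩
  have mono : Monotone T := monotone_nat_of_le_succ fun n => by
    obtain ⟨-, k, -, -, h, -⟩ := hf n
    rw [h]; exact le_max_left _ _
  have lt : ∀ v j k, j < k → v ∈ L j → v ∉ L k := fun v j k h h1 h2 => by
    obtain ⟨n, rfl⟩ := Nat.exists_eq_succ_of_ne_zero (Nat.ne_zero_of_lt h)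
    exact (hf n).1 ((L1 n v).1 h2 ▸ (mem n v).2 ⟨j, Nat.lt_succ_iff.1 h, h1⟩)
  have uniq : ∀ v j k, v ∈ L j → v ∈ L k → j = k := fun v j k h1 h2 => by
    rcases lt_trichotomy j k with h | h | h
    · exact absurd h2 (lt v j k h h1)
    · exact h
    · exact absurd h1 (lt v k j h h2)
  have inj : Function.Injective fun n => (f n).1 := fun i j h =>
    Nat.succ_injective (uniq _ _ _ ((L1 i _).2 rfl) ((L1 j _).2 h))
  have fin : ∀ d : ℕ, {n | T n < d * ε}.Finite := fun d => by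
    induction d with
    | zero =>
      refine finite_empty.subset fun n hn => ?_
      have := mono (Nat.zero_le n)
      simp only [mem_ofPred_eq, Nat.cast_zero, zero_mul] at hn
      linarith
    | succ d ih =>
      have h1 := ((ih.biUnion fun k _ => ((L k).biUnion Nb).finite_toSet).preimage
        inj.injOn).image Nat.succ
      refine (h1.insert 0).subset fun n hn => ?_
      cases n with
      | zero => exact mem_insert _ _
      | succ n =>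
        refine mem_insert_of_mem _ ⟨n, ?_, rfl⟩
        obtain ⟨h2, k, -, ⟨v, hv, hv'⟩, h3, -⟩ := hf n
        have h4 := (hw' n _ h2).1
        have h5 := h3 ▸ le_max_right (T n) (T k + w (O n) (f n).1)
        simp only [mem_ofPred_eq, Nat.cast_succ] at hn
        simp only [mem_preimage, mem_iUnion, mem_ofPred_eq, Finset.mem_coe, Finset.mem_biUnion]
        exact ⟨k, by linarith, v, hv', hsym _ _ hv⟩
  have all : ∀ u, ∃ k, u ∈ L k := by
    refine conn _ (fun v hv => ⟨0, L0 ▸ hv⟩) fun u v hv ⟨k, hk⟩ => ?_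
    by_contra hu
    have h1 : ∀ n, u ∉ O n := fun n h => hu ((mem n u).1 h |>.imp fun _ h => h.2)
    have h2 : ∀ n, k ≤ n → T n ≤ T k + W := fun n hn => by
      induction n, hn using Nat.le_induction with
      | base => linarith [(hw' 0 u (h1 0)).1, (hw' 0 u (h1 0)).2]
      | succ n hn ih =>
        obtain ⟨-, j, -, -, -, h⟩ := hf n
        exact (h u (h1 n) k hn ⟨v, hv, hk⟩).1.trans
          (max_le ih (by linarith [(hw' n u (h1 n)).2]))
    obtain ⟨d, hd⟩ := exists_nat_gt ((T k + W) / ε)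
    rw [div_lt_iff₀ hε] at hd
    exact Ici_infinite k ((fin d).subset fun n hn => (h2 n hn).trans_lt hd)
  choose rk hrk using all
  have rkL : ∀ v k, v ∈ L k → rk v = k := fun v k h => uniq v _ _ (hrk v) h
  have rkO : ∀ n v, v ∈ O n ↔ rk v ≤ n := fun n v => by
    rw [mem]
    exact ⟨fun ⟨k, h1, h2⟩ => rkL v k h2 ▸ h1, fun h => ⟨_, h, hrk v⟩⟩
  refine ⟨rk, T, O, T0, mono, rkO, fun v => ⟨fun h => L0 ▸ h ▸ hrk v, fun h => rkL v 0 (L0 ▸ h)⟩,
    fun u n hu => ?_, fun n u hu v hv h => ?_⟩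
  · obtain rfl : u = (f n).1 := (L1 n u).1 (hu ▸ hrk u)
    obtain ⟨-, k, hk, ⟨v, hv, hv'⟩, h3, h4⟩ := hf n
    obtain rfl := rkL v k hv'
    refine ⟨v, hv, hk, h3 ▸ le_max_right _ _, fun u' h5 h6 v' h7 => ?_⟩
    by_contra h8
    have h9 := (not_le.1 h8).le
    refine h8 ((h4 u' (fun h => not_le.2 h5 ((rkO n u').1 h)) _ (h9.trans hk)
      ⟨v', h7, hrk v'⟩).2 ?_)
    rw [h3]
    exact max_le_max le_rfl (add_le_add (mono h9) h6)
  · obtain ⟨-, j, -, -, -, h4⟩ := hf n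
    exact (h4 u (fun h => not_le.2 hu ((rkO n u).1 h)) _ h ⟨v, hv, hrk v⟩).1

end Pool.Agent.Lib.MP_173a7e_an.C2
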