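import Pool.Agent.Lib.MP_173a7e_an.C2.Tree
import Pool.Agent.Lib.MP_173a7e_an.C2.Greedy

/-! Existence of the schedule. -/

set_option autoImplicit false
set_option linter.unusedVariables false
set_option linter.unusedSectionVars false

namespace Pool.Agent.Lib.MP_173a7e_an.C2

open Set Filter Topology
open scoped Pointwise

/-- A nonempty locally finite set of reals invariant under the integers. -/
structure SxPer (L : Set ℝ) : Prop where
  ne : L.Nonempty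
  int : ∀ a ∈ L, ∀ n : ℤ, a + n ∈ L
  fin : ∀ x y : ℝ, (L ∩ Icc x y).Finite

/-- The nearest point of `L` on the left. -/
noncomputable def sxDn (L : Set ℝ) (j : ℝ) : ℝ := sSup (L ∩ Iio j)

/-- The nearest point of `L` on the right. -/
noncomputable def sxUp (L : Set ℝ) (j : ℝ) : ℝ := sInf (L ∩ Ioi j)

theorem SxPer.dn {L : Set ℝ} (h : SxPer L) (j : ℝ) : IsGreatest (L ∩ Iio j) (sxDn L j) := by
  obtain ⟨a, ha⟩ := h.ne
  have h1 : a + ((⌊j - a⌋ - 1 : ℤ) : ℝ) < j := by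
    have := Int.floor_le (j - a)
    push_cast; linarith
  have h2 := h.int a ha (⌊j - a⌋ - 1)
  generalize a + ((⌊j - a⌋ - 1 : ℤ) : ℝ) = c at h1 h2
  have hf : (L ∩ Ico c j).Finite := (h.fin c j).subset fun x hx => ⟨hx.1, hx.2.1, hx.2.2.le⟩
  obtain ⟨m, hm, hmax⟩ := Set.exists_max_image _ id hf ⟨c, h2, le_rfl, h1⟩
  have hg : IsGreatest (L ∩ Iio j) m := ⟨⟨hm.1, hm.2.2⟩, fun x hx => by
    rcases le_total c x with e | e
    · exact hmax x ⟨hx.1, e, hx.2⟩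
    · exact e.trans hm.2.1⟩
  rw [sxDn, hg.csSup_eq]; exact hg

theorem SxPer.up {L : Set ℝ} (h : SxPer L) (j : ℝ) : IsLeast (L ∩ Ioi j) (sxUp L j) := by
  obtain ⟨a, ha⟩ := h.ne
  have h1 : j < a + ((⌊j - a⌋ + 1 : ℤ) : ℝ) := by
    have := Int.lt_floor_add_one (j - a)
    push_cast; linarith
  have h2 := h.int a ha (⌊j - a⌋ + 1)
  generalize a + ((⌊j - a⌋ + 1 : ℤ) : ℝ) = c at h1 h2
  have hf : (L ∩ Ioc j c).Finite := (h.fin j c).subset fun x hx => ⟨hx.1, hx.2.1.le, hx.2.2⟩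
  obtain ⟨m, hm, hmin⟩ := Set.exists_min_image _ id hf ⟨c, h2, h1, le_rfl⟩
  have hg : IsLeast (L ∩ Ioi j) m := ⟨⟨hm.1, hm.2.1⟩, fun x hx => by
    rcases le_total x c with e | e
    · exact hmin x ⟨hx.1, hx.2, e⟩
    · exact hm.2.2.trans e⟩
  rw [sxUp, hg.csInf_eq]; exact hg

theorem SxPer.dn_int {L : Set ℝ} (h : SxPer L) (j : ℝ) (n : ℤ) :
    sxDn L (j + n) = sxDn L j + n := by
  obtain ⟨⟨h1, h2⟩, h3⟩ := h.dn j
  refine (h.dn _).unique ⟨⟨h.int _ h1 n, by simpa using h2⟩, fun x hx => ?_⟩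
  have h4 : x < j + n := hx.2
  have := h3 (a := x + ((-n : ℤ) : ℝ)) ⟨h.int _ hx.1 _, by
    show _ < j
    push_cast; linarith⟩
  push_cast at this; linarith

theorem SxPer.up_int {L : Set ℝ} (h : SxPer L) (j : ℝ) (n : ℤ) :
    sxUp L (j + n) = sxUp L j + n := by
  obtain ⟨⟨h1, h2⟩, h3⟩ := h.up j
  refine (h.up _).unique ⟨⟨h.int _ h1 n, by simpa using h2⟩, fun x hx => ?_⟩
  have h4 : j + n < x := hx.2
  have := h3 (a := x + ((-n : ℤ) : ℝ)) ⟨h.int _ hx.1 _, by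
    show j < _
    push_cast; linarith⟩
  push_cast at this; linarith

theorem SxPer.not_between {L : Set ℝ} (h : SxPer L) {j k : ℝ} (hj : j ∉ L)
    (h1 : sxDn L j < k) (h2 : k < sxUp L j) : k ∉ L := by
  intro hk
  rcases lt_trichotomy k j with c | c | c
  · exact absurd ((h.dn j).2 ⟨hk, c⟩) (not_le.2 h1)
  · exact hj (c ▸ hk)
  · exact absurd ((h.up j).2 ⟨hk, c⟩) (not_le.2 h2)

theorem SxPer.same {L : Set ℝ} (h : SxPer L) {j k : ℝ} (hj : j ∉ L)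
    (h1 : sxDn L j < k) (h2 : k < sxUp L j) : sxDn L k = sxDn L j ∧ sxUp L k = sxUp L j := by
  constructor
  · refine (h.dn _).unique ⟨⟨(h.dn j).1.1, h1⟩, fun x hx => ?_⟩
    by_contra c
    exact h.not_between hj (not_le.1 c) (lt_trans hx.2 h2) hx.1
  · refine (h.up _).unique ⟨⟨(h.up j).1.1, h2⟩, fun x hx => ?_⟩
    by_contra c
    exact h.not_between hj (lt_trans h1 hx.2) (not_le.1 c) hx.1

theorem SxPer.up_le {L : Set ℝ} (h : SxPer L) {j : ℝ} (hj : j ∉ L) :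
    sxUp L j ≤ sxDn L j + 1 := by
  obtain ⟨⟨h1, -⟩, h3⟩ := h.dn j
  have h4 : sxDn L j + 1 ∈ L := by simpa using h.int _ h1 1
  refine (h.up j).2 ⟨h4, ?_⟩
  rcases lt_trichotomy (sxDn L j + 1) j with c | c | c
  · have := h3 ⟨h4, c⟩
    linarith
  · exact absurd (c ▸ h4) hj
  · exact c

variable {G : Type} [Group G] [MulAction G ℝ]

variable [SmoothAct G] {A : Cantor G} {S : Finset G} {β ε : ℝ}

/-- Classes of the relevant gaps modulo the integers. -/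
def SxY (A : Cantor G) (β : ℝ) : Type := {x : ℝ // x ∈ Jg A β ∧ 0 ≤ x ∧ x < 1}

theorem sx_fract (j : ℝ) : Int.fract j = j + ((-⌊j⌋ : ℤ) : ℝ) := by
  rw [Int.fract]; push_cast; ring

/-- The class of a relevant gap. -/
noncomputable def sxCl (j : ℝ) (hj : j ∈ Jg A β) : SxY A β :=
  ⟨Int.fract j, by rw [sx_fract]; exact Jg.int hj _, Int.fract_nonneg j, Int.fract_lt_one j⟩

theorem sxCl_val (u : SxY A β) : sxCl u.1 u.2.1 = u := Subtype.ext (Int.fract_eq_self.2 u.2.2)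

theorem sxCl_int {j : ℝ} (hj : j ∈ Jg A β) (n : ℤ) : sxCl (j + n) (Jg.int hj n) = sxCl j hj :=
  Subtype.ext (Int.fract_add_intCast j n)

theorem sxCl_act {j : ℝ} (hj : j ∈ Jg A β) (s : G) :
    sxCl (s • (sxCl j hj).1) (Jg.act (sxCl j hj).2.1 s) = sxCl (s • j) (Jg.act hj s) :=
  Subtype.ext (Cantor.act_fract s j)

theorem sxCl_len {j : ℝ} (hj : j ∈ Jg A β) : A.len (sxCl j hj).1 = A.len j := by
  show A.len (Int.fract j) = _
  rw [sx_fract, A.len_int]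

/-- The lifts of a finite set of classes. -/
def sxLf (O : Finset (SxY A β)) : Set ℝ := {a | ∃ h : a ∈ Jg A β, sxCl a h ∈ O}

theorem sxLf_per {O : Finset (SxY A β)} (hO : O.Nonempty) : SxPer (sxLf O) := by
  refine ⟨?_, ?_, fun x y => ?_⟩
  · obtain ⟨u, hu⟩ := hO
    exact ⟨u.1, u.2.1, by rwa [sxCl_val]⟩
  · rintro a ⟨h, ha⟩ n
    exact ⟨Jg.int h n, by rwa [sxCl_int]⟩
  · refine ((O.finite_toSet.prod (Set.finite_Icc ⌊x⌋ ⌊y⌋)).image
      (fun p => p.1.1 + (p.2 : ℝ))).subset ?_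
    rintro a ⟨⟨h, ha⟩, h1, h2⟩
    exact ⟨(sxCl a h, ⌊a⌋), ⟨ha, Int.floor_le_floor h1, Int.floor_le_floor h2⟩,
      Int.fract_add_floor a⟩

/-- The length of the cell of a gap. -/
noncomputable def sxWid (O : Finset (SxY A β)) (j : ℝ) : ℝ :=
  sxUp (sxLf O) j - nxt A.Λ (sxDn (sxLf O) j)

theorem sxWid_cl {O : Finset (SxY A β)} (hO : O.Nonempty) {j : ℝ} (hj : j ∈ Jg A β) :
    sxWid O (sxCl j hj).1 = sxWid O j := by
  show sxWid O (Int.fract j) = _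
  rw [sx_fract, sxWid, (sxLf_per hO).up_int, (sxLf_per hO).dn_int, A.nxt_int, sxWid]
  ring

theorem sx_infinite {δ : ℝ} (hE : Exp A δ) (hβδ : β ≤ δ) : Infinite (SxY A β) := by
  rw [← not_finite_iff_infinite]
  intro hf
  obtain ⟨κ, h0, hκ⟩ := fin_min (univ : Set (SxY A β)) Set.finite_univ
    (P := fun v κ => κ ≤ A.len v.1) (fun _ _ _ _ h h' => le_trans h h')
    (fun v _ => ⟨_, A.len_pos v.2.1.1, le_rfl⟩)
  obtain ⟨w, hw⟩ := A.ne
  obtain ⟨p, hp, h1, h2, g, hg⟩ := hE (w - κ / 2) (w + κ / 2) ⟨w, hw, by linarith, by linarith⟩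
  have := hκ (sxCl p ⟨hp, g, hβδ.trans hg⟩) (mem_univ _)
  rw [sxCl_len, Cantor.len] at this
  linarith

theorem exists_sch (A : Cantor G) (Γ : Gen G) {δ β ε : ℝ} (hE : Exp A δ) (hβ : 0 < β) (hβδ : β ≤ δ)
    (hε : 0 < ε) : Nonempty (Sch A Γ.S β ε) := by
  classical
  haveI := sx_infinite (β := β) hE hβδ
  have hRf : {v : SxY A β | β ≤ A.len v.1}.Finite := by
    refine Set.Finite.of_finite_image (f := fun v : SxY A β => v.1)
      ((A.bigR_finite hβ 1).subset ?_) (fun _ _ _ _ h => Subtype.ext h)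
    rintro _ ⟨v, hv, rfl⟩
    exact ⟨v.2.1.1, hv, abs_le.2 ⟨by linarith [v.2.2.1], v.2.2.2.le⟩⟩
  obtain ⟨R, hR⟩ : ∃ R : Finset (SxY A β), ∀ v, v ∈ R ↔ β ≤ A.len v.1 :=
    ⟨hRf.toFinset, fun v => hRf.mem_toFinset⟩
  have hRne : R.Nonempty := by
    obtain ⟨w, hw⟩ := A.ne
    obtain ⟨p, hp, -, -, g, hg⟩ := hE (w - 1) (w + 1) ⟨w, hw, by linarith, by linarith⟩
    have hj : g • p ∈ Jg A β := ⟨A.act_LE g hp, 1, by rw [one_smul]; exact hβδ.trans hg⟩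
    exact ⟨sxCl _ hj, (hR _).2 (by rw [sxCl_len]; exact hβδ.trans hg)⟩
  obtain ⟨Nb, hNb⟩ : ∃ Nb : SxY A β → Finset (SxY A β),
      ∀ u v, v ∈ Nb u ↔ ∃ s ∈ Γ.S, sxCl (s • u.1) (Jg.act u.2.1 s) = v :=
    ⟨fun u => Γ.S.image fun s => sxCl (s • u.1) (Jg.act u.2.1 s), fun u v => Finset.mem_image⟩
  have hNc : ∀ j (hj : j ∈ Jg A β), ∀ s ∈ Γ.S, sxCl (s • j) (Jg.act hj s) ∈ Nb (sxCl j hj) :=
    fun j hj s hs => (hNb _ _).2 ⟨s, hs, sxCl_act hj s⟩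
  have hsym : ∀ u v, v ∈ Nb u → u ∈ Nb v := by
    intro u v h
    obtain ⟨s, hs, rfl⟩ := (hNb _ _).1 h
    have := hNc _ (Jg.act u.2.1 s) s⁻¹ (Γ.inv s hs)
    simp only [inv_smul_smul] at this
    rwa [sxCl_val] at this
  have conn : ∀ P : SxY A β → Prop, (∀ v ∈ R, P v) → (∀ u v, v ∈ Nb u → P v → P u) →
      ∀ u, P u := by
    intro P h0 h1 u
    have key : ∀ n : ℕ, ∀ g ∈ (Γ.S : Set G) ^ n, ∀ j (hj : j ∈ Jg A β), β ≤ A.len (g • j) →
        P (sxCl j hj) := by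
      intro n
      induction n with
      | zero =>
        intro g hg j hj h
        rw [pow_zero, Set.mem_one] at hg
        rw [hg, one_smul] at h
        exact h0 _ ((hR _).2 (by rwa [sxCl_len]))
      | succ n ih =>
        intro g hg j hj h
        rw [pow_succ] at hg
        obtain ⟨g', hg', s, hs, rfl⟩ := Set.mem_mul.1 hg
        rw [mul_smul] at h
        exact h1 _ _ (hNc j hj s hs) (ih g' hg' _ (Jg.act hj s) h)
    obtain ⟨g, hg⟩ := u.2.1.2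
    obtain ⟨n, hn⟩ := Γ.gen g
    have := key n g hn u.1 u.2.1 hg
    rwa [sxCl_val] at this
  obtain ⟨rk, T, O, T0, Tm, hO, hrk0, hpar, hs3⟩ := greedy Nb hsym R conn
    (fun O u => max ε (sxWid O u.1)) (W := max ε 1) hε (fun O hO u hu => ⟨le_max_left _ _, by
      refine max_le_max le_rfl ?_
      have h1 := (sxLf_per (hRne.mono hO)).up_le (j := u.1) (by
        rintro ⟨h, hh⟩
        exact hu (by rwa [← sxCl_val u]))
      have h2 := A.le_nxt (sxDn (sxLf O) u.1)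
      rw [sxWid]; linarith⟩)
  obtain ⟨r, hr⟩ : ∃ r : ℝ → ℕ, ∀ j (hj : j ∈ Jg A β), r j = rk (sxCl j hj) :=
    ⟨fun j => if h : j ∈ Jg A β then rk (sxCl j h) else 0, fun j hj => dif_pos hj⟩
  have hne : ∀ n, (O n).Nonempty := fun n => by
    obtain ⟨v, hv⟩ := hRne
    exact ⟨v, (hO n v).2 (by rw [(hrk0 v).2 hv]; exact Nat.zero_le _)⟩
  have hP : ∀ n, SxPer (sxLf (O n)) := fun n => sxLf_per (hne n)
  have hL : ∀ n a, a ∈ sxLf (O n) ↔ a ∈ Jg A β ∧ r a ≤ n := fun n a =>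
    ⟨fun ⟨h, ha⟩ => ⟨h, by rw [hr a h]; exact (hO _ _).1 ha⟩,
      fun ⟨h, ha⟩ => ⟨h, (hO _ _).2 (by rwa [← hr a h])⟩⟩
  have hex : ∀ j, j ∈ Jg A β → r j ≠ 0 → ∃ s, s ∈ Γ.S ∧ r (s • j) ≤ r j - 1 ∧
      T (r (s • j)) + sxWid (O (r j - 1)) j ≤ T (r j) ∧
      ∀ k ∈ Jg A β, r j - 1 < r k → sxWid (O (r j - 1)) k = sxWid (O (r j - 1)) j →
        r (s • j) ≤ r (s • k) := by
    intro j hj h0
    have e : r j - 1 + 1 = r j := by omega
    obtain ⟨v, hv, h1, h2, h3⟩ := hpar (sxCl j hj) (r j - 1) (by rw [e, hr j hj])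
    obtain ⟨s, hs, rfl⟩ := (hNb _ _).1 hv
    rw [sxCl_act, ← hr] at h1 h2 h3
    rw [e, sxWid_cl (hne _)] at h2
    refine ⟨s, hs, h1, by linarith [le_max_right ε (sxWid (O (r j - 1)) j)], fun k hk h4 h5 => ?_⟩
    have := h3 (sxCl k hk) (by rwa [← hr]) (by
      rw [sxWid_cl (hne _), sxWid_cl (hne _), h5]) _ (hNc k hk s hs)
    rwa [← hr] at this
  choose! par hp1 hp2 hp3 hp4 using hex
  have hnot : ∀ j, r j ≠ 0 → j ∉ sxLf (O (r j - 1)) := fun j h0 h => by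
    have := ((hL _ _).1 h).2
    omega
  have hbet : ∀ j, ∀ k ∈ Jg A β, nxt A.Λ (sxDn (sxLf (O (r j - 1))) j) ≤ k →
      nxt A.Λ k ≤ sxUp (sxLf (O (r j - 1))) j →
      sxDn (sxLf (O (r j - 1))) j < k ∧ k < sxUp (sxLf (O (r j - 1))) j := fun j k hk h1 h2 =>
    ⟨(A.lt_nxt ((hL _ _).1 ((hP _).dn j).1.1).1.1).trans_le h1, (A.lt_nxt hk.1).trans_le h2⟩
  have hcell : ∀ j, r j ≠ 0 → ∀ k ∈ Jg A β, nxt A.Λ (sxDn (sxLf (O (r j - 1))) j) ≤ k →
      nxt A.Λ k ≤ sxUp (sxLf (O (r j - 1))) j → r j - 1 < r k := by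
    intro j h0 k hk h1 h2
    obtain ⟨h3, h4⟩ := hbet j k hk h1 h2
    by_contra c
    exact (hP _).not_between (hnot j h0) h3 h4 ((hL _ _).2 ⟨hk, not_lt.1 c⟩)
  refine ⟨⟨r, fun j => sxDn (sxLf (O (r j - 1))) j, fun j => sxUp (sxLf (O (r j - 1))) j, par,
    fun j => T (r j), ?_, ?_, ?_, ?_, ?_, ?_, ?_, ?_, ?_, ?_, ?_⟩⟩
  · intro j hj n
    rw [hr _ (Jg.int hj n), hr j hj, sxCl_int]
  · intro j hj
    rw [hr j hj, hrk0, hR, sxCl_len]
  · intro j hj h0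
    obtain ⟨h1, h2⟩ := ((hP (r j - 1)).dn j).1
    obtain ⟨h3, h4⟩ := (hL _ _).1 h1
    exact ⟨h3, A.nxt_le hj.1.1 h2, by omega⟩
  · intro j hj h0
    obtain ⟨h1, h2⟩ := ((hP (r j - 1)).up j).1
    obtain ⟨h3, h4⟩ := (hL _ _).1 h1
    exact ⟨h3, A.nxt_le h3.1.1 h2, by omega⟩
  · intro j hj h0 k hk h1 h2
    have := hcell j h0 k hk h1 h2
    omega
  · intro j hj h0
    have := hp2 j hj h0
    exact ⟨hp1 j hj h0, by omega⟩
  · intro j hj h0 k hk h1 h2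
    obtain ⟨h3, h4⟩ := hbet j k hk h1 h2
    obtain ⟨e1, e2⟩ := (hP _).same (hnot j h0) h3 h4
    exact hp4 j hj h0 k hk (hcell j h0 k hk h1 h2) (by rw [sxWid, sxWid, e1, e2])
  · intro j hj h0
    rw [h0, T0]
  · intro j hj k hk h
    exact Tm h
  · intro j hj h0
    exact hp3 j hj h0
  · intro k hk a ha b hb s hs h1 h2
    by_contra c
    have c' := not_le.1 c
    generalize hθ : max (max (T (r a)) (T (r b))) (T (r (s • k)) + max (b - nxt A.Λ a) ε) = θ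
      at c'
    have ta : T (r a) ≤ θ := hθ ▸ (le_max_left _ _).trans (le_max_left _ _)
    have tb : T (r b) ≤ θ := hθ ▸ (le_max_right _ _).trans (le_max_left _ _)
    have ts : T (r (s • k)) + max (b - nxt A.Λ a) ε ≤ θ := hθ ▸ le_max_right _ _
    have ts' : T (r (s • k)) ≤ θ := by linarith [le_max_right (b - nxt A.Λ a) ε]
    have hex : ∃ m, θ < T m := ⟨_, c'⟩
    have m1 := Nat.find_spec hex
    have m2 : Nat.find hex ≤ r k := Nat.find_min' hex c'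
    have m3 : ∀ i, T i ≤ θ → i < Nat.find hex := fun i hi => by
      by_contra d
      exact absurd ((Tm (not_lt.1 d)).trans hi) (not_le.2 m1)
    obtain ⟨n, hn⟩ : ∃ n, Nat.find hex = n + 1 := ⟨Nat.find hex - 1, by
      have := m3 _ ta
      omega⟩
    have m4 : T n ≤ θ := not_lt.1 (Nat.find_min hex (by omega))
    rw [hn] at m1 m2 m3
    have q := hs3 n (sxCl k hk) (by rw [← hr]; omega) _ (hNc k hk s hs)
      (by rw [← hr]; exact Nat.lt_succ_iff.1 (m3 _ ts'))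
    rw [← hr, sxWid_cl (hne _)] at q
    have a1 : a ≤ sxDn (sxLf (O n)) k := ((hP n).dn k).2
      ⟨(hL _ _).2 ⟨ha, Nat.lt_succ_iff.1 (m3 _ ta)⟩, (A.lt_nxt ha.1).trans_le h1⟩
    have b1 : sxUp (sxLf (O n)) k ≤ b := ((hP n).up k).2
      ⟨(hL _ _).2 ⟨hb, Nat.lt_succ_iff.1 (m3 _ tb)⟩, (A.lt_nxt hk.1).trans_le h2⟩
    have a2 : nxt A.Λ a ≤ nxt A.Λ (sxDn (sxLf (O n)) k) :=
      A.nxt_le (A.nxt_mem _) (a1.trans_lt (A.lt_nxt ((hL _ _).1 ((hP n).dn k).1.1).1.1))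
    have w1 : max ε (sxWid (O n) k) ≤ max (b - nxt A.Λ a) ε :=
      max_le (le_max_right _ _) (le_max_of_le_left (by rw [sxWid]; linarith))
    exact absurd (q.trans (max_le m4 (by linarith))) (not_le.2 m1)

end Pool.Agent.Lib.MP_173a7e_an.C2
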