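import Pool.Agent.Lib.MP_173a7e_an.C2.Inst
import Pool.Agent.Lib.MP_173a7e_an.C2.SchEx

/-! Thickness. -/

set_option autoImplicit false
set_option linter.unusedVariables false
set_option linter.unusedSectionVars false

namespace Pool.Agent.Lib.MP_173a7e_an.C2

open Set Filter Topology
open scoped Pointwise

/-- The block estimate when the first and the last time are not controlled. -/
theorem close_blocks (m g : ℕ → ℝ) (n : ℕ) (hm : ∀ t < n, 0 ≤ m t ∧ m t ≤ 1)
    (hg : ∀ t < n, 0 ≤ g t) {μ c : ℝ} (hμ : 0 < μ) (hc : 0 ≤ c)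
    (H : ∀ i k, 1 ≤ i → i < k → k < n → μ ≤ ∑ t ∈ Finset.Ico i k, m t →
      c ≤ ∑ t ∈ Finset.Ico i k, g t) :
    c / (μ + 1) * ∑ t ∈ Finset.range n, m t ≤
      ∑ t ∈ Finset.range n, g t + c + 2 * (c / (μ + 1)) := by
  have hθ : 0 ≤ c / (μ + 1) := by positivity
  rcases n with _ | _ | r
  · simp only [Finset.range_zero, Finset.sum_empty]; linarith
  · simp only [zero_add, Finset.range_one, Finset.sum_singleton]
    have a := mul_le_mul_of_nonneg_left (hm 0 (by omega)).2 hθ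
    have b := hg 0 (by omega)
    linarith
  · have B := blocks (fun t => m (t + 1)) (fun t => g (t + 1)) r
      (fun t ht => hm (t + 1) (by omega)) (fun t ht => hg (t + 1) (by omega)) hμ hc (by
        intro i k hik hk h
        rcases hik.eq_or_lt with e | e
        · subst e
          simp only [Finset.Ico_self, Finset.sum_empty] at h
          linarith
        · rw [Finset.sum_Ico_add' m i k 1] at h
          rw [Finset.sum_Ico_add' g i k 1]
          exact H (i + 1) (k + 1) (by omega) (by omega) (by omega) h)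
    rw [Finset.sum_range_succ, Finset.sum_range_succ', Finset.sum_range_succ g,
      Finset.sum_range_succ' g]
    have a1 := mul_le_mul_of_nonneg_left (hm 0 (by omega)).2 hθ
    have a2 := mul_le_mul_of_nonneg_left (hm (r + 1) (by omega)).2 hθ
    have b1 := hg 0 (by omega)
    have b2 := hg (r + 1) (by omega)
    have e : c * ((∑ t ∈ Finset.range r, m (t + 1)) / (μ + 1) - 1) =
        c / (μ + 1) * (∑ t ∈ Finset.range r, m (t + 1)) - c := by ring
    rw [e] at B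
    rw [mul_add, mul_add]
    linarith

variable {G : Type} [Group G] [MulAction G ℝ]

variable [SmoothAct G]

/-- The gains along a path telescope. -/
theorem close_tele {A : Cantor G} {S : Finset G} {β ε : ℝ} (T : Sch A S β ε) (j : ℝ) (n : ℕ) :
    ∑ t ∈ Finset.range n, T.gn (T.pt j t) = Real.log (T.chi j) - Real.log (T.chi (T.pt j n)) +
      ∑ t ∈ Finset.range n, T.err (T.pt j t) := by
  induction n with
  | zero => simp [T.pt_zero]
  | succ n ih =>
    rw [Finset.sum_range_succ, Finset.sum_range_succ, ih, T.pt_succ]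
    unfold Sch.gn
    ring

/-- The child of a root has a large cross ratio. -/
theorem close_root {A : Cantor G} (Γ : Gen G) {β ε : ℝ} (T : Sch A Γ.S β ε) {j : ℝ}
    (hj : j ∈ Jg A β) (h0 : T.rk j ≠ 0) (h1 : T.rk (T.par j • j) = 0)
    (h : T.hi j - T.lo j ≤ 1) : β ≤ Γ.C * T.chi j := by
  have a := (T.rk_zero _ (Jg.act hj _)).1 h1
  have b := abs_act_le (Γ.Dle _ (T.par_mem j hj h0).1) (nxt A.Λ j) j
  rw [← A.len_act, A.abs_len] at b
  have c := T.len_le_chi hj h0 h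
  have d := mul_le_mul_of_nonneg_left c (show 0 ≤ Γ.C by linarith [Γ.C_pos])
  linarith

theorem close_m {A : Cantor G} {S : Finset G} {β ε : ℝ} (T : Sch A S β ε) {j : ℝ}
    (hj : j ∈ Jg A β) (h0 : T.rk j ≠ 0) (h : T.hi j - T.lo j ≤ 1) : 0 ≤ T.m j ∧ T.m j ≤ 1 := by
  obtain ⟨-, -, a, b, c⟩ := T.ord hj h0
  refine ⟨le_min (by linarith) (by linarith), (min_le_left _ _).trans (by linarith)⟩

theorem exists_N {F : ℝ} (hF : 0 ≤ F) :
    ∃ N : ℕ, 1 < 2 ^ N * (Real.exp (-F) / 3) ∧ (N : ℝ) ≤ 2 * F + 3 := by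
  refine ⟨⌈2 * F⌉₊ + 2, ?_, ?_⟩
  · have a : Real.exp F ≤ 2 ^ ⌈2 * F⌉₊ := by
      calc Real.exp F ≤ Real.exp ((⌈2 * F⌉₊ : ℕ) * (1 / 2)) :=
            Real.exp_le_exp.2 (by linarith [Nat.le_ceil (2 * F)])
        _ = Real.exp (1 / 2) ^ ⌈2 * F⌉₊ := Real.exp_nat_mul _ _
        _ ≤ 2 ^ ⌈2 * F⌉₊ := pow_le_pow_left₀ (Real.exp_pos _).le exp_half _
    have b : Real.exp F * Real.exp (-F) = 1 := by rw [← Real.exp_add]; simp
    have c := mul_le_mul_of_nonneg_right a (Real.exp_pos (-F)).le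
    rw [pow_add]
    linarith
  · have := Nat.ceil_lt_add_one (show 0 ≤ 2 * F by linarith)
    push_cast
    linarith

theorem thick (A : Cantor G) (Γ : Gen G) (hL : L2 Γ.S) {δ : ℝ} (hδ : 0 < δ) (hE : Exp A δ) :
    ∃ c > 0, c ≤ 1 ∧ Thick A c := by
  have hC := Γ.C_pos
  have c0 := cc_pos hC
  have c1 := cc_le_one hC
  have k3 := c3_ge hC
  obtain ⟨ρ1, r1, r1', hky⟩ := Γ.ky0 (cc Γ.C) c0
  obtain ⟨ρ2, r2, hL2⟩ := hL (cc Γ.C / (8 * c3 Γ.C)) (by positivity)
  obtain ⟨κ, k0, hκ⟩ := small_cells A (lt_min r1 r2)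
  obtain ⟨β, b0, bδ, bκ⟩ : ∃ β > 0, β ≤ δ ∧ β ≤ κ :=
    ⟨min δ κ, lt_min hδ k0, min_le_left _ _, min_le_right _ _⟩
  obtain ⟨F, F20, FC⟩ : ∃ F : ℝ, 20 ≤ F ∧ Γ.C * Real.exp (-F / 2) ≤ β := by
    refine ⟨max 20 (2 * Real.log (Γ.C / β)), le_max_left _ _, ?_⟩
    have a : Real.exp (-max 20 (2 * Real.log (Γ.C / β)) / 2) ≤ Real.exp (-Real.log (Γ.C / β)) :=
      Real.exp_le_exp.2 (by linarith [le_max_right 20 (2 * Real.log (Γ.C / β))])
    rw [Real.exp_neg (Real.log _), Real.exp_log (by positivity)] at a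
    calc _ ≤ Γ.C * (Γ.C / β)⁻¹ := mul_le_mul_of_nonneg_left a (by linarith)
      _ = β := by field_simp
  have e0 := Real.exp_pos (-F)
  have e1 : Real.exp (-F) ≤ Real.exp (-F / 2) := Real.exp_le_exp.2 (by linarith)
  have e2 : Real.exp (-F / 2) ≤ 1 := Real.exp_le_one_iff.2 (by linarith)
  have e3 : Real.exp (-F / 2) ≤ β := by
    have := mul_le_mul_of_nonneg_right hC (Real.exp_pos (-F / 2)).le
    linarith
  obtain ⟨N, hN, hNF⟩ := exists_N (F := F) (by linarith)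
  obtain ⟨η, η0, η1, hsm⟩ := small_path A (e := cc Γ.C * (Real.exp (-F) / 3)) (by positivity)
  obtain ⟨ε, ε0, hap⟩ := approx A Γ.S β
    (ρ := Real.exp (-F) / 3 * (cc Γ.C * η) ^ (N + 2)) (η := η) (by positivity) η0
  obtain ⟨T⟩ := exists_sch A Γ hE b0 bδ ε0
  have hcell := hκ Γ.S β ε bκ T
  have hcell1 : ∀ j ∈ Jg A β, T.rk j ≠ 0 → T.hi j - T.lo j ≤ 1 := fun j hj h =>
    (hcell j hj h).trans ((min_le_left _ _).trans r1')
  refine ⟨Real.exp (-F), e0, e1.trans e2, T.thick hE bδ e0 (e1.trans e3) ?_⟩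
  suffices H : ∀ r : ℕ, ∀ j ∈ Jg A β, T.rk j = r → T.rk j ≠ 0 → Real.exp (-F) ≤ T.chi j from
    fun j hj => H _ j hj rfl
  intro r
  induction r using Nat.strong_induction_on with
  | _ r ih =>
  intro j hj hr h0
  by_contra hlt
  rw [not_le] at hlt
  obtain ⟨n, hn, hn'⟩ := T.pt_end hj
  have hp := T.pt_mem hj
  have low : ∀ u, 1 ≤ u → u < n → Real.exp (-F) ≤ T.chi (T.pt j u) := by
    intro u u1 u2
    have a := T.pt_lt hj (t := 0) (t' := u) (by omega) (fun v hv => hn' v (by omega))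
    rw [T.pt_zero, hr] at a
    exact ih _ a _ (hp u) rfl (hn' u u2)
  have ex : ∃ t, t < n ∧ Real.exp (-F / 2) ≤ T.chi (T.pt j t) := by
    rcases n with _ | n
    · rw [T.pt_zero] at hn; exact absurd hn h0
    · refine ⟨n, by omega, ?_⟩
      rw [T.pt_succ] at hn
      have a := close_root Γ T (hp n) (hn' n (by omega)) hn (hcell1 _ (hp n) (hn' n (by omega)))
      exact le_of_mul_le_mul_left (FC.trans a) (by linarith)
  obtain ⟨t1, ⟨t1n, hi1⟩, hmin⟩ : ∃ t1, (t1 < n ∧ Real.exp (-F / 2) ≤ T.chi (T.pt j t1)) ∧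
      ∀ u < t1, T.chi (T.pt j u) ≤ 1 := by
    classical
    refine ⟨Nat.find ex, Nat.find_spec ex, fun u hu => ?_⟩
    have a := Nat.find_min ex hu
    have b := (Nat.find_spec ex).1
    by_contra c
    exact a ⟨by omega, by linarith [not_le.1 c]⟩
  have μ0 : 0 < ((N : ℝ) + 1) * c3 Γ.C := by positivity
  have B := close_blocks (fun t => T.m (T.pt j t)) (fun t => T.gn (T.pt j t)) t1
    (fun t ht => close_m T (hp t) (hn' t (by omega)) (hcell1 _ (hp t) (hn' t (by omega))))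
    (fun t ht => (T.gn_spec (hp t) (hn' t (by omega))
      (by rw [← T.pt_succ]; exact hn' _ (by omega))).1) μ0 c0.le (fun i k i1 ik kt h =>
      stretch Γ T (ρ0 := min ρ1 ρ2) (ζ := Real.exp (-F) / 3) (η := η)
        ((min_le_left _ _).trans r1')
        (fun s hs p t a b => hky s hs p t a (b.trans (min_le_left _ _))) hcell (by positivity)
        η0 η1 (hap T) (hsm Γ.S β ε T) hN le_rfl hj ik.le (fun u hu => hn' u (by omega))
        (fun u u1 u2 => ⟨by linarith [low u (by omega) (by omega)], hmin u (by omega)⟩) h)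
  have θ0 : 0 < cc Γ.C / (((N : ℝ) + 1) * c3 Γ.C + 1) := by positivity
  have lam := T.lam hj 0 t1 (fun u hu => hn' u (by omega))
  simp only [zero_add] at lam
  have Q := hL2 t1 (fun t => T.lo (T.pt j t)) (fun t => T.pt j t) (fun t => nxt A.Λ (T.pt j t))
    (fun t => T.hi (T.pt j t)) (fun t => T.par (T.pt j t)) (fun t ht =>
      ⟨(T.par_mem _ (hp t) (hn' t (by omega))).1,
        (T.thin (hp t) (hn' t (by omega)) (hmin t ht)).1,
        (hcell _ (hp t) (hn' t (by omega))).trans (min_le_right _ _)⟩) lam _ θ0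
  have Q' : ∑ t ∈ Finset.range t1, T.err (T.pt j t) ≤
      cc Γ.C / (((N : ℝ) + 1) * c3 Γ.C + 1) * ∑ t ∈ Finset.range t1, T.m (T.pt j t) +
      cc Γ.C / (8 * c3 Γ.C) / (cc Γ.C / (((N : ℝ) + 1) * c3 Γ.C + 1)) + 1 := Q
  have tele := close_tele T j t1
  have l0 : Real.log (T.chi j) ≤ -F := by
    rw [Real.log_le_iff_le_exp (T.chi_pos hj h0)]; exact hlt.le
  have l1 : -F / 2 ≤ Real.log (T.chi (T.pt j t1)) := by
    rw [Real.le_log_iff_exp_le (T.chi_pos (hp t1) (hn' t1 t1n))]; exact hi1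
  have θ1 : cc Γ.C / (((N : ℝ) + 1) * c3 Γ.C + 1) ≤ 1 := by
    rw [div_le_one (by positivity)]; linarith
  have s1 : cc Γ.C / (8 * c3 Γ.C) / (cc Γ.C / (((N : ℝ) + 1) * c3 Γ.C + 1)) ≤ (N + 2) / 8 := by
    have : cc Γ.C / (8 * c3 Γ.C) / (cc Γ.C / (((N : ℝ) + 1) * c3 Γ.C + 1)) =
        (((N : ℝ) + 1) * c3 Γ.C + 1) / (8 * c3 Γ.C) := by field_simp
    rw [this, div_le_div_iff₀ (by positivity) (by norm_num)]
    nlinarith
  linarith

end Pool.Agent.Lib.MP_173a7e_an.C2
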