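import Pool.Agent.Lib.MP_173a7e_an.C2.Int

/-! Abstract stretches of frames: data, axioms, constants. -/

set_option autoImplicit false
set_option linter.unusedVariables false

namespace Pool.Agent.Lib.MP_173a7e_an.C2

open Set Filter Topology

/-- Translation of a pair by an integer. -/
def sh (K : ℝ × ℝ) (m : ℤ) : ℝ × ℝ := (K.1 + m, K.2 + m)

/-- Reflection of a pair. -/
def rf (K : ℝ × ℝ) : ℝ × ℝ := (-K.2, -K.1)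

/-- Frames `0, ..., n`. A base point `x` sits at `γ t x` at time `t`. The cell at time `t` is
`[P t, Q t]` and the marked gap is `(a0, b0)`, in base coordinates. -/
structure BD where
  n : ℕ
  γ : ℕ → ℝ ≃o ℝ
  P : ℕ → ℝ
  Q : ℕ → ℝ
  a0 : ℝ
  b0 : ℝ
  g : ℕ → ℝ
  τ : ℕ → ℝ
  Gp : Set (ℝ × ℝ)
  tm : ℝ × ℝ → ℝ
  Rp : ℝ × ℝ → ℝ → Prop

noncomputable def cK (C : ℝ) : ℝ := 3 * Real.exp (1 + 33 * C)
noncomputable def cy (C : ℝ) : ℝ := 1 / (12 * (1 + cK C))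
noncomputable def cU (C : ℝ) : ℝ := 2 + 4 * cK C
noncomputable def cD (C : ℝ) : ℝ := 1728 * cU C / cy C ^ 3
noncomputable def cD1 (C : ℝ) : ℝ := 18 * cU C * (1 + cD C) + 2
noncomputable def cD2 (C : ℝ) : ℝ := 2 * (cD1 C + 1) / cy C
noncomputable def c3 (C : ℝ) : ℝ := 25 + cD1 C + cD2 C
noncomputable def cc (C : ℝ) : ℝ := min (cy C ^ 2 / (32 * c3 C)) (min (cy C / 12) (1 / cK C))

theorem cK_ge {C : ℝ} (h : 1 ≤ C) : 3 ≤ cK C := by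
  have := Real.one_le_exp (show 0 ≤ 1 + 33 * C by linarith)
  unfold cK; linarith

theorem cy_pos {C : ℝ} (h : 1 ≤ C) : 0 < cy C := by
  have := cK_ge h
  unfold cy; positivity

theorem cy_le {C : ℝ} (h : 1 ≤ C) : cy C ≤ 1 / 48 := by
  have := cK_ge h
  unfold cy
  exact one_div_le_one_div_of_le (by norm_num) (by linarith)

theorem cU_ge {C : ℝ} (h : 1 ≤ C) : 14 ≤ cU C := by
  have := cK_ge h
  unfold cU; linarith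

theorem cD_pos {C : ℝ} (h : 1 ≤ C) : 0 < cD C := by
  have := cU_ge h
  have := cy_pos h
  unfold cD; positivity

theorem cD1_ge {C : ℝ} (h : 1 ≤ C) : 2 ≤ cD1 C := by
  have := cU_ge h
  have := cD_pos h
  have : 0 ≤ 18 * cU C * (1 + cD C) := by positivity
  unfold cD1; linarith

theorem cD2_pos {C : ℝ} (h : 1 ≤ C) : 0 < cD2 C := by
  have := cD1_ge h
  have := cy_pos h
  unfold cD2; positivity

theorem c3_ge {C : ℝ} (h : 1 ≤ C) : 25 ≤ c3 C := by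
  have := cD1_ge h
  have := cD2_pos h
  unfold c3; linarith

theorem cc_pos {C : ℝ} (h : 1 ≤ C) : 0 < cc C := by
  have := cK_ge h
  have := cy_pos h
  have := c3_ge h
  unfold cc
  exact lt_min (by positivity) (lt_min (by positivity) (by positivity))

theorem cc_le_cy {C : ℝ} : cc C ≤ cy C / 12 := (min_le_right _ _).trans (min_le_left _ _)

theorem cc_le_cK {C : ℝ} : cc C ≤ 1 / cK C := (min_le_right _ _).trans (min_le_right _ _)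

theorem cc_le_sq {C : ℝ} : cc C ≤ cy C ^ 2 / (32 * c3 C) := min_le_left _ _

theorem cc_le_one {C : ℝ} (h : 1 ≤ C) : cc C ≤ 1 := by
  linarith [cc_le_cy (C := C), cy_le h]

namespace BD

variable (B : BD)

def p (t : ℕ) : ℝ := B.γ t (B.P t)
def a (t : ℕ) : ℝ := B.γ t B.a0
def b (t : ℕ) : ℝ := B.γ t B.b0
def q (t : ℕ) : ℝ := B.γ t (B.Q t)
def L (t : ℕ) : ℝ := B.a t - B.p t
def R (t : ℕ) : ℝ := B.q t - B.b t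
def l (t : ℕ) : ℝ := B.b t - B.a t
def T (t : ℕ) : ℝ := B.q t - B.p t
def m (t : ℕ) : ℝ := min (B.L t) (B.R t)

/-- The position of a base pair at time `t`. -/
def im (t : ℕ) (K : ℝ × ℝ) : ℝ × ℝ := (B.γ t K.1, B.γ t K.2)

/-- The mass of the times in `[i, k)`. -/
def mass (i k : ℕ) : ℝ := ∑ t ∈ Finset.Ico i k, B.m t

open Classical in
/-- The axioms of a stretch. -/
structure Ok (C σ ζ η ρ : ℝ) : Prop where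
  C1 : 1 ≤ C
  σ0 : 0 ≤ σ
  σc : σ ≤ cc C
  ζ0 : 0 < ζ
  η0 : 0 < η
  η1 : η ≤ 1
  ord : ∀ t ≤ B.n, B.P t < B.a0 ∧ B.a0 < B.b0 ∧ B.b0 < B.Q t
  len1 : ∀ t ≤ B.n, B.T t ≤ 1
  thin : ∀ t ≤ B.n, B.l t ≤ B.L t ∧ B.l t ≤ B.R t
  low : ∀ t ≤ B.n, ζ * B.m t ≤ B.l t
  nest : ∀ t < B.n, B.P (t + 1) ≤ B.P t ∧ B.Q t ≤ B.Q (t + 1)
  g0 : ∀ t < B.n, 0 ≤ B.g t
  gsum : ∑ t ∈ Finset.range B.n, B.g t ≤ cc C
  irr : ∑ t ∈ (Finset.range B.n).filter (fun t => B.m t < η), B.m t ≤ cc C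
  gain : ∀ t < B.n, (B.γ (t + 1) (B.Q t) - B.γ (t + 1) (B.P t)) * (B.L (t + 1) * B.R (t + 1)) ≤
    Real.exp (B.g t) * (B.T (t + 1) *
      ((B.a (t + 1) - B.γ (t + 1) (B.P t)) * (B.γ (t + 1) (B.Q t) - B.b (t + 1))))
  cr : ∀ t < B.n, ∀ x1 x2 x3 x4 : ℝ, B.P t ≤ x1 → x1 ≤ x2 → x2 ≤ x3 → x3 ≤ x4 → x4 ≤ B.Q t →
    (B.γ (t + 1) x3 - B.γ (t + 1) x1) * (B.γ (t + 1) x4 - B.γ (t + 1) x2) *
        ((B.γ t x3 - B.γ t x2) * (B.γ t x4 - B.γ t x1)) ≤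
      Real.exp (2 * σ * min (B.γ t x2 - B.γ t x1) (B.γ t x4 - B.γ t x3)) *
        ((B.γ t x3 - B.γ t x1) * (B.γ t x4 - B.γ t x2) *
          ((B.γ (t + 1) x3 - B.γ (t + 1) x2) * (B.γ (t + 1) x4 - B.γ (t + 1) x1))) ∧
    (B.γ t x3 - B.γ t x1) * (B.γ t x4 - B.γ t x2) *
        ((B.γ (t + 1) x3 - B.γ (t + 1) x2) * (B.γ (t + 1) x4 - B.γ (t + 1) x1)) ≤
      Real.exp (2 * σ * min (B.γ t x2 - B.γ t x1) (B.γ t x4 - B.γ t x3)) *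
        ((B.γ (t + 1) x3 - B.γ (t + 1) x1) * (B.γ (t + 1) x4 - B.γ (t + 1) x2) *
          ((B.γ t x3 - B.γ t x2) * (B.γ t x4 - B.γ t x1)))
  lip : ∀ t < B.n, ∀ x1 x2 y1 y2 : ℝ, B.P t ≤ x1 → x1 ≤ x2 → x2 ≤ B.Q t → B.P t ≤ y1 → y1 ≤ y2 →
    y2 ≤ B.Q t → (B.γ (t + 1) x2 - B.γ (t + 1) x1) * (B.γ t y2 - B.γ t y1) ≤
      Real.exp (C * B.T t) * ((B.γ t x2 - B.γ t x1) * (B.γ (t + 1) y2 - B.γ (t + 1) y1))
  gp_lt : ∀ K ∈ B.Gp, K.1 < K.2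
  gp_sep : ∀ K ∈ B.Gp, ∀ K' ∈ B.Gp, K ≠ K' → K.2 ≤ K'.1 ∨ K'.2 ≤ K.1
  gp_sh : ∀ K ∈ B.Gp, ∀ m : ℤ, sh K m ∈ B.Gp
  gp_im : ∀ t ≤ B.n, ∀ K, K ∈ B.Gp ↔ B.im t K ∈ B.Gp
  gp_J : (B.a0, B.b0) ∈ B.Gp
  bdL : ∀ t ≤ B.n, ∃ K ∈ B.Gp, K.2 = B.p t ∧ B.Rp K (B.τ t)
  bdR : ∀ t ≤ B.n, ∃ K ∈ B.Gp, K.1 = B.q t ∧ B.Rp K (B.τ t)
  rpJ : ∀ t ≤ B.n, B.Rp (B.a t, B.b t) (B.τ t)
  rp_mono : ∀ K θ θ', B.Rp K θ → θ ≤ θ' → B.Rp K θ'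
  rp_sh : ∀ K θ (m : ℤ), B.Rp K θ → B.Rp (sh K m) θ
  rp_step : ∀ t < B.n, ∀ K ∈ B.Gp, ∀ K1 ∈ B.Gp, ∀ K2 ∈ B.Gp, ∀ θ θ' : ℝ, K1.2 ≤ B.γ t K.1 →
    B.γ t K.2 ≤ K2.1 → B.Rp K1 θ → B.Rp K2 θ → B.Rp (B.im (t + 1) K) θ' →
    θ' + (K2.1 - K1.2) ≤ θ → B.Rp (B.im t K) θ
  τ_step : ∀ t < B.n, B.τ (t + 1) + B.T t ≤ B.τ t
  tm_sh : ∀ K ∈ B.Gp, ∀ m : ℤ, B.tm (sh K m) = B.tm K
  tm_ge : ∀ t ≤ B.n, ∀ K ∈ B.Gp, B.p t ≤ K.1 → K.2 ≤ B.q t → B.τ t ≤ B.tm K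
  tm_lt : ∀ K ∈ B.Gp, ρ ≤ K.2 - K.1 → ∀ θ, B.Rp K θ → B.tm K < θ + η
  lam : Lam (B.n + 1) B.p B.a B.b B.q

/-- The base point `x` is left of the gap, at cross ratio at least `Y`. -/
def ML (t : ℕ) (Y x : ℝ) : Prop :=
  x ≤ B.a0 ∧ Y * ((B.a t - B.γ t x) * B.T t) ≤ B.L t * (B.q t - B.γ t x)

/-- The cross ratio of the base point `x` is at most `Y`. -/
def MU (t : ℕ) (Y x : ℝ) : Prop := B.L t * (B.q t - B.γ t x) ≤ Y * ((B.a t - B.γ t x) * B.T t)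

/-- The potential of a base pair at time `t`. -/
noncomputable def ph (t : ℕ) (K : ℝ × ℝ) : ℝ :=
  (B.γ t K.2 - B.γ t K.1) * B.T t / ((B.γ t K.2 - B.p t) * (B.q t - B.γ t K.1))

/-- The cost of one step. -/
noncomputable def cost (σ y : ℝ) (t : ℕ) : ℝ := B.g t + 8 * σ * B.m t / y

/-- At time `i` the cell holds ripe gaps of definite size. -/
def Has (i : ℕ) (Φ z : ℝ) : Prop :=
  ∃ Z : Finset (ℝ × ℝ), (∀ K ∈ Z, K ∈ B.Gp ∧ B.p i ≤ K.1 ∧ K.2 ≤ B.q i ∧ B.Rp K (B.τ i) ∧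
    z * B.m i ≤ K.2 - K.1) ∧ Φ * B.m i ≤ ∑ K ∈ Z, (K.2 - K.1)

/-- The invariant of the generations. -/
def Good (C : ℝ) (k : ℕ) (Φ z : ℝ) : Prop := ∀ i ≤ k, B.mass i k ≤ c3 C → B.Has i Φ z

/-- Conjugation by the reflection. -/
def cj (f : ℝ ≃o ℝ) : ℝ ≃o ℝ where
  toFun x := -f (-x)
  invFun x := -f.symm (-x)
  left_inv x := by simp
  right_inv x := by simp
  map_rel_iff' := by
    intro x y
    simp

/-- The mirror image of a stretch. -/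
def mir : BD where
  n := B.n
  γ t := cj (B.γ t)
  P t := -B.Q t
  Q t := -B.P t
  a0 := -B.b0
  b0 := -B.a0
  g := B.g
  τ := B.τ
  Gp := {K | rf K ∈ B.Gp}
  tm K := B.tm (rf K)
  Rp K θ := B.Rp (rf K) θ

variable {B} {C σ ζ η ρ : ℝ}

theorem T_eq (t : ℕ) : B.T t = B.L t + B.l t + B.R t := by
  unfold T L l R; ring

theorem Ok.pos (h : B.Ok C σ ζ η ρ) {t : ℕ} (ht : t ≤ B.n) :
    0 < B.L t ∧ 0 < B.l t ∧ 0 < B.R t ∧ 0 < B.m t ∧ B.m t ≤ B.L t ∧ B.m t ≤ B.R t ∧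
      B.l t ≤ B.m t ∧ B.L t ≤ 1 ∧ B.R t ≤ 1 ∧ B.m t ≤ 1 := by
  obtain ⟨h1, h2, h3⟩ := h.ord t ht
  have a1 : 0 < B.L t := sub_pos.2 ((B.γ t).lt_iff_lt.2 h1)
  have a2 : 0 < B.l t := sub_pos.2 ((B.γ t).lt_iff_lt.2 h2)
  have a3 : 0 < B.R t := sub_pos.2 ((B.γ t).lt_iff_lt.2 h3)
  have a4 := h.len1 t ht
  rw [T_eq] at a4
  have a5 : B.m t ≤ B.L t := min_le_left _ _
  exact ⟨a1, a2, a3, lt_min a1 a3, a5, min_le_right _ _,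
    le_min (h.thin t ht).1 (h.thin t ht).2, by linarith, by linarith, by linarith⟩

theorem mass_add {i j k : ℕ} (h1 : i ≤ j) (h2 : j ≤ k) : B.mass i j + B.mass j k = B.mass i k :=
  Finset.sum_Ico_consecutive _ h1 h2

theorem Ok.mass_nonneg (h : B.Ok C σ ζ η ρ) (i : ℕ) {k : ℕ} (hk : k ≤ B.n) : 0 ≤ B.mass i k :=
  Finset.sum_nonneg fun t ht => (h.pos ((Finset.mem_Ico.1 ht).2.le.trans hk)).2.2.2.1.le

end BD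

end Pool.Agent.Lib.MP_173a7e_an.C2
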