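import Pool.Agent.Lib.MP_173a7e_an.C2.Tree

/-! Ripe gaps. -/

set_option autoImplicit false
set_option linter.unusedVariables false
set_option linter.unusedSectionVars false

namespace Pool.Agent.Lib.MP_173a7e_an.C2

open Set Filter Topology
open scoped Pointwise

variable {G : Type} [Group G] [MulAction G ℝ]

variable [SmoothAct G] {A : Cantor G} {S : Finset G} {β ε : ℝ}


theorem Ripe.mem {j θ : ℝ} (h : Ripe A S β j θ) : j ∈ Jg A β ∧ 0 ≤ θ := by
  induction h with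
  | root h1 h2 h3 => exact ⟨⟨h1, 1, by rwa [one_smul]⟩, h3⟩
  | step hk _ _ _ _ _ _ _ _ _ iha _ _ => exact ⟨hk, iha.2⟩

theorem Ripe.mono {j θ θ' : ℝ} (h : Ripe A S β j θ) (h' : θ ≤ θ') : Ripe A S β j θ' := by
  induction h generalizing θ' with
  | root h1 h2 h3 => exact Ripe.root h1 h2 (h3.trans h')
  | step hk ha hb hs h1 h2 _ _ h3 h4 iha ihb _ =>
    exact Ripe.step hk ha hb hs h1 h2 (iha h') (ihb h') h3 (h4.trans h')

theorem Ripe.int {j θ : ℝ} (h : Ripe A S β j θ) (n : ℤ) : Ripe A S β (j + n) θ := by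
  induction h with
  | root h1 h2 h3 => exact Ripe.root (A.LE_int h1 n) (by rwa [A.len_int]) h3
  | step hk ha hb hs h1 h2 _ _ _ h4 iha ihb ihs =>
    refine Ripe.step (Jg.int hk n) (Jg.int ha n) (Jg.int hb n) hs ?_ ?_ iha ihb
      (by rw [act_int]; exact ihs) ?_
    · rw [A.nxt_int]; linarith
    · rw [A.nxt_int]; linarith
    · rw [A.nxt_int]; linarith

theorem Sch.τ_int (T : Sch A S β ε) {j : ℝ} (hj : j ∈ Jg A β) (n : ℤ) : T.τ (j + n) = T.τ j := by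
  exact le_antisymm (T.τ_mono _ (Jg.int hj n) _ hj (T.rk_int j hj n).le)
    (T.τ_mono _ hj _ (Jg.int hj n) (T.rk_int j hj n).ge)

theorem Sch.ripe (T : Sch A S β ε) {j : ℝ} (hj : j ∈ Jg A β) : Ripe A S β j (T.τ j) := by
  induction hn : T.rk j using Nat.strong_induction_on generalizing j with
  | _ n ih =>
    subst hn
    by_cases h0 : T.rk j = 0
    · exact Ripe.root hj.1 ((T.rk_zero j hj).1 h0) (T.τ_zero j hj h0).ge
    · obtain ⟨a1, a2, a3⟩ := T.la_mem j hj h0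
      obtain ⟨b1, b2, b3⟩ := T.rb_mem j hj h0
      obtain ⟨c1, c2⟩ := T.par_mem j hj h0
      exact Ripe.step hj a1 b1 c1 a2 b2
        ((ih _ a3 a1 rfl).mono (T.τ_mono _ a1 _ hj a3.le))
        ((ih _ b3 b1 rfl).mono (T.τ_mono _ b1 _ hj b3.le))
        (ih _ c2 (Jg.act hj _) rfl) (T.s2 j hj h0)

theorem Ripe.approx {j θ : ℝ} (h : Ripe A S β j θ) : ∀ η > 0, ∃ ε0 > 0, ∀ ε ≤ ε0,
    ∀ T : Sch A S β ε, T.τ j ≤ θ + η := by
  induction h with
  | root h1 h2 h3 =>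
    intro η hη
    refine ⟨1, one_pos, fun ε _ T => ?_⟩
    have hj : _ ∈ Jg A β := ⟨h1, 1, by rwa [one_smul]⟩
    rw [T.τ_zero _ hj ((T.rk_zero _ hj).2 h2)]
    linarith
  | @step k a b θ θ' s hk ha hb hs h1 h2 _ _ _ h4 iha ihb ihs =>
    intro η hη
    obtain ⟨ea, ea0, hea⟩ := iha η hη
    obtain ⟨eb, eb0, heb⟩ := ihb η hη
    obtain ⟨es, es0, hes⟩ := ihs (η / 2) (by linarith)
    refine ⟨min (min ea eb) (min es (η / 2)),
      lt_min (lt_min ea0 eb0) (lt_min es0 (by linarith)), fun ε hε T => ?_⟩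
    obtain ⟨h5, h6⟩ := le_min_iff.1 hε
    obtain ⟨h7, h8⟩ := le_min_iff.1 h5
    obtain ⟨h9, h10⟩ := le_min_iff.1 h6
    have k1 := hea ε h7 T
    have k2 := heb ε h8 T
    have k3 := hes ε h9 T
    have k4 := A.le_nxt k
    have k5 : max (b - nxt A.Λ a) ε ≤ b - nxt A.Λ a + η / 2 := max_le (by linarith) (by linarith)
    exact (T.s3 k hk a ha b hb s hs h1 h2).trans (max_le (max_le k1 k2) (by linarith))

theorem approx (A : Cantor G) (S : Finset G) (β : ℝ) {ρ η : ℝ} (hρ : 0 < ρ) (hη : 0 < η) :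
    ∃ ε > 0, ∀ T : Sch A S β ε, ∀ j θ, ρ ≤ A.len j → Ripe A S β j θ → T.τ j < θ + η := by
  obtain ⟨κ, κ0, hκ⟩ := fin_min _ (A.bigR_finite hρ 1)
    (P := fun p κ => ∀ ε ≤ κ, ∀ T : Sch A S β ε, ∀ θ, Ripe A S β p θ → T.τ p < θ + η)
    (fun p κ κ' _ h1 h2 ε hε => h2 ε (hε.trans h1)) (by
      intro p _
      by_cases hne : {θ | Ripe A S β p θ}.Nonempty
      · have hb : BddBelow {θ | Ripe A S β p θ} := ⟨0, fun θ hθ => (Ripe.mem hθ).2⟩
        obtain ⟨θ0, h0, h1⟩ := exists_lt_of_csInf_lt hne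
          (show sInf {θ | Ripe A S β p θ} < sInf {θ | Ripe A S β p θ} + η / 2 by linarith)
        obtain ⟨e, e0, he⟩ := Ripe.approx h0 (η / 2) (by linarith)
        refine ⟨e, e0, fun ε hε T θ hθ => ?_⟩
        have k1 := he ε hε T
        have k2 : sInf {θ | Ripe A S β p θ} ≤ θ := csInf_le hb hθ
        linarith
      · exact ⟨1, one_pos, fun ε _ T θ hθ => absurd ⟨θ, hθ⟩ hne⟩)
  refine ⟨κ, κ0, fun T j θ h1 h2 => ?_⟩
  have hj := (Ripe.mem h2).1
  have h3 := hκ (j + ((-⌊j⌋ : ℤ) : ℝ)) ⟨A.LE_int hj.1 _, by rwa [A.len_int], by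
    have k1 := Int.floor_le j
    have k2 := Int.lt_floor_add_one j
    rw [abs_le]; push_cast; constructor <;> linarith⟩ κ le_rfl T θ (h2.int _)
  rwa [T.τ_int hj] at h3

end Pool.Agent.Lib.MP_173a7e_an.C2
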