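import Pool.Agent.Lib.MP_173a7e_an.C2.TreeA
import Pool.Agent.Lib.MP_173a7e_an.C2.TreeR
import Pool.Agent.Lib.MP_173a7e_an.C2.BlkT

/-! Stretches of a path satisfy the axioms of the block theorem. -/

set_option autoImplicit false
set_option linter.unusedVariables false
set_option linter.unusedSectionVars false

namespace Pool.Agent.Lib.MP_173a7e_an.C2

open Set Filter Topology
open scoped Pointwise

variable {G : Type} [Group G] [MulAction G ℝ]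

variable [SmoothAct G]

/-- A group element as an order isomorphism. -/
noncomputable def oi (g : G) : ℝ ≃o ℝ where
  toEquiv := MulAction.toPerm g
  map_rel_iff' := act_le g

theorem oi_apply (g : G) (x : ℝ) : oi g x = g • x := rfl

theorem inst_sl (g : G) (p t : ℝ) : g • t - g • p = Real.exp (Fl g p t) * (t - p) := by
  rw [exp_Fl]
  by_cases h : t = p
  · rw [h]; simp
  · rw [sl_ne g h, div_mul_cancel₀ _ (sub_ne_zero.2 h)]

theorem inst_exp {a b c d e W : ℝ} (hW : 0 ≤ W) (h : a + b - c - d ≤ e) :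
    Real.exp a * Real.exp b * W ≤ Real.exp e * (Real.exp c * Real.exp d * W) := by
  rw [← mul_assoc (Real.exp e), ← Real.exp_add, ← Real.exp_add, ← Real.exp_add]
  exact mul_le_mul_of_nonneg_right (Real.exp_le_exp.2 (by linarith)) hW

/-- The product form of the cross-ratio estimate. -/
theorem Ky.prod {s : G} {σ ρ : ℝ} (hs : Ky s σ ρ) (h0 : 0 ≤ σ) {x1 x2 x3 x4 : ℝ} (h1 : x1 ≤ x2)
    (h2 : x2 ≤ x3) (h3 : x3 ≤ x4) (h4 : x4 - x1 ≤ ρ) :
    (s • x3 - s • x1) * (s • x4 - s • x2) * ((x3 - x2) * (x4 - x1)) ≤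
      Real.exp (2 * σ * min (x2 - x1) (x4 - x3)) *
        ((x3 - x1) * (x4 - x2) * ((s • x3 - s • x2) * (s • x4 - s • x1))) ∧
    (x3 - x1) * (x4 - x2) * ((s • x3 - s • x2) * (s • x4 - s • x1)) ≤
      Real.exp (2 * σ * min (x2 - x1) (x4 - x3)) *
        ((s • x3 - s • x1) * (s • x4 - s • x2) * ((x3 - x2) * (x4 - x1))) := by
  have b1 : |Xr s x4 x3 x1 x2| ≤ 2 * σ * (x2 - x1) :=
    hs.cr (lo := x1) (hi := x4) ⟨by linarith, le_rfl, by linarith, h3, le_rfl, h1, by linarith,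
      Or.inr (by linarith), Or.inr h2⟩ h4
  have b2 : |Xr s x1 x2 x3 x4| ≤ 2 * σ * (x4 - x3) :=
    hs.cr (lo := x1) (hi := x4) ⟨le_rfl, by linarith, h1, by linarith, by linarith, h3, le_rfl,
      Or.inl (by linarith), Or.inl h2⟩ h4
  unfold Xr at b1 b2
  rw [Fl_symm s x4 x2, Fl_symm s x4 x1, Fl_symm s x3 x2, Fl_symm s x3 x1] at b1
  obtain ⟨c1, c2⟩ := abs_le.1 b1
  obtain ⟨c3, c4⟩ := abs_le.1 b2
  have hW : 0 ≤ (x3 - x1) * (x4 - x2) * ((x3 - x2) * (x4 - x1)) :=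
    mul_nonneg (mul_nonneg (by linarith) (by linarith)) (mul_nonneg (by linarith) (by linarith))
  have e1 : Fl s x1 x3 + Fl s x2 x4 - Fl s x2 x3 - Fl s x1 x4 ≤ 2 * σ * min (x2 - x1) (x4 - x3) := by
    rcases min_choice (x2 - x1) (x4 - x3) with e | e <;> rw [e] <;> linarith
  have e2 : Fl s x2 x3 + Fl s x1 x4 - Fl s x1 x3 - Fl s x2 x4 ≤ 2 * σ * min (x2 - x1) (x4 - x3) := by
    rcases min_choice (x2 - x1) (x4 - x3) with e | e <;> rw [e] <;> linarith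
  have f1 := inst_exp hW e1
  have f2 := inst_exp hW e2
  rw [inst_sl s x1 x3, inst_sl s x2 x4, inst_sl s x2 x3, inst_sl s x1 x4]
  constructor
  · refine le_of_eq_of_le (by ring) (f1.trans_eq (by ring))
  · refine le_of_eq_of_le (by ring) (f2.trans_eq (by ring))

theorem lip_prod {s : G} {C : ℝ} (hs : GLip C s) (hC : 0 ≤ C) {lo hi x1 x2 y1 y2 : ℝ} (a1 : lo ≤ x1)
    (a2 : x1 ≤ x2) (a3 : x2 ≤ hi) (b1 : lo ≤ y1) (b2 : y1 ≤ y2) (b3 : y2 ≤ hi) :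
    (s • x2 - s • x1) * (y2 - y1) ≤ Real.exp (C * (hi - lo)) * ((x2 - x1) * (s • y2 - s • y1)) := by
  obtain ⟨u, hu, e1⟩ := mvt s x1 x2
  obtain ⟨v, hv, e2⟩ := mvt s y1 y2
  rw [uIcc_of_le a2] at hu
  rw [uIcc_of_le b2] at hv
  have c1 : |u - v| ≤ hi - lo := by
    rw [abs_le]; constructor <;> linarith [hu.1, hu.2, hv.1, hv.2]
  have c2 : lg s u - lg s v ≤ C * (hi - lo) :=
    (le_abs_self _).trans ((hs u v).trans (mul_le_mul_of_nonneg_left c1 hC))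
  have c3 := D_le_of_lg c2
  have hW : 0 ≤ (x2 - x1) * (y2 - y1) := mul_nonneg (by linarith) (by linarith)
  rw [e1, e2]
  refine le_of_eq_of_le (by ring) ((mul_le_mul_of_nonneg_right c3 hW).trans_eq (by ring))

variable {A : Cantor G} {β ε : ℝ}

/-- The stretch of the path of `j` between the times `i` and `i + n`. -/
noncomputable def Sch.bd {S : Finset G} (T : Sch A S β ε) (j : ℝ) (i n : ℕ) : BD where
  n := n
  γ t := oi (T.path j (i + t))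
  P t := (T.path j (i + t))⁻¹ • T.lo (T.pt j (i + t))
  Q t := (T.path j (i + t))⁻¹ • T.hi (T.pt j (i + t))
  a0 := j
  b0 := nxt A.Λ j
  g t := T.gn (T.pt j (i + t))
  τ t := T.τ (T.pt j (i + t))
  Gp := {K | K.1 ∈ Jg A β ∧ K.2 = nxt A.Λ K.1}
  tm K := T.τ K.1
  Rp K θ := K.2 = nxt A.Λ K.1 ∧ Ripe A S β K.1 θ

section

variable {S : Finset G} (T : Sch A S β ε) (j : ℝ) (i n t : ℕ)

theorem inst_γ (x : ℝ) : (T.bd j i n).γ t x = T.path j (i + t) • x := rfl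

theorem inst_γs (x : ℝ) :
    (T.bd j i n).γ (t + 1) x = T.par (T.pt j (i + t)) • T.path j (i + t) • x := mul_smul _ _ _

theorem inst_pts : T.pt j (i + (t + 1)) = T.par (T.pt j (i + t)) • T.pt j (i + t) :=
  T.pt_succ j (i + t)

theorem inst_p : (T.bd j i n).p t = T.lo (T.pt j (i + t)) := smul_inv_smul _ _

theorem inst_q : (T.bd j i n).q t = T.hi (T.pt j (i + t)) := smul_inv_smul _ _

theorem inst_a : (T.bd j i n).a t = T.pt j (i + t) := rfl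

theorem inst_b : (T.bd j i n).b t = nxt A.Λ (T.pt j (i + t)) := (A.nxt_act _ _).symm

theorem inst_L : (T.bd j i n).L t = T.pt j (i + t) - T.lo (T.pt j (i + t)) := by
  rw [BD.L, inst_a, inst_p]

theorem inst_R : (T.bd j i n).R t = T.hi (T.pt j (i + t)) - nxt A.Λ (T.pt j (i + t)) := by
  rw [BD.R, inst_q, inst_b]

theorem inst_l : (T.bd j i n).l t = A.len (T.pt j (i + t)) := by
  rw [BD.l, inst_a, inst_b]; rfl

theorem inst_T : (T.bd j i n).T t = T.hi (T.pt j (i + t)) - T.lo (T.pt j (i + t)) := by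
  rw [BD.T, inst_q, inst_p]

theorem inst_m : (T.bd j i n).m t = T.m (T.pt j (i + t)) := by
  rw [BD.m, inst_L, inst_R]; rfl

theorem inst_sP :
    (T.bd j i n).γ (t + 1) ((T.bd j i n).P t) = T.par (T.pt j (i + t)) • T.lo (T.pt j (i + t)) := by
  rw [inst_γs]
  exact congrArg _ (smul_inv_smul _ _)

theorem inst_sQ :
    (T.bd j i n).γ (t + 1) ((T.bd j i n).Q t) = T.par (T.pt j (i + t)) • T.hi (T.pt j (i + t)) := by
  rw [inst_γs]
  exact congrArg _ (smul_inv_smul _ _)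

theorem inst_Ple {x : ℝ} (h : (T.bd j i n).P t ≤ x) :
    T.lo (T.pt j (i + t)) ≤ T.path j (i + t) • x := by
  rw [← inst_p T j i n t]
  exact ((T.bd j i n).γ t).le_iff_le.2 h

theorem inst_leQ {x : ℝ} (h : x ≤ (T.bd j i n).Q t) :
    T.path j (i + t) • x ≤ T.hi (T.pt j (i + t)) := by
  rw [← inst_q T j i n t]
  exact ((T.bd j i n).γ t).le_iff_le.2 h

theorem inst_Gp (K : ℝ × ℝ) : K ∈ (T.bd j i n).Gp ↔ K.1 ∈ Jg A β ∧ K.2 = nxt A.Λ K.1 := Iff.rfl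

theorem inst_Rp (K : ℝ × ℝ) (θ : ℝ) :
    (T.bd j i n).Rp K θ ↔ K.2 = nxt A.Λ K.1 ∧ Ripe A S β K.1 θ := Iff.rfl

end

theorem inst_ok (Γ : Gen G) (T : Sch A Γ.S β ε) {ρ0 ζ η ρ : ℝ} (hρ0 : ρ0 ≤ 1)
    (hky : ∀ s ∈ Γ.S, Ky s (cc Γ.C) ρ0)
    (hcell : ∀ j ∈ Jg A β, T.rk j ≠ 0 → T.hi j - T.lo j ≤ ρ0) (ζ0 : 0 < ζ) (η0 : 0 < η) (η1 : η ≤ 1)
    (hap : ∀ j θ, ρ ≤ A.len j → Ripe A Γ.S β j θ → T.τ j < θ + η)
    (hsm : ∀ j ∈ Jg A β, ∀ (n : ℕ) (U : Finset ℕ), (∀ u < n, T.rk (T.pt j u) ≠ 0) →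
      (∀ t ∈ U, t < n ∧ A.len (T.pt j t) < η) → ∑ t ∈ U, A.len (T.pt j t) ≤ cc Γ.C * ζ)
    {j : ℝ} (hj : j ∈ Jg A β) {i n : ℕ} (h0 : ∀ u ≤ i + n, T.rk (T.pt j u) ≠ 0)
    (h1 : ∀ u, i ≤ u → u ≤ i + n → 3 * ζ ≤ T.chi (T.pt j u) ∧ T.chi (T.pt j u) ≤ 1)
    (hg : ∑ t ∈ Finset.range n, T.gn (T.pt j (i + t)) ≤ cc Γ.C) :
    (T.bd j i n).Ok Γ.C (cc Γ.C) ζ η ρ := by
  classical
  have hJ : ∀ u, T.pt j u ∈ Jg A β := T.pt_mem hj
  have r0 : ∀ t ≤ n, T.rk (T.pt j (i + t)) ≠ 0 := fun t ht => h0 _ (by omega)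
  have r1 : ∀ t < n, T.rk (T.par (T.pt j (i + t)) • T.pt j (i + t)) ≠ 0 := fun t ht => by
    rw [← inst_pts]; exact r0 _ ht
  have hS : ∀ t ≤ n, T.par (T.pt j (i + t)) ∈ Γ.S := fun t ht => (T.par_mem _ (hJ _) (r0 t ht)).1
  have th : ∀ t ≤ n, A.len (T.pt j (i + t)) ≤ T.pt j (i + t) - T.lo (T.pt j (i + t)) ∧
      A.len (T.pt j (i + t)) ≤ T.hi (T.pt j (i + t)) - nxt A.Λ (T.pt j (i + t)) ∧
      ζ * T.m (T.pt j (i + t)) ≤ A.len (T.pt j (i + t)) := by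
    intro t ht
    obtain ⟨c1, c2⟩ := h1 (i + t) (by omega) (by omega)
    obtain ⟨⟨d1, d2, d3, d4, d5⟩, d6⟩ := T.thin (hJ (i + t)) (r0 t ht) c2
    have d7 : 0 ≤ T.m (T.pt j (i + t)) := le_min (by linarith) (by linarith)
    exact ⟨d4, d5, (mul_le_mul_of_nonneg_right (by linarith) d7).trans d6⟩
  refine
    { C1 := Γ.C_pos
      σ0 := (cc_pos Γ.C_pos).le
      σc := le_rfl
      ζ0 := ζ0
      η0 := η0
      η1 := η1
      ord := fun t ht => ?_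
      len1 := fun t ht => ?_
      thin := fun t ht => ?_
      low := fun t ht => ?_
      nest := fun t ht => ?_
      g0 := fun t ht => (T.gn_spec (hJ _) (r0 t ht.le) (r1 t ht)).1
      gsum := hg
      irr := ?_
      gain := fun t ht => ?_
      cr := fun t ht x1 x2 x3 x4 a1 a2 a3 a4 a5 => ?_
      lip := fun t ht x1 x2 y1 y2 a1 a2 a3 b1 b2 b3 => ?_
      gp_lt := fun K hK => ?_
      gp_sep := fun K hK K' hK' hne => ?_
      gp_sh := fun K hK m => ?_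
      gp_im := fun t ht K => ?_
      gp_J := ⟨hj, rfl⟩
      bdL := fun t ht => ?_
      bdR := fun t ht => ?_
      rpJ := fun t ht => ⟨inst_b T j i n t, T.ripe (hJ _)⟩
      rp_mono := fun K θ θ' h h' => ⟨h.1, h.2.mono h'⟩
      rp_sh := fun K θ m h => ?_
      rp_step := fun t ht K hK K1 hK1 K2 hK2 θ θ' a1 a2 a3 a4 a5 a6 => ?_
      τ_step := fun t ht => ?_
      tm_sh := fun K hK m => T.τ_int hK.1 m
      tm_ge := fun t ht K hK a1 a2 => ?_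
      tm_lt := fun K hK a1 θ a2 => ?_
      lam := ?_ }
  · obtain ⟨-, -, c1, c2, c3⟩ := T.ord (hJ (i + t)) (r0 t ht)
    refine ⟨((T.bd j i n).γ t).lt_iff_lt.1 ?_, A.lt_nxt hj.1, ((T.bd j i n).γ t).lt_iff_lt.1 ?_⟩
    · exact (inst_p T j i n t).trans_lt c1
    · exact (inst_b T j i n t).trans_lt (c3.trans_eq (inst_q T j i n t).symm)
  · rw [inst_T]; exact (hcell _ (hJ _) (r0 t ht)).trans hρ0
  · rw [inst_l, inst_L, inst_R]; exact ⟨(th t ht).1, (th t ht).2.1⟩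
  · rw [inst_l, inst_m]; exact (th t ht).2.2
  · obtain ⟨c1, c2⟩ := T.nest (hJ (i + t)) (r0 t ht.le) (r1 t ht)
    rw [← inst_pts] at c1 c2
    refine ⟨((T.bd j i n).γ (t + 1)).le_iff_le.1 ?_, ((T.bd j i n).γ (t + 1)).le_iff_le.1 ?_⟩
    · rw [inst_sP]; exact (inst_p T j i n (t + 1)).trans_le c1
    · rw [inst_sQ]; exact c2.trans_eq (inst_q T j i n (t + 1)).symm
  · simp only [inst_m]
    have hs := hsm j hj (i + n) (((Finset.range n).filter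
      (fun t => T.m (T.pt j (i + t)) < η)).map (addLeftEmbedding i))
      (fun u hu => h0 u hu.le) (by
        intro u hu
        obtain ⟨t, ht, rfl⟩ := Finset.mem_map.1 hu
        obtain ⟨c1, c2⟩ := Finset.mem_filter.1 ht
        have c3 := Finset.mem_range.1 c1
        rw [addLeftEmbedding_apply]
        exact ⟨by omega, (le_min (th t c3.le).1 (th t c3.le).2.1).trans_lt c2⟩)
    rw [Finset.sum_map] at hs
    refine le_of_mul_le_mul_left ?_ ζ0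
    rw [Finset.mul_sum, mul_comm ζ (cc Γ.C)]
    refine le_trans (Finset.sum_le_sum fun t ht => ?_) hs
    exact (th t (Finset.mem_range.1 (Finset.mem_filter.1 ht).1).le).2.2
  · rw [inst_sP, inst_sQ, inst_L, inst_R, inst_T, inst_a, inst_b, inst_pts]
    exact (T.gn_spec (hJ _) (r0 t ht.le) (r1 t ht)).2
  · simp only [inst_γs]
    simp only [inst_γ]
    have c1 := inst_Ple T j i n t a1
    have c2 := inst_leQ T j i n t a5
    have c3 := hcell _ (hJ (i + t)) (r0 t ht.le)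
    exact (hky _ (hS t ht.le)).prod (cc_pos Γ.C_pos).le ((act_le _).2 a2) ((act_le _).2 a3)
      ((act_le _).2 a4) (by linarith)
  · simp only [inst_γs]
    simp only [inst_γ]
    rw [inst_T]
    exact lip_prod (Γ.lip _ (hS t ht.le)) (by linarith [Γ.C_pos]) (inst_Ple T j i n t a1)
      ((act_le _).2 a2) (inst_leQ T j i n t a3) (inst_Ple T j i n t b1) ((act_le _).2 b2)
      (inst_leQ T j i n t b3)
  · exact (A.lt_nxt hK.1.1).trans_eq hK.2.symm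
  · have c : K.1 ≠ K'.1 := fun e => hne (Prod.ext e (by rw [hK.2, hK'.2, e]))
    rcases lt_or_gt_of_ne c with d | d
    · exact Or.inl (hK.2.trans_le (A.nxt_le hK'.1.1.1 d))
    · exact Or.inr (hK'.2.trans_le (A.nxt_le hK.1.1.1 d))
  · refine ⟨Jg.int hK.1 m, ?_⟩
    show K.2 + m = nxt A.Λ (K.1 + m)
    rw [A.nxt_int, hK.2]
  · show K.1 ∈ Jg A β ∧ K.2 = nxt A.Λ K.1 ↔
      T.path j (i + t) • K.1 ∈ Jg A β ∧ T.path j (i + t) • K.2 = nxt A.Λ (T.path j (i + t) • K.1)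
    rw [A.nxt_act]
    constructor
    · rintro ⟨c1, c2⟩
      exact ⟨Jg.act c1 _, by rw [c2]⟩
    · rintro ⟨c1, c2⟩
      refine ⟨?_, MulAction.injective _ c2⟩
      have := Jg.act c1 (T.path j (i + t))⁻¹
      rwa [inv_smul_smul] at this
  · obtain ⟨c1, c2, c3⟩ := T.la_mem _ (hJ (i + t)) (r0 t ht)
    exact ⟨(T.la (T.pt j (i + t)), nxt A.Λ (T.la (T.pt j (i + t)))), ⟨c1, rfl⟩,
      (inst_p T j i n t).symm, rfl, (T.ripe c1).mono (T.τ_mono _ c1 _ (hJ _) c3.le)⟩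
  · obtain ⟨c1, c2, c3⟩ := T.rb_mem _ (hJ (i + t)) (r0 t ht)
    exact ⟨(T.rb (T.pt j (i + t)), nxt A.Λ (T.rb (T.pt j (i + t)))), ⟨c1, rfl⟩,
      (inst_q T j i n t).symm, rfl, (T.ripe c1).mono (T.τ_mono _ c1 _ (hJ _) c3.le)⟩
  · refine ⟨?_, h.2.int m⟩
    show K.2 + m = nxt A.Λ (K.1 + m)
    rw [A.nxt_int, h.1]
  · have c1 : T.path j (i + t) • K.2 = nxt A.Λ (T.path j (i + t) • K.1) := by
      rw [A.nxt_act, hK.2]
    refine ⟨c1, ?_⟩
    have c2 : Ripe A Γ.S β (T.par (T.pt j (i + t)) • T.path j (i + t) • K.1) θ' := by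
      rw [← inst_γs T j i n t]; exact a5.2
    refine Ripe.step (k := T.path j (i + t) • K.1) (Jg.act hK.1 _) hK1.1 hK2.1 (hS t ht.le)
      (hK1.2.symm.trans_le a1) (c1.symm.trans_le a2) a3.2 a4.2 c2 ?_
    rw [← hK1.2]; exact a6
  · rw [inst_T]
    have c := T.s2 _ (hJ (i + t)) (r0 t ht.le)
    rw [← inst_pts] at c
    exact c
  · rw [inst_p] at a1
    rw [inst_q] at a2
    exact T.τ_mono _ (hJ _) _ hK.1 (T.cell _ (hJ _) (r0 t ht) _ hK.1 a1 (hK.2.symm.trans_le a2))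
  · refine hap K.1 θ ?_ a2.2
    unfold Cantor.len
    rw [← hK.2]; exact a1
  · have e1 : (T.bd j i n).p = fun t => T.lo (T.pt j (i + t)) := funext (inst_p T j i n)
    have e2 : (T.bd j i n).b = fun t => nxt A.Λ (T.pt j (i + t)) := funext (inst_b T j i n)
    have e3 : (T.bd j i n).q = fun t => T.hi (T.pt j (i + t)) := funext (inst_q T j i n)
    rw [e1, e2, e3]
    exact T.lam hj i (n + 1) (fun u hu => h0 u (by omega))

/-- A stretch of large mass has definite gain. -/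
theorem stretch (Γ : Gen G) (T : Sch A Γ.S β ε) {ρ0 ζ η ρ : ℝ} (hρ0 : ρ0 ≤ 1)
    (hky : ∀ s ∈ Γ.S, Ky s (cc Γ.C) ρ0)
    (hcell : ∀ j ∈ Jg A β, T.rk j ≠ 0 → T.hi j - T.lo j ≤ ρ0) (ζ0 : 0 < ζ) (η0 : 0 < η) (η1 : η ≤ 1)
    (hap : ∀ j θ, ρ ≤ A.len j → Ripe A Γ.S β j θ → T.τ j < θ + η)
    (hsm : ∀ j ∈ Jg A β, ∀ (n : ℕ) (U : Finset ℕ), (∀ u < n, T.rk (T.pt j u) ≠ 0) →
      (∀ t ∈ U, t < n ∧ A.len (T.pt j t) < η) → ∑ t ∈ U, A.len (T.pt j t) ≤ cc Γ.C * ζ)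
    {N : ℕ} (hN : 1 < 2 ^ N * ζ) (hρ : ρ ≤ ζ * (cc Γ.C * η) ^ (N + 2)) {j : ℝ} (hj : j ∈ Jg A β)
    {i k : ℕ} (hik : i ≤ k) (h0 : ∀ u ≤ k, T.rk (T.pt j u) ≠ 0)
    (h1 : ∀ u, i ≤ u → u ≤ k → 3 * ζ ≤ T.chi (T.pt j u) ∧ T.chi (T.pt j u) ≤ 1)
    (hm : (N + 1) * c3 Γ.C ≤ ∑ t ∈ Finset.Ico i k, T.m (T.pt j t)) :
    cc Γ.C ≤ ∑ t ∈ Finset.Ico i k, T.gn (T.pt j t) := by
  obtain ⟨n, rfl⟩ := Nat.exists_eq_add_of_le hik
  rw [Finset.sum_Ico_eq_sum_range, Nat.add_sub_cancel_left] at hm ⊢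
  by_contra hc
  have h := (inst_ok Γ T hρ0 hky hcell ζ0 η0 η1 hap hsm hj h0 h1 (not_le.1 hc).le).block hN hρ
  unfold BD.mass at h
  simp only [inst_m] at h
  rw [← Finset.range_eq_Ico] at h
  exact absurd hm (not_le.2 h)

end Pool.Agent.Lib.MP_173a7e_an.C2
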