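import Pool.Agent.Lib.MP_173a7e_an.C2.Base

/-! Trees of cells with a clock: definitions. -/

set_option autoImplicit false
set_option linter.unusedVariables false
set_option linter.unusedSectionVars false

namespace Pool.Agent.Lib.MP_173a7e_an.C2

open Set Filter Topology
open scoped Pointwise

variable {G : Type} [Group G] [MulAction G ℝ]

/-- The gaps that some element makes long. -/
def Jg (A : Cantor G) (β : ℝ) : Set ℝ := {j | j ∈ LE A.Λ ∧ ∃ g : G, β ≤ A.len (g • j)}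

/-- A ranking of the gaps, the two older neighbours `la j`, `rb j` of a gap, a parent, and a
clock with resolution `ε`. -/
structure Sch (A : Cantor G) (S : Finset G) (β ε : ℝ) where
  rk : ℝ → ℕ
  la : ℝ → ℝ
  rb : ℝ → ℝ
  par : ℝ → G
  τ : ℝ → ℝ
  rk_int : ∀ j ∈ Jg A β, ∀ n : ℤ, rk (j + n) = rk j
  rk_zero : ∀ j ∈ Jg A β, (rk j = 0 ↔ β ≤ A.len j)
  la_mem : ∀ j ∈ Jg A β, rk j ≠ 0 → la j ∈ Jg A β ∧ nxt A.Λ (la j) ≤ j ∧ rk (la j) < rk j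
  rb_mem : ∀ j ∈ Jg A β, rk j ≠ 0 → rb j ∈ Jg A β ∧ nxt A.Λ j ≤ rb j ∧ rk (rb j) < rk j
  cell : ∀ j ∈ Jg A β, rk j ≠ 0 → ∀ k ∈ Jg A β, nxt A.Λ (la j) ≤ k → nxt A.Λ k ≤ rb j →
    rk j ≤ rk k
  par_mem : ∀ j ∈ Jg A β, rk j ≠ 0 → par j ∈ S ∧ rk (par j • j) < rk j
  par_cell : ∀ j ∈ Jg A β, rk j ≠ 0 → ∀ k ∈ Jg A β, nxt A.Λ (la j) ≤ k → nxt A.Λ k ≤ rb j →
    rk (par j • j) ≤ rk (par j • k)
  τ_zero : ∀ j ∈ Jg A β, rk j = 0 → τ j = 0
  τ_mono : ∀ j ∈ Jg A β, ∀ k ∈ Jg A β, rk j ≤ rk k → τ j ≤ τ k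
  s2 : ∀ j ∈ Jg A β, rk j ≠ 0 → τ (par j • j) + (rb j - nxt A.Λ (la j)) ≤ τ j
  s3 : ∀ k ∈ Jg A β, ∀ a ∈ Jg A β, ∀ b ∈ Jg A β, ∀ s ∈ S, nxt A.Λ a ≤ k → nxt A.Λ k ≤ b →
    τ k ≤ max (max (τ a) (τ b)) (τ (s • k) + max (b - nxt A.Λ a) ε)

/-- Derivable upper bounds for the opening time of a gap. -/
inductive Ripe (A : Cantor G) (S : Finset G) (β : ℝ) : ℝ → ℝ → Prop
  | root {j θ : ℝ} : j ∈ LE A.Λ → β ≤ A.len j → 0 ≤ θ → Ripe A S β j θ
  | step {k a b θ θ' : ℝ} {s : G} : k ∈ Jg A β → a ∈ Jg A β → b ∈ Jg A β → s ∈ S →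
      nxt A.Λ a ≤ k → nxt A.Λ k ≤ b → Ripe A S β a θ → Ripe A S β b θ → Ripe A S β (s • k) θ' →
      θ' + (b - nxt A.Λ a) ≤ θ → Ripe A S β k θ

namespace Sch

variable {A : Cantor G} {S : Finset G} {β ε : ℝ} (T : Sch A S β ε)

/-- Left end of the cell. -/
noncomputable def lo (j : ℝ) : ℝ := nxt A.Λ (T.la j)

/-- Right end of the cell. -/
def hi (j : ℝ) : ℝ := T.rb j

/-- The shorter side. -/
noncomputable def m (j : ℝ) : ℝ := min (j - T.lo j) (T.hi j - nxt A.Λ j)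

/-- The cross ratio of a gap in its cell. -/
noncomputable def chi (j : ℝ) : ℝ :=
  A.len j * (T.hi j - T.lo j) / ((j - T.lo j) * (T.hi j - nxt A.Λ j))

/-- The distortion of the cross ratio under the parent map. -/
noncomputable def err (j : ℝ) : ℝ := Xr (T.par j) j (T.hi j) (T.lo j) (nxt A.Λ j)

/-- The gain of one step. -/
noncomputable def gn (j : ℝ) : ℝ :=
  Real.log (T.chi j) + T.err j - Real.log (T.chi (T.par j • j))

/-- The path towards the roots. -/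
def path (j : ℝ) : ℕ → G
  | 0 => 1
  | t + 1 => T.par (path j t • j) * path j t

/-- The gap reached at time `t`. -/
def pt (j : ℝ) (t : ℕ) : ℝ := T.path j t • j

theorem pt_zero (j : ℝ) : T.pt j 0 = j := one_smul _ _

theorem pt_succ (j : ℝ) (t : ℕ) : T.pt j (t + 1) = T.par (T.pt j t) • T.pt j t := mul_smul _ _ _

end Sch

/-- The quadratic estimate for the distortion of cross ratios over laminar families. -/
def L2 (S : Finset G) : Prop :=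
  ∀ σ > 0, ∃ ρ > 0, ∀ (n : ℕ) (p a b q : ℕ → ℝ) (s : ℕ → G),
    (∀ t < n, s t ∈ S ∧ Thin (p t) (a t) (b t) (q t) ∧ q t - p t ≤ ρ) → Lam n p a b q →
    ∀ θ > 0, ∑ t ∈ Finset.range n, Xr (s t) (a t) (q t) (p t) (b t) ≤
      θ * ∑ t ∈ Finset.range n, min (a t - p t) (q t - b t) + σ / θ + 1

/-- Two gaps never share an end point. -/
theorem nxt_not_LE (A : Cantor G) {p : ℝ} (hp : p ∈ LE A.Λ) : nxt A.Λ p ∉ LE A.Λ := by
  intro h
  have h1 := A.lt_nxt hp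
  have h2 := A.lt_nxt h
  obtain ⟨y, hy, hne, hd⟩ := A.perf _ h.1 (min (nxt A.Λ p - p) (nxt A.Λ (nxt A.Λ p) - nxt A.Λ p))
    (lt_min (by linarith) (by linarith))
  obtain ⟨d1, d2⟩ := abs_lt.1 hd
  have := min_le_left (nxt A.Λ p - p) (nxt A.Λ (nxt A.Λ p) - nxt A.Λ p)
  have := min_le_right (nxt A.Λ p - p) (nxt A.Λ (nxt A.Λ p) - nxt A.Λ p)
  rcases lt_or_gt_of_ne hne with c | c
  · exact A.not_mem_gap (p := p) (by linarith) c hy
  · exact A.not_mem_gap c (by linarith) hy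

variable [SmoothAct G]

theorem Jg.act {A : Cantor G} {β j : ℝ} (h : j ∈ Jg A β) (g : G) : g • j ∈ Jg A β := by
  obtain ⟨h1, w, h2⟩ := h
  exact ⟨A.act_LE g h1, w * g⁻¹, by rwa [mul_smul, inv_smul_smul]⟩

theorem Jg.int {A : Cantor G} {β j : ℝ} (h : j ∈ Jg A β) (n : ℤ) : j + n ∈ Jg A β := by
  rw [← A.tz_smul]; exact Jg.act h _

theorem Sch.pt_mem {A : Cantor G} {S : Finset G} {β ε : ℝ} (T : Sch A S β ε) {j : ℝ}
    (hj : j ∈ Jg A β) (t : ℕ) : T.pt j t ∈ Jg A β := Jg.act hj _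

end Pool.Agent.Lib.MP_173a7e_an.C2
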