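import Pool.Agent.Lib.MP_173a7e_an.C2.Tree

/-! Geometry of the cells and of the paths. -/

set_option autoImplicit false
set_option linter.unusedVariables false
set_option linter.unusedSectionVars false

namespace Pool.Agent.Lib.MP_173a7e_an.C2

open Set Filter Topology
open scoped Pointwise

theorem treeA_mono {x y l X Y : ℝ} (hx : 0 ≤ x) (hy : 0 ≤ y) (hl : 0 ≤ l) (h1 : x ≤ X)
    (h2 : y ≤ Y) : (X + l + Y) * (x * y) ≤ (x + l + y) * (X * Y) := by
  have a1 := mul_nonneg (mul_nonneg hx (hx.trans h1)) (sub_nonneg.2 h2)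
  have a2 := mul_nonneg (mul_nonneg hy (hy.trans h2)) (sub_nonneg.2 h1)
  have a3 := mul_le_mul_of_nonneg_left (mul_le_mul h1 h2 hy (hx.trans h1)) hl
  linarith

theorem treeA_thin {L l R : ℝ} (hL : 0 < L) (hl : 0 < l) (hR : 0 < R) (c W : ℝ)
    (hW : W = L + l + R) (hc : c = l * W / (L * R)) (h : c ≤ 1) :
    l ≤ L ∧ l ≤ R ∧ c / 3 * min L R ≤ l := by
  have pos := mul_pos hL hR
  have e : c * (L * R) = l * (L + l + R) := by rw [hc, hW]; field_simp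
  have b : l * (L + l + R) ≤ L * R := by rw [← e]; exact mul_le_of_le_one_left pos.le h
  have a1 := mul_pos hl hL
  have a2 := mul_pos hl hR
  have a3 := mul_pos hl hl
  have l1 : l ≤ L := le_of_mul_le_mul_right (by linarith) hR
  have l2 : l ≤ R := le_of_mul_le_mul_right (by linarith) hL
  refine ⟨l1, l2, ?_⟩
  rcases le_total L R with d | d
  · rw [min_eq_left d]
    refine le_of_mul_le_mul_right ?_ hR
    have := mul_le_mul_of_nonneg_left (show L + l + R ≤ 3 * R by linarith) hl.le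
    linarith
  · rw [min_eq_right d]
    refine le_of_mul_le_mul_right ?_ hL
    have := mul_le_mul_of_nonneg_left (show L + l + R ≤ 3 * L by linarith) hl.le
    linarith

theorem treeA_eq {L R l W X Y l' W' x y w E : ℝ} (hL : L ≠ 0) (hR : R ≠ 0) (hX : X ≠ 0)
    (hY : Y ≠ 0) (hl : l' ≠ 0) (hW : W' ≠ 0) (h : l' * w * (L * R) = E * (l * W) * (x * y)) :
    l * W / (L * R) * E / (l' * W' / (X * Y)) * (W' * (x * y)) = w * (X * Y) := by
  have : l * W / (L * R) * E / (l' * W' / (X * Y)) * (W' * (x * y)) =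
      E * (l * W) * (x * y) * (X * Y) / (l' * (L * R)) := by field_simp
  rw [this, ← h]
  field_simp

variable {G : Type} [Group G] [MulAction G ℝ]

variable [SmoothAct G] {A : Cantor G} {S : Finset G} {β ε : ℝ}


theorem Sch.ord (T : Sch A S β ε) {j : ℝ} (hj : j ∈ Jg A β) (h0 : T.rk j ≠ 0) :
    T.lo j ∈ A.Λ ∧ T.hi j ∈ A.Λ ∧ T.lo j < j ∧ j < nxt A.Λ j ∧ nxt A.Λ j < T.hi j := by
  obtain ⟨a1, a2, -⟩ := T.la_mem j hj h0
  obtain ⟨b1, b2, -⟩ := T.rb_mem j hj h0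
  refine ⟨A.nxt_mem _, b1.1.1, lt_of_le_of_ne a2 fun e => ?_, A.lt_nxt hj.1,
    lt_of_le_of_ne b2 fun e => ?_⟩
  · exact nxt_not_LE A a1.1 (by rw [show nxt A.Λ (T.la j) = j from e]; exact hj.1)
  · exact nxt_not_LE A hj.1 (by rw [show nxt A.Λ j = T.rb j from e]; exact b1.1)

/-- Older gaps lie outside the cell. -/
theorem Sch.out (T : Sch A S β ε) {j k : ℝ} (hj : j ∈ Jg A β) (h0 : T.rk j ≠ 0) (hk : k ∈ Jg A β)
    (h : T.rk k < T.rk j) : nxt A.Λ k ≤ T.lo j ∨ T.hi j ≤ k := by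
  by_contra hc
  obtain ⟨c1, c2⟩ := not_or.1 hc
  obtain ⟨o1, o2, -⟩ := T.ord hj h0
  exact absurd (T.cell j hj h0 k hk (A.le_of_lt_nxt o1 (not_le.1 c1)) (A.nxt_le o2 (not_le.1 c2)))
    (not_le.2 h)

/-- An interval without older gaps lies in the cell. -/
theorem Sch.sub (T : Sch A S β ε) {j u v : ℝ} (hj : j ∈ Jg A β) (h0 : T.rk j ≠ 0) (hu : u ∈ A.Λ)
    (hv : v ∈ A.Λ) (h1 : u ≤ j) (h2 : nxt A.Λ j ≤ v)
    (h : ∀ k ∈ Jg A β, u ≤ k → nxt A.Λ k ≤ v → T.rk j ≤ T.rk k) : T.lo j ≤ u ∧ v ≤ T.hi j := by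
  obtain ⟨a1, a2, a3⟩ := T.la_mem j hj h0
  obtain ⟨b1, b2, b3⟩ := T.rb_mem j hj h0
  have e := A.le_nxt j
  constructor
  · by_contra hc
    exact absurd (h _ a1 (A.le_of_lt_nxt hu (not_le.1 hc)) (by linarith)) (not_le.2 a3)
  · by_contra hc
    exact absurd (h _ b1 (by linarith) (A.nxt_le hv (not_le.1 hc))) (not_le.2 b3)

theorem Sch.nest (T : Sch A S β ε) {j : ℝ} (hj : j ∈ Jg A β) (h0 : T.rk j ≠ 0)
    (h1 : T.rk (T.par j • j) ≠ 0) :
    T.lo (T.par j • j) ≤ T.par j • T.lo j ∧ T.par j • T.hi j ≤ T.hi (T.par j • j) := by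
  obtain ⟨o1, o2, o3, o4, o5⟩ := T.ord hj h0
  refine T.sub (Jg.act hj _) h1 (A.inv _ _ o1) (A.inv _ _ o2) ((act_le _).2 o3.le) ?_ ?_
  · rw [A.nxt_act]; exact (act_le _).2 o5.le
  · intro k hk k1 k2
    have := T.par_cell j hj h0 ((T.par j)⁻¹ • k) (Jg.act hk _)
      (by rw [← act_le (T.par j), smul_inv_smul]; exact k1)
      (by rw [A.nxt_act, ← act_le (T.par j), smul_inv_smul]; exact k2)
    rwa [smul_inv_smul] at this

theorem Sch.lam2 (T : Sch A S β ε) {j k : ℝ} (hj : j ∈ Jg A β) (hk : k ∈ Jg A β) (h0 : T.rk k ≠ 0)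
    (h : T.rk k < T.rk j) (m : ℤ) : T.hi j + m ≤ T.lo k ∨ T.hi k ≤ T.lo j + m ∨
      (T.lo k ≤ T.lo j + m ∧ T.hi j + m ≤ k) ∨ (nxt A.Λ k ≤ T.lo j + m ∧ T.hi j + m ≤ T.hi k) := by
  have hj0 : T.rk j ≠ 0 := by omega
  have key : ∀ k' ∈ Jg A β, T.rk k' < T.rk j → nxt A.Λ k' ≤ T.lo j + m ∨ T.hi j + m ≤ k' := by
    intro k' hk' h'
    have := T.out hj hj0 (Jg.int hk' (-m)) (by rw [T.rk_int k' hk']; exact h')
    rw [A.nxt_int] at this
    push_cast at this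
    rcases this with c | c
    · left; linarith
    · right; linarith
  obtain ⟨a1, a2, a3⟩ := T.la_mem k hk h0
  obtain ⟨b1, b2, b3⟩ := T.rb_mem k hk h0
  rcases key _ a1 (a3.trans h) with c1 | c1
  · rcases key _ b1 (b3.trans h) with c2 | c2
    · exact Or.inr (Or.inl ((A.le_nxt _).trans c2))
    · rcases key _ hk h with c3 | c3
      · exact Or.inr (Or.inr (Or.inr ⟨c3, c2⟩))
      · exact Or.inr (Or.inr (Or.inl ⟨c1, c3⟩))
  · exact Or.inl (c1.trans (A.le_nxt _))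

theorem Sch.pt_lt (T : Sch A S β ε) {j : ℝ} (hj : j ∈ Jg A β) {t t' : ℕ} (h : t < t')
    (h0 : ∀ u < t', T.rk (T.pt j u) ≠ 0) : T.rk (T.pt j t') < T.rk (T.pt j t) := by
  have step : ∀ u, T.rk (T.pt j u) ≠ 0 → T.rk (T.pt j (u + 1)) < T.rk (T.pt j u) := by
    intro u hu
    rw [T.pt_succ]
    exact (T.par_mem _ (T.pt_mem hj u) hu).2
  induction t', h using Nat.le_induction with
  | base => exact step t (h0 t (Nat.lt_succ_self t))
  | succ n hn ih =>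
    exact (step n (h0 n (Nat.lt_succ_self n))).trans (ih fun u hu => h0 u (Nat.lt_succ_of_lt hu))

theorem Sch.pt_end (T : Sch A S β ε) {j : ℝ} (hj : j ∈ Jg A β) :
    ∃ n, T.rk (T.pt j n) = 0 ∧ ∀ u < n, T.rk (T.pt j u) ≠ 0 := by
  classical
  have ex : ∃ n, T.rk (T.pt j n) = 0 := by
    by_contra hc
    have hc' : ∀ n, T.rk (T.pt j n) ≠ 0 := fun n e => hc ⟨n, e⟩
    have : ∀ n, T.rk (T.pt j n) + n ≤ T.rk (T.pt j 0) := by
      intro n
      induction n with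
      | zero => exact le_rfl
      | succ n ih =>
        have := T.pt_lt hj (Nat.lt_succ_self n) fun u _ => hc' u
        simp only [Nat.succ_eq_add_one] at this
        omega
    have := this (T.rk (T.pt j 0) + 1)
    omega
  exact ⟨Nat.find ex, Nat.find_spec ex, fun u hu => Nat.find_min ex hu⟩

theorem Sch.lam (T : Sch A S β ε) {j : ℝ} (hj : j ∈ Jg A β) (i n : ℕ)
    (h0 : ∀ u < i + n, T.rk (T.pt j u) ≠ 0) :
    Lam n (fun t => T.lo (T.pt j (i + t))) (fun t => T.pt j (i + t))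
      (fun t => nxt A.Λ (T.pt j (i + t))) (fun t => T.hi (T.pt j (i + t))) := by
  intro a b hab hb m
  exact T.lam2 (T.pt_mem hj (i + a)) (T.pt_mem hj (i + b)) (h0 _ (by omega))
    (T.pt_lt hj (by omega) fun u hu => h0 u (by omega)) m

/-- Short gaps along a path have small total length. -/
theorem small_path (A : Cantor G) {e : ℝ} (he : 0 < e) : ∃ η > 0, η ≤ 1 ∧
    ∀ (S : Finset G) (β ε : ℝ) (T : Sch A S β ε), ∀ j ∈ Jg A β, ∀ (n : ℕ) (U : Finset ℕ),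
      (∀ u < n, T.rk (T.pt j u) ≠ 0) → (∀ t ∈ U, t < n ∧ A.len (T.pt j t) < η) →
      ∑ t ∈ U, A.len (T.pt j t) ≤ e := by
  classical
  obtain ⟨τ, t0, hτ⟩ := A.small_sum he
  refine ⟨min τ 1, lt_min t0 one_pos, min_le_right _ _, fun S β ε T j hj n U h0 hU => ?_⟩
  have inj : Set.InjOn (fun t => A.cls (T.pt j t) (T.pt_mem hj t).1) (U : Set ℕ) := by
    intro t ht t' ht' e
    obtain ⟨m, hm⟩ := (A.cls_eq_iff _ _).1 e
    have e2 : T.rk (T.pt j t) = T.rk (T.pt j t') := by rw [hm, T.rk_int _ (T.pt_mem hj t')]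
    have c1 := (hU t ht).1
    have c2 := (hU t' ht').1
    rcases lt_trichotomy t t' with c | c | c
    · exact absurd e2 (T.pt_lt hj c fun u hu => h0 u (by omega)).ne'
    · exact c
    · exact absurd e2 (T.pt_lt hj c fun u hu => h0 u (by omega)).ne
  have := hτ (U.image fun t => A.cls (T.pt j t) (T.pt_mem hj t).1) (by
    intro v hv
    obtain ⟨t, ht, rfl⟩ := Finset.mem_image.1 hv
    rw [A.len_cls]
    exact (hU t ht).2.trans_le (min_le_left _ _))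
  rw [Finset.sum_image inj] at this
  simpa only [A.len_cls] using this

/-- Cells are short when the roots are many. -/
theorem small_cells (A : Cantor G) {ρ : ℝ} (hρ : 0 < ρ) : ∃ κ > 0, ∀ (S : Finset G) (β ε : ℝ),
    β ≤ κ → ∀ T : Sch A S β ε, ∀ j ∈ Jg A β, T.rk j ≠ 0 → T.hi j - T.lo j ≤ ρ := by
  obtain ⟨κ, k0, hκ⟩ := A.piece ρ hρ
  refine ⟨κ, k0, fun S β ε hβ T j hj h0 => ?_⟩
  by_contra hc
  obtain ⟨p, hp, c, c1, c2, c3, c4⟩ := hκ (T.lo j)
  have hl : β ≤ A.len p := by unfold Cantor.len; linarith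
  have hJ : p ∈ Jg A β := ⟨hp, 1, by rwa [one_smul]⟩
  have hr := (T.rk_zero p hJ).2 hl
  rcases T.out hj h0 hJ (by omega) with d | d
  · linarith
  · linarith [not_le.1 hc]

theorem Sch.chi_pos (T : Sch A S β ε) {j : ℝ} (hj : j ∈ Jg A β) (h0 : T.rk j ≠ 0) :
    0 < T.chi j := by
  obtain ⟨-, -, o3, o4, o5⟩ := T.ord hj h0
  exact div_pos (mul_pos (A.len_pos hj.1) (by linarith)) (mul_pos (by linarith) (by linarith))

theorem Sch.thin (T : Sch A S β ε) {j : ℝ} (hj : j ∈ Jg A β) (h0 : T.rk j ≠ 0)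
    (h : T.chi j ≤ 1) : Thin (T.lo j) j (nxt A.Λ j) (T.hi j) ∧ T.chi j / 3 * T.m j ≤ A.len j := by
  obtain ⟨-, -, o3, o4, o5⟩ := T.ord hj h0
  have e := treeA_thin (sub_pos.2 o3) (sub_pos.2 o4) (sub_pos.2 o5) (T.chi j) (T.hi j - T.lo j)
    (by ring) rfl h
  exact ⟨⟨o3, o4, o5, e.1, e.2.1⟩, e.2.2⟩

theorem Sch.len_le_chi (T : Sch A S β ε) {j : ℝ} (hj : j ∈ Jg A β) (h0 : T.rk j ≠ 0)
    (h : T.hi j - T.lo j ≤ 1) : A.len j ≤ T.chi j := by
  obtain ⟨-, -, o3, o4, o5⟩ := T.ord hj h0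
  have l0 := A.len_pos hj.1
  unfold Sch.chi
  rw [le_div_iff₀ (mul_pos (sub_pos.2 o3) (sub_pos.2 o5))]
  refine mul_le_mul_of_nonneg_left ?_ l0.le
  calc (j - T.lo j) * (T.hi j - nxt A.Λ j) ≤ (T.hi j - T.lo j) * 1 :=
        mul_le_mul (by linarith) (by linarith) (by linarith) (by linarith)
    _ = _ := mul_one _

/-- The gain is nonnegative, and it measures the growth of the cell. -/
theorem Sch.gn_spec (T : Sch A S β ε) {j : ℝ} (hj : j ∈ Jg A β) (h0 : T.rk j ≠ 0)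
    (h1 : T.rk (T.par j • j) ≠ 0) : 0 ≤ T.gn j ∧
      (T.par j • T.hi j - T.par j • T.lo j) * ((T.par j • j - T.lo (T.par j • j)) *
        (T.hi (T.par j • j) - nxt A.Λ (T.par j • j))) ≤
      Real.exp (T.gn j) * ((T.hi (T.par j • j) - T.lo (T.par j • j)) *
        ((T.par j • j - T.par j • T.lo j) * (T.par j • T.hi j - nxt A.Λ (T.par j • j)))) := by
  obtain ⟨-, -, o3, o4, o5⟩ := T.ord hj h0
  obtain ⟨-, -, p3, p4, p5⟩ := T.ord (Jg.act hj (T.par j)) h1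
  obtain ⟨n1, n2⟩ := T.nest hj h0 h1
  have c1 := T.chi_pos hj h0
  have c2 := T.chi_pos (Jg.act hj (T.par j)) h1
  have cr := cross (T.par j) o3 o4 o5
  have q3 := (act_lt (T.par j)).2 o3
  have q5 := (act_lt (T.par j)).2 o5
  rw [← A.nxt_act] at cr q5
  have e : Real.exp (T.gn j) * ((T.hi (T.par j • j) - T.lo (T.par j • j)) *
        ((T.par j • j - T.par j • T.lo j) * (T.par j • T.hi j - nxt A.Λ (T.par j • j)))) =
      (T.par j • T.hi j - T.par j • T.lo j) * ((T.par j • j - T.lo (T.par j • j)) *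
        (T.hi (T.par j • j) - nxt A.Λ (T.par j • j))) := by
    unfold Sch.gn
    rw [Real.exp_sub, Real.exp_add, Real.exp_log c1, Real.exp_log c2]
    unfold Sch.chi Sch.err Cantor.len
    exact treeA_eq (sub_pos.2 o3).ne' (sub_pos.2 o5).ne' (sub_pos.2 p3).ne' (sub_pos.2 p5).ne'
      (sub_pos.2 p4).ne' (sub_pos.2 (p3.trans (p4.trans p5))).ne' cr
  refine ⟨?_, e.ge⟩
  have k := treeA_mono (sub_pos.2 q3).le (sub_pos.2 q5).le (sub_pos.2 p4).le
    (sub_le_sub_left n1 (T.par j • j)) (sub_le_sub_right n2 (nxt A.Λ (T.par j • j)))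
  rw [← Real.one_le_exp_iff]
  refine le_of_mul_le_mul_right ?_ (mul_pos (sub_pos.2 (p3.trans (p4.trans p5)))
    (mul_pos (sub_pos.2 q3) (sub_pos.2 q5)))
  rw [e]
  linarith

theorem Sch.thick (T : Sch A S β ε) {δ c : ℝ} (hE : Exp A δ) (hβ : β ≤ δ) (hc : 0 < c) (hcβ : c ≤ β)
    (h : ∀ j ∈ Jg A β, T.rk j ≠ 0 → c ≤ T.chi j) : Thick A c := by
  classical
  intro p hp q hq hw hpq
  obtain ⟨p0, a1, a2, a3, g, a4⟩ := hE p q hw
  have ex : ∃ n, ∃ k ∈ Jg A β, p ≤ k ∧ nxt A.Λ k ≤ q ∧ T.rk k = n :=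
    ⟨_, p0, ⟨a1, g, hβ.trans a4⟩, a2.le, a3.le, rfl⟩
  obtain ⟨j, hj, j1, j2, j3⟩ := Nat.find_spec ex
  have o4 := A.lt_nxt hj.1
  have l0 := A.len_pos hj.1
  refine ⟨j, hj.1, j1, j2, ?_⟩
  by_cases h0 : T.rk j = 0
  · have hl := (T.rk_zero j hj).1 h0
    refine mul_le_mul (hcβ.trans hl) ?_ (mul_nonneg (by linarith) (by linarith)) l0.le
    calc (j - p) * (q - nxt A.Λ j) ≤ (q - p) * 1 :=
          mul_le_mul (by linarith) (by linarith) (by linarith) (by linarith)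
      _ = _ := mul_one _
  · obtain ⟨s1, s2⟩ := T.sub hj h0 hp hq j1 j2 fun k hk k1 k2 => by
      rw [j3]; exact Nat.find_min' ex ⟨k, hk, k1, k2, rfl⟩
    obtain ⟨-, -, o3, -, o5⟩ := T.ord hj h0
    have hch := h j hj h0
    unfold Sch.chi at hch
    have pos := mul_pos (sub_pos.2 o3) (sub_pos.2 o5)
    rw [le_div_iff₀ pos] at hch
    have k := treeA_mono (sub_nonneg.2 j1) (sub_nonneg.2 j2) (sub_pos.2 o4).le
      (sub_le_sub_left s1 j) (sub_le_sub_right s2 (nxt A.Λ j))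
    have b1 := mul_le_mul_of_nonneg_right hch (mul_nonneg (sub_nonneg.2 j1) (sub_nonneg.2 j2))
    have b2 := mul_le_mul_of_nonneg_left k l0.le
    refine le_of_mul_le_mul_right ?_ pos
    linarith

end Pool.Agent.Lib.MP_173a7e_an.C2
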